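import Pool.Agent.Lib.P0de4a2.Defs

set_option autoImplicit false

open Finset

namespace P0de

/-- a connected finite set is covered by a walk starting at a given point, with `2 n - 2` steps -/
theorem walk_cover_root {α : Type*} [DecidableEq α] {adj : α → α → Prop} (hrefl : ∀ a, adj a a)
    (hsymm : ∀ a b, adj a b → adj b a) {X : Finset α} {a₀ : α} (ha₀ : a₀ ∈ X)
    (hc : ∀ A ⊆ X, A.Nonempty → (∀ a ∈ A, ∀ b ∈ X, adj a b → b ∈ A) → A = X) :
    ∃ w : ℕ → α, w 0 = a₀ ∧ (∀ t, adj (w t) (w (t + 1))) ∧
      (range (2 * X.card - 1)).image w = X := by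
  have key : ∀ k, 1 ≤ k → k ≤ X.card → ∃ Y, Y ⊆ X ∧ Y.card = k ∧ ∃ w : ℕ → α, w 0 = a₀ ∧
      (∀ t, adj (w t) (w (t + 1))) ∧ (∀ t, w t ∈ Y) ∧ (range (2 * k - 1)).image w = Y := by
    intro k hk
    induction k, hk using Nat.le_induction with
    | base =>
      intro _
      exact ⟨{a₀}, by simpa using ha₀, by simp, fun _ => a₀, rfl, fun _ => hrefl a₀, by simp,
        by simp⟩
    | succ k hk ih =>
      intro hkX
      obtain ⟨Y, hYX, hYc, w, hw0, hw1, hw2, hw3⟩ := ih (by omega)
      have hYne : Y.Nonempty := card_pos.1 (by omega)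
      have hYX' : Y ≠ X := by rintro rfl; omega
      obtain ⟨a, haY, b, hbX, hab, hbY⟩ : ∃ a ∈ Y, ∃ b ∈ X, adj a b ∧ b ∉ Y := by
        by_contra hcon
        push Not at hcon
        exact hYX' (hc Y hYX hYne hcon)
      obtain ⟨t0, ht0, hwt0⟩ := mem_image.1
        (by rw [hw3]; exact haY : a ∈ (range (2 * k - 1)).image w)
      have ht0' := mem_range.1 ht0
      refine ⟨insert b Y, insert_subset hbX hYX, by rw [card_insert_of_notMem hbY, hYc],
        fun t => if t ≤ t0 then w t else if t = t0 + 1 then b else w (t - 2), ?_, ?_, ?_, ?_⟩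
      · simp [hw0]
      · intro t
        dsimp only
        rcases lt_trichotomy t t0 with h | h | h
        · rw [if_pos h.le, if_pos (by omega)]
          exact hw1 t
        · subst h
          rw [if_pos le_rfl, if_neg (by omega), if_pos rfl, hwt0]
          exact hab
        · rw [if_neg (by omega), if_neg (by omega : ¬ t + 1 ≤ t0),
            if_neg (by omega : ¬ t + 1 = t0 + 1)]
          by_cases h2 : t = t0 + 1
          · rw [if_pos h2, h2]
            have : t0 + 1 + 1 - 2 = t0 := by omega
            rw [this, hwt0]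
            exact hsymm _ _ hab
          · rw [if_neg h2]
            have : t + 1 - 2 = t - 2 + 1 := by omega
            rw [this]
            exact hw1 (t - 2)
      · intro t
        dsimp only
        split_ifs
        · exact mem_insert_of_mem (hw2 _)
        · exact mem_insert_self _ _
        · exact mem_insert_of_mem (hw2 _)
      · apply Subset.antisymm
        · intro y hy
          obtain ⟨t, -, rfl⟩ := mem_image.1 hy
          split_ifs
          · exact mem_insert_of_mem (hw2 _)
          · exact mem_insert_self _ _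
          · exact mem_insert_of_mem (hw2 _)
        · intro y hy
          rcases mem_insert.1 hy with rfl | hy
          · refine mem_image.2 ⟨t0 + 1, mem_range.2 (by omega), ?_⟩
            rw [if_neg (by omega), if_pos rfl]
          · rw [← hw3] at hy
            obtain ⟨t, ht, rfl⟩ := mem_image.1 hy
            have ht' := mem_range.1 ht
            by_cases h : t ≤ t0
            · refine mem_image.2 ⟨t, mem_range.2 (by omega), ?_⟩
              rw [if_pos h]
            · refine mem_image.2 ⟨t + 2, mem_range.2 (by omega), ?_⟩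
              rw [if_neg (by omega), if_neg (by omega)]
              rfl
  obtain ⟨Y, hYX, hYc, w, hw0, hw1, -, hw3⟩ := key X.card (card_pos.2 ⟨a₀, ha₀⟩) le_rfl
  rw [eq_of_subset_of_card_le hYX hYc.ge] at hw3
  exact ⟨w, hw0, hw1, hw3⟩

/-- the possible steps -/
noncomputable def stepSet : Finset (Site × Site) :=
  (Icc (-1) 1 ×ˢ Icc (-1) 1) ×ˢ (Icc (-1) 1 ×ˢ Icc (-1) 1)

theorem card_stepSet : stepSet.card = 81 := by
  unfold stepSet
  simp

theorem sameTile_symm {γ γ' : Site × Site} (h : SameTile γ γ') : SameTile γ' γ := by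
  obtain ⟨e, h1, h2, h3, h4⟩ := h
  exact ⟨e, h3, h4, h1, h2⟩

theorem sameTile_sub {γ γ' : Site × Site} (h : SameTile γ γ') : γ' - γ ∈ stepSet := by
  obtain ⟨⟨⟨x1, x2⟩, c⟩, h1, h2, h3, h4⟩ := h
  obtain ⟨⟨a1, a2⟩, ⟨b1, b2⟩⟩ := γ
  obtain ⟨⟨a1', a2'⟩, ⟨b1', b2'⟩⟩ := γ'
  unfold stepSet
  simp only [src, tgt, pu, pl, dir] at h1 h2 h3 h4
  simp only [Prod.mk_sub_mk, mem_product, mem_Icc]
  cases c <;>
    simp only [cond_true, cond_false, Bool.not_true, Bool.not_false, Prod.mk_add_mk,
      Prod.mk_sub_mk, Prod.mk.injEq] at h1 h2 h3 h4 <;>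
    refine ⟨⟨?_, ?_⟩, ⟨?_, ?_⟩⟩ <;> omega

/-- Number of tile-connected sets of interface pairs of size `n` with a root near `x₀`. A connected
set of size `n` is the range of a walk with `2 n` steps (`walk_cover` in `Lib/P8e91ed/Family.lean`
may be copied); if `SameTile γ γ'` then the coordinates of `γ` and `γ'` differ by at most `1`
(`81` possibilities), `n` roots: `n * 81 ^ (2 n) ≤ 20000 ^ n`. -/
theorem card_animals (x₀ : Site) (n : ℕ) (𝓡 : Finset (Finset (Site × Site)))
    (h : ∀ G ∈ 𝓡, G.card = n ∧
      (∃ t : ℕ, t < n ∧ ((x₀.1 + t, x₀.2), (x₀.1 + t, x₀.2)) ∈ G) ∧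
      ∀ A ⊆ G, A.Nonempty → (∀ γ ∈ A, ∀ γ' ∈ G, SameTile γ γ' → γ' ∈ A) → A = G) :
    𝓡.card ≤ 20000 ^ n := by
  classical
  let F : ℕ × (Fin (2 * n) → Site × Site) → Finset (Site × Site) := fun p =>
    (range (2 * n - 1)).image fun k =>
      (((x₀.1 + (p.1 : ℤ), x₀.2), (x₀.1 + (p.1 : ℤ), x₀.2)) : Site × Site) +
        ∑ i ∈ range k, if hi : i < 2 * n then p.2 ⟨i, hi⟩ else 0
  have hsub : 𝓡 ⊆ (range n ×ˢ Fintype.piFinset fun _ : Fin (2 * n) => stepSet).image F := by
    intro G hG
    obtain ⟨hcard, ⟨t, ht, hroot⟩, hconn⟩ := h G hG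
    obtain ⟨w, hw0, hw1, hw2⟩ := walk_cover_root (adj := fun a b => a = b ∨ SameTile a b)
      (fun a => Or.inl rfl) (fun a b hab => hab.elim (fun h => Or.inl h.symm)
        fun h => Or.inr (sameTile_symm h)) hroot
      (fun A hA hne hcl => hconn A hA hne fun a ha b hb hab => hcl a ha b hb (Or.inr hab))
    refine mem_image.2 ⟨(t, fun i => w (i + 1) - w i), ?_, ?_⟩
    · refine mem_product.2 ⟨mem_range.2 ht, Fintype.mem_piFinset.2 fun i => ?_⟩
      rcases hw1 i with h1 | h1
      · dsimp only
        rw [← h1, sub_self]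
        simp [stepSet]
      · exact sameTile_sub h1
    · show (range (2 * n - 1)).image _ = G
      rw [← hw2, hcard]
      apply image_congr
      intro k hk
      have hk' : k < 2 * n - 1 := by simpa using hk
      dsimp only
      rw [← hw0]
      have : ∀ k, k < 2 * n → w 0 + ∑ i ∈ range k, (if hi : i < 2 * n then
          w (i + 1) - w i else 0) = w k := by
        intro k
        induction k with
        | zero => intro _; simp
        | succ k ih =>
          intro hk
          rw [sum_range_succ, ← add_assoc, ih (by omega), dif_pos (by omega)]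
          abel
      exact this k (by omega)
  calc 𝓡.card ≤ ((range n ×ˢ Fintype.piFinset fun _ : Fin (2 * n) => stepSet).image F).card :=
        card_le_card hsub
    _ ≤ (range n ×ˢ Fintype.piFinset fun _ : Fin (2 * n) => stepSet).card := card_image_le
    _ = n * 81 ^ (2 * n) := by
        rw [card_product, card_range, Fintype.card_piFinset]
        simp [card_stepSet]
    _ ≤ 3 ^ n * 6561 ^ n := by
        rw [pow_mul]
        exact Nat.mul_le_mul (Nat.lt_pow_self (by norm_num)).le (le_of_eq (by norm_num))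
    _ = 19683 ^ n := by rw [← mul_pow]; norm_num
    _ ≤ 20000 ^ n := Nat.pow_le_pow_left (by norm_num) n

end P0de
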