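import Pool.Agent.Lib.P0de4a2.Defs

set_option autoImplicit false

open Finset

namespace P0de

/-- monotonicity of connections -/
theorem Conn.mono {η η' : Finset Ed} (h : η ⊆ η') {x y : Site} (hc : Conn η x y) :
    Conn η' x y := by
  unfold Conn at *
  refine Relation.ReflTransGen.mono (r := Adj η) (p := Adj η') ?_ x y hc
  rintro x y ⟨e, he, h1⟩
  exact ⟨e, h he, h1⟩

theorem Adj.symm {η : Finset Ed} {x y : Site} (h : Adj η x y) : Adj η y x := by
  obtain ⟨e, he, h1⟩ := h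
  exact ⟨e, he, h1.symm⟩

theorem Conn.symm {η : Finset Ed} {x y : Site} (h : Conn η x y) : Conn η y x := by
  unfold Conn at *
  induction h with
  | refl => exact Relation.ReflTransGen.refl
  | tail _ h2 ih => exact Relation.ReflTransGen.head h2.symm ih

theorem Conn.trans {η : Finset Ed} {x y z : Site} (h : Conn η x y) (h' : Conn η y z) :
    Conn η x z := Relation.ReflTransGen.trans h h'

/-- a set closed under the edges contains whole connected pieces, and they are connected by the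
edges inside -/
theorem Conn.closed {η : Finset Ed} {A : Finset Site}
    (hc : ∀ e ∈ η, (src e ∈ A ↔ tgt e ∈ A)) {x y : Site} (hx : x ∈ A) (h : Conn η x y) :
    y ∈ A ∧ Conn (η ∩ edIn A) x y := by
  unfold Conn at *
  induction h with
  | refl => exact ⟨hx, Relation.ReflTransGen.refl⟩
  | tail _ h2 ih =>
    obtain ⟨e, he, h3⟩ := h2
    have hce := hc e he
    rcases h3 with ⟨rfl, rfl⟩ | ⟨rfl, rfl⟩
    · have h4 := hce.1 ih.1
      refine ⟨h4, Relation.ReflTransGen.tail ih.2 ⟨e, ?_, Or.inl ⟨rfl, rfl⟩⟩⟩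
      rw [mem_inter]
      refine ⟨he, ?_⟩
      simp only [edIn, mem_filter, mem_product, mem_univ, and_true]
      exact ⟨ih.1, h4⟩
    · have h4 := hce.2 ih.1
      refine ⟨h4, Relation.ReflTransGen.tail ih.2 ⟨e, ?_, Or.inr ⟨rfl, rfl⟩⟩⟩
      rw [mem_inter]
      refine ⟨he, ?_⟩
      simp only [edIn, mem_filter, mem_product, mem_univ, and_true]
      exact ⟨h4, ih.1⟩

theorem mem_edIn' {A : Finset Site} {e : Ed} : e ∈ edIn A ↔ src e ∈ A ∧ tgt e ∈ A := by
  simp [edIn, src]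

/-- every cluster is a nonempty subset of `V`, connected, and closed -/
theorem mem_clus {V : Finset Site} {η : Finset Ed} {C : Finset Site} (hC : C ∈ clus V η) :
    C ⊆ V ∧ C.Nonempty ∧ (∀ x ∈ C, ∀ y ∈ C, Conn η x y) ∧
    (∀ x ∈ C, ∀ y ∈ V, Conn η x y → y ∈ C) := by
  classical
  rw [clus, mem_image] at hC
  obtain ⟨z, hz, rfl⟩ := hC
  refine ⟨filter_subset _ _, ⟨z, mem_filter.2 ⟨hz, Relation.ReflTransGen.refl⟩⟩, ?_, ?_⟩
  · intro x hx y hy
    exact (mem_filter.1 hx).2.symm.trans (mem_filter.1 hy).2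
  · intro x hx y hy hxy
    exact mem_filter.2 ⟨hy, (mem_filter.1 hx).2.trans hxy⟩

open Classical in
theorem clus_eq_of {V : Finset Site} {η : Finset Ed} {x y : Site} (h : Conn η x y) :
    (V.filter fun z => Conn η x z) = V.filter fun z => Conn η y z := by
  ext z
  simp only [mem_filter]
  exact ⟨fun ⟨h1, h2⟩ => ⟨h1, h.symm.trans h2⟩, fun ⟨h1, h2⟩ => ⟨h1, h.trans h2⟩⟩

/-- clusters of a disjoint union without edges in between -/
theorem clus_union {V J : Finset Site} {η : Finset Ed} (hJ : J ⊆ V) (hη : η ⊆ edIn V)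
    (hc : ∀ e ∈ η, (src e ∈ J ↔ tgt e ∈ J)) :
    clus V η = clus J (η ∩ edIn J) ∪ clus (V \ J) (η ∩ edIn (V \ J)) ∧
    Disjoint (clus J (η ∩ edIn J)) (clus (V \ J) (η ∩ edIn (V \ J))) := by
  classical
  have hc' : ∀ e ∈ η, (src e ∈ V \ J ↔ tgt e ∈ V \ J) := by
    intro e he
    have h1 := mem_edIn'.1 (hη he)
    have h2 := hc e he
    simp only [mem_sdiff, h1.1, h1.2, true_and, not_iff_not]
    exact h2
  have e1 : ∀ x ∈ J, (V.filter fun y => Conn η x y) =
      J.filter fun y => Conn (η ∩ edIn J) x y := by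
    intro x hx
    ext y
    simp only [mem_filter]
    constructor
    · rintro ⟨_, h2⟩
      exact Conn.closed hc hx h2
    · rintro ⟨h1, h2⟩
      exact ⟨hJ h1, Conn.mono inter_subset_left h2⟩
  have e2 : ∀ x ∈ V \ J, (V.filter fun y => Conn η x y) =
      (V \ J).filter fun y => Conn (η ∩ edIn (V \ J)) x y := by
    intro x hx
    ext y
    simp only [mem_filter]
    constructor
    · rintro ⟨_, h2⟩
      exact Conn.closed hc' hx h2
    · rintro ⟨h1, h2⟩
      exact ⟨(mem_sdiff.1 h1).1, Conn.mono inter_subset_left h2⟩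
  constructor
  · ext C
    simp only [clus, mem_image, mem_union]
    constructor
    · rintro ⟨x, hx, rfl⟩
      by_cases hxJ : x ∈ J
      · exact Or.inl ⟨x, hxJ, (e1 x hxJ).symm⟩
      · exact Or.inr ⟨x, mem_sdiff.2 ⟨hx, hxJ⟩, (e2 x (mem_sdiff.2 ⟨hx, hxJ⟩)).symm⟩
    · rintro (⟨x, hx, rfl⟩ | ⟨x, hx, rfl⟩)
      · exact ⟨x, hJ hx, e1 x hx⟩
      · exact ⟨x, (mem_sdiff.1 hx).1, e2 x hx⟩
  · rw [Finset.disjoint_left]
    intro C h1 h2
    obtain ⟨a1, ⟨x, hx⟩, -, -⟩ := mem_clus h1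
    obtain ⟨a2, -, -, -⟩ := mem_clus h2
    exact (mem_sdiff.1 (a2 hx)).2 (a1 hx)

/-- sites outside all edges are isolated -/
theorem Conn.eq_of_isolated {M : Finset Ed} {Q : Finset Site} (hM : M ⊆ edIn Q) {x y : Site}
    (hx : x ∉ Q) (h : Conn M x y) : y = x := by
  unfold Conn at h
  induction h with
  | refl => rfl
  | tail _ h2 ih =>
    subst ih
    obtain ⟨e, he, h3⟩ := h2
    have h4 := mem_edIn'.1 (hM he)
    rcases h3 with ⟨h5, _⟩ | ⟨_, h5⟩
    · exact absurd (h5 ▸ h4.1) hx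
    · exact absurd (h5 ▸ h4.2) hx

/-- adding isolated sites -/
theorem card_clus_add {J Q : Finset Site} {M : Finset Ed} (hQ : Q ⊆ J) (hM : M ⊆ edIn Q) :
    (clus J M).card + Q.card = (clus Q M).card + J.card := by
  classical
  have hMJ : M ⊆ edIn J := by
    intro e he
    have := mem_edIn'.1 (hM he)
    exact mem_edIn'.2 ⟨hQ this.1, hQ this.2⟩
  obtain ⟨h1, h2⟩ := clus_union (J := Q) (V := J) (η := M) hQ hMJ (by
    intro e he
    have := mem_edIn'.1 (hM he)
    tauto)
  have e1 : M ∩ edIn Q = M := inter_eq_left.2 hM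
  have e2 : M ∩ edIn (J \ Q) = ∅ := by
    rw [Finset.eq_empty_iff_forall_notMem]
    intro e he
    rw [mem_inter, mem_edIn'] at he
    exact (mem_sdiff.1 he.2.1).2 (mem_edIn'.1 (hM he.1)).1
  rw [e1, e2] at h1 h2
  have e3 : (clus (J \ Q) ∅).card = (J \ Q).card := by
    have hiso : ∀ x y : Site, Conn ∅ x y → y = x := fun x y h =>
      Conn.eq_of_isolated (Q := ∅) (Finset.empty_subset _) (Finset.notMem_empty x) h
    rw [clus, card_image_of_injOn]
    intro x hx y hy hxy
    have : y ∈ (J \ Q).filter fun z => Conn ∅ x z := by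
      have h3 : y ∈ (J \ Q).filter fun z => Conn ∅ y z :=
        mem_filter.2 ⟨hy, Relation.ReflTransGen.refl⟩
      simp only at hxy
      rw [← hxy] at h3
      exact h3
    exact (hiso x y (mem_filter.1 this).2).symm
  rw [h1, card_union_of_disjoint h2, e3, card_sdiff_of_subset hQ]
  have := card_le_card hQ
  omega

/-- the cluster of a site; its sites are connected inside the cluster -/
theorem exists_cluster {a b : ℤ} {ω : Finset Ed} {x₀ : Site} (h0 : x₀ ∈ box a b) :
    ∃ K, K ∈ clus (box a b) (ω ∩ inner a b) ∧ x₀ ∈ K ∧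
      (∀ x ∈ K, ∀ y ∈ K, Conn (ω ∩ edIn K) x y) ∧
      ∀ e ∈ ω ∩ inner a b, (src e ∈ K ↔ tgt e ∈ K) := by
  classical
  set K := (box a b).filter fun y => Conn (ω ∩ inner a b) x₀ y with hKdef
  have hcl : ∀ e ∈ ω ∩ inner a b, (src e ∈ K ↔ tgt e ∈ K) := by
    intro e he
    have h1 : e ∈ inner a b := (mem_inter.1 he).2
    have h2 : src e ∈ box a b ∧ tgt e ∈ box a b := by
      simpa [inner, src] using h1
    have hadj : Conn (ω ∩ inner a b) (src e) (tgt e) :=
      Relation.ReflTransGen.single ⟨e, he, Or.inl ⟨rfl, rfl⟩⟩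
    rw [hKdef, mem_filter, mem_filter]
    constructor
    · rintro ⟨_, h3⟩
      exact ⟨h2.2, h3.trans hadj⟩
    · rintro ⟨_, h3⟩
      exact ⟨h2.1, h3.trans hadj.symm⟩
  refine ⟨K, mem_image.2 ⟨x₀, h0, rfl⟩, mem_filter.2 ⟨h0, Relation.ReflTransGen.refl⟩, ?_, hcl⟩
  intro x hx y hy
  have h1 : Conn (ω ∩ inner a b) x y := (mem_filter.1 hx).2.symm.trans (mem_filter.1 hy).2
  have h2 := (Conn.closed hcl hx h1).2
  exact Conn.mono (inter_subset_inter_right inter_subset_left) h2

end P0de
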