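import Mathlib

/-!
# Definitions for MP_0de4a2_pr (random-cluster model with modified boundary-cluster weight)

Sites of `ℤ²`, edges, clusters, boxes.
-/

set_option autoImplicit false

open Finset

namespace P0de

/-- a site of the square lattice -/
abbrev Site := ℤ × ℤ

/-- an edge of the square lattice: `(x, false)` joins `x` and `x + (1, 0)`, `(x, true)` joins `x`
and `x + (0, 1)` -/
abbrev Ed := (ℤ × ℤ) × Bool

/-- the direction of an edge -/
def dir (c : Bool) : Site := bif c then (0, 1) else (1, 0)

/-- first endpoint of an edge -/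
def src (e : Ed) : Site := e.1

/-- second endpoint of an edge -/
def tgt (e : Ed) : Site := e.1 + dir e.2

/-- `x` and `y` are joined by an edge of `η` -/
def Adj (η : Finset Ed) (x y : Site) : Prop :=
  ∃ e ∈ η, (src e = x ∧ tgt e = y) ∨ (src e = y ∧ tgt e = x)

/-- `x` and `y` are connected by the edges of `η` -/
def Conn (η : Finset Ed) (x y : Site) : Prop := Relation.ReflTransGen (Adj η) x y

open Classical in
/-- the clusters of the configuration `η` on the finite set of sites `V` -/
noncomputable def clus (V : Finset Site) (η : Finset Ed) : Finset (Finset Site) :=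
  V.image fun x => V.filter fun y => Conn η x y

/-- the square `[a, b) × [a, b)` -/
noncomputable def box (a b : ℤ) : Finset Site := Ico a b ×ˢ Ico a b

/-- the edges with both endpoints in the square `[a, b) × [a, b)` -/
noncomputable def inner (a b : ℤ) : Finset Ed :=
  (box a b ×ˢ (univ : Finset Bool)).filter fun e => tgt e ∈ box a b

/-- the edges with exactly one endpoint in the square `[a, b) × [a, b)` -/
noncomputable def stubs (a b : ℤ) : Finset Ed :=
  (box (a - 1) b ×ˢ (univ : Finset Bool)).filter fun e =>
    (src e ∈ box a b ∧ tgt e ∉ box a b) ∨ (src e ∉ box a b ∧ tgt e ∈ box a b)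

/-! ### the stub model: free random-cluster model on a square with extra half edges -/

/-- the cluster `C` is attached to an open stub -/
def Stubby (a b : ℤ) (ω : Finset Ed) (C : Finset Site) : Prop :=
  ∃ e ∈ ω, e ∈ stubs a b ∧ (src e ∈ C ∨ tgt e ∈ C)

open Classical in
/-- number of clusters (of sites of the square) not attached to an open stub -/
noncomputable def kInt (a b : ℤ) (ω : Finset Ed) : ℕ :=
  ((clus (box a b) (ω ∩ inner a b)).filter fun C => ¬ Stubby a b ω C).card

open Classical in
/-- number of clusters (of sites of the square) attached to an open stub -/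
noncomputable def kStub (a b : ℤ) (ω : Finset Ed) : ℕ :=
  ((clus (box a b) (ω ∩ inner a b)).filter fun C => Stubby a b ω C).card

open Classical in
/-- the weight of `ω ⊆ inner a b ∪ St` in the stub model with `q = u ^ 16`; `St ⊆ stubs a b` is the
set of available stubs; clusters attached to open stubs and closed stubs get the weight `w` -/
noncomputable def gw (u w : ℝ) (a b : ℤ) (St ω : Finset Ed) : ℝ :=
  u ^ (8 * ω.card) * u ^ (16 * kInt a b ω) * w ^ (kStub a b ω + (St \ ω).card)

/-! ### the region enclosed by a cluster

Active sites are points of `ℤ²`; the passive site `q` sits at `q + (1/2, 1/2)`. -/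

/-- the active neighbours of the passive site `q` -/
def nbA (q : Site) : Finset Site := {q, q + (1, 0), q + (0, 1), q + (1, 1)}

/-- the passive neighbours of the active site `x` -/
def nbP (x : Site) : Finset Site := {x, x - (1, 0), x - (0, 1), x - (1, 1)}

/-- the active edge crossed by the passive edge `e` -/
def cr (e : Ed) : Ed := (e.1 + dir e.2, !e.2)

/-- `q` and `q'` are passive neighbours of an active site not in `K` -/
def Pstep (K : Finset Site) (q q' : Site) : Prop := ∃ x, x ∉ K ∧ q ∈ nbP x ∧ q' ∈ nbP x

/-- `J` (active sites) and `Q` (passive sites) form the region enclosed by `K` (inclusively) -/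
structure Region (a b : ℤ) (K J Q : Finset Site) : Prop where
  KJ : K ⊆ J
  Jbox : J ⊆ box a b
  Qbox : Q ⊆ box a (b - 1)
  QJ : ∀ q ∈ Q, nbA q ⊆ J
  JQ : ∀ x ∈ J, x ∉ K → nbP x ⊆ Q
  out : ∀ q, q ∉ Q → Relation.ReflTransGen (Pstep K) q (a - 1, a - 1)

/-- the interface: pairs `(x, q)`, `x ∈ J` active, `q ∉ Q` a passive neighbour of `x` -/
def Gam (J Q : Finset Site) : Finset (Site × Site) :=
  J.biUnion fun x => (nbP x \ Q).image fun q => (x, q)

/-- the two active sites of the edge `e` and its two passive corners -/
def pu (e : Ed) : Site := e.1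

/-- the other passive corner -/
def pl (e : Ed) : Site := e.1 - dir (!e.2)

/-- two interface pairs are sides of the tile of the same edge `e` -/
def SameTile (γ γ' : Site × Site) : Prop :=
  ∃ e : Ed, (γ.1 = src e ∨ γ.1 = tgt e) ∧ (γ.2 = pu e ∨ γ.2 = pl e) ∧
    (γ'.1 = src e ∨ γ'.1 = tgt e) ∧ (γ'.2 = pu e ∨ γ'.2 = pl e)

/-- the edges with both endpoints in `A` -/
def edIn (A : Finset Site) : Finset Ed :=
  (A ×ˢ (univ : Finset Bool)).filter fun e => tgt e ∈ A

/-- the passive edges with both endpoints in `Q` that do not cross an edge of `ω` -/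
def dualIn (Q : Finset Site) (ω : Finset Ed) : Finset Ed := (edIn Q).filter fun e => cr e ∉ ω

/-- the flipped configuration -/
def flip (J Q : Finset Site) (ω : Finset Ed) : Finset Ed :=
  (ω.filter fun e => src e ∉ J ∧ tgt e ∉ J) ∪ dualIn Q ω

end P0de
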