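import Pool.Agent.Lib.P0de4a2.Defs

set_option autoImplicit false

open Finset

namespace P0de

/-- functions supported in `S`, constant along the edges in `M`, zero on `Z` -/
def cst (S Z : Finset Site) (M : Finset Ed) : Submodule (ZMod 2) (Site → ZMod 2) where
  carrier := {g | (∀ x, x ∉ S → g x = 0) ∧ (∀ e ∈ M, g (src e) = g (tgt e)) ∧ ∀ z ∈ Z, g z = 0}
  add_mem' := by
    rintro f g ⟨h1, h2, h3⟩ ⟨h1', h2', h3'⟩
    refine ⟨fun x hx => by simp [h1 x hx, h1' x hx], fun e he => ?_, fun z hz => by simp [h3 z hz, h3' z hz]⟩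
    simp [h2 e he, h2' e he]
  zero_mem' := ⟨fun _ _ => rfl, fun _ _ => rfl, fun _ _ => rfl⟩
  smul_mem' := by
    rintro c g ⟨h1, h2, h3⟩
    refine ⟨fun x hx => by simp [h1 x hx], fun e he => ?_, fun z hz => by simp [h3 z hz]⟩
    simp [h2 e he]

/-- the cycle space: functions on edges supported in `M` with even degree at every site -/
def cyc (M : Finset Ed) : Submodule (ZMod 2) (Ed → ZMod 2) where
  carrier := {C | (∀ e, e ∉ M → C e = 0) ∧
    ∀ x : Site, C (x, false) + C (x - (1, 0), false) + C (x, true) + C (x - (0, 1), true) = 0}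
  add_mem' := by
    rintro f g ⟨h1, h2⟩ ⟨h1', h2'⟩
    refine ⟨fun e he => by simp [h1 e he, h1' e he], fun x => ?_⟩
    have := h2 x
    have h3 := h2' x
    simp only [Pi.add_apply]
    linear_combination this + h3
  zero_mem' := ⟨fun _ _ => rfl, fun _ => by simp⟩
  smul_mem' := by
    rintro c g ⟨h1, h2⟩
    refine ⟨fun e he => by simp [h1 e he], fun x => ?_⟩
    have := h2 x
    simp only [Pi.smul_apply, smul_eq_mul]
    linear_combination c * this

/-- extension by zero of functions on a finite set -/
def linExt {α : Type} [DecidableEq α] (S : Finset α) : (S → ZMod 2) →ₗ[ZMod 2] (α → ZMod 2) where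
  toFun C := fun e => if h : e ∈ S then C ⟨e, h⟩ else 0
  map_add' := by
    intro f g
    funext e
    by_cases h : e ∈ S
    · simp [h]
    · simp [h]
  map_smul' := by
    intro c g
    funext e
    by_cases h : e ∈ S
    · simp [h]
    · simp [h]

theorem linExt_mem {α : Type} [DecidableEq α] {S : Finset α} (C : S → ZMod 2) {e : α} (h : e ∈ S) :
    linExt S C e = C ⟨e, h⟩ := by
  simp [linExt, h]

theorem linExt_notMem {α : Type} [DecidableEq α] {S : Finset α} (C : S → ZMod 2) {e : α} (h : e ∉ S) :
    linExt S C e = 0 := by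
  simp [linExt, h]

theorem linExt_injective {α : Type} [DecidableEq α] (S : Finset α) : Function.Injective (linExt S) := by
  intro f g hfg
  funext ⟨e, he⟩
  have := congrFun hfg e
  rwa [linExt_mem f he, linExt_mem g he] at this

theorem linExt_restrict {α : Type} [DecidableEq α] {S : Finset α} {f : α → ZMod 2}
    (hf : ∀ x, x ∉ S → f x = 0) : linExt S (fun x => f x) = f := by
  funext e
  by_cases h : e ∈ S
  · rw [linExt_mem _ h]
  · rw [linExt_notMem _ h, hf e h]

theorem lin_finite_of_supp {α : Type} [DecidableEq α] (S : Finset α)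
    (p : Submodule (ZMod 2) (α → ZMod 2)) (hp : ∀ f ∈ p, ∀ x, x ∉ S → f x = 0) :
    Module.Finite (ZMod 2) p := by
  have hle : p ≤ LinearMap.range (linExt S) := by
    intro f hf
    exact ⟨fun x => f x, linExt_restrict (hp f hf)⟩
  exact Submodule.finiteDimensional_of_le hle

theorem finite_cst (S Z : Finset Site) (M : Finset Ed) : Module.Finite (ZMod 2) (cst S Z M) :=
  lin_finite_of_supp S _ fun _ hf => hf.1

theorem finite_cyc (M : Finset Ed) : Module.Finite (ZMod 2) (cyc M) :=
  lin_finite_of_supp M _ fun _ hf => hf.1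

theorem lin_adj_symm {η : Finset Ed} {x y : Site} (h : Adj η x y) : Adj η y x := by
  obtain ⟨e, he, h1 | h1⟩ := h
  · exact ⟨e, he, Or.inr h1⟩
  · exact ⟨e, he, Or.inl h1⟩

theorem lin_conn_symm {η : Finset Ed} {x y : Site} (h : Conn η x y) : Conn η y x := by
  unfold Conn at h ⊢
  induction h with
  | refl => exact Relation.ReflTransGen.refl
  | tail _ hbc ih => exact Relation.ReflTransGen.head (lin_adj_symm hbc) ih

theorem lin_mem_edIn {A : Finset Site} {e : Ed} : e ∈ edIn A ↔ src e ∈ A ∧ tgt e ∈ A := by
  simp [edIn, src]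

theorem lin_conn_mem {S : Finset Site} {M : Finset Ed} (hM : M ⊆ edIn S) {x y : Site} (hx : x ∈ S)
    (h : Conn M x y) : y ∈ S := by
  unfold Conn at h
  induction h with
  | refl => exact hx
  | tail _ hbc _ =>
    obtain ⟨e, he, h1 | h1⟩ := hbc
    · rw [← h1.2]; exact (lin_mem_edIn.1 (hM he)).2
    · rw [← h1.1]; exact (lin_mem_edIn.1 (hM he)).1

theorem lin_conn_edge {M : Finset Ed} {e : Ed} (he : e ∈ M) : Conn M (src e) (tgt e) :=
  Relation.ReflTransGen.single ⟨e, he, Or.inl ⟨rfl, rfl⟩⟩

theorem lin_cst_conn {S Z : Finset Site} {M : Finset Ed} {g : Site → ZMod 2} (hg : g ∈ cst S Z M)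
    {x y : Site} (h : Conn M x y) : g x = g y := by
  unfold Conn at h
  induction h with
  | refl => rfl
  | tail _ hbc ih =>
    obtain ⟨e, he, h1 | h1⟩ := hbc
    · rw [ih, ← h1.1, ← h1.2]; exact hg.2.1 e he
    · rw [ih, ← h1.1, ← h1.2]; exact (hg.2.1 e he).symm

open Classical in
/-- the cluster of a site -/
noncomputable def lin_cl (S : Finset Site) (M : Finset Ed) (x : Site) : Finset Site :=
  S.filter fun y => Conn M x y

open Classical in
theorem lin_mem_cl {S : Finset Site} {M : Finset Ed} {x y : Site} :
    y ∈ lin_cl S M x ↔ y ∈ S ∧ Conn M x y := by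
  simp [lin_cl]

open Classical in
theorem lin_mem_clus_iff {S : Finset Site} {M : Finset Ed} {C : Finset Site} :
    C ∈ clus S M ↔ ∃ x ∈ S, lin_cl S M x = C := by
  unfold clus lin_cl
  rw [Finset.mem_image]

theorem lin_cl_self {S : Finset Site} {M : Finset Ed} {x : Site} (hx : x ∈ S) : x ∈ lin_cl S M x :=
  lin_mem_cl.2 ⟨hx, Relation.ReflTransGen.refl⟩

theorem lin_cl_eq_of_conn {S : Finset Site} {M : Finset Ed} {x y : Site} (h : Conn M x y) :
    lin_cl S M x = lin_cl S M y := by
  ext z
  rw [lin_mem_cl, lin_mem_cl]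
  exact ⟨fun hz => ⟨hz.1, (lin_conn_symm h).trans hz.2⟩, fun hz => ⟨hz.1, h.trans hz.2⟩⟩

/-- A function supported in `S` and constant along `M` is a function on the clusters. -/
theorem finrank_cst {S Z : Finset Site} {M : Finset Ed} (hM : M ⊆ edIn S) (hZ : Z ⊆ S) :
    Module.finrank (ZMod 2) (cst S Z M) = ((clus S M).filter fun C => Disjoint C Z).card := by
  classical
  set D := (clus S M).filter fun C => Disjoint C Z with hD
  have hrep : ∀ C : D, ∃ x ∈ S, lin_cl S M x = (C : Finset Site) := by
    intro C
    have := (Finset.mem_filter.1 C.2).1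
    exact lin_mem_clus_iff.1 this
  choose rep hrepS hrepC using hrep
  let ρ : cst S Z M →ₗ[ZMod 2] (D → ZMod 2) :=
    { toFun := fun g C => (g : Site → ZMod 2) (rep C)
      map_add' := by intro f g; rfl
      map_smul' := by intro c g; rfl }
  have hinj : Function.Injective ρ := by
    rw [← LinearMap.ker_eq_bot, LinearMap.ker_eq_bot']
    intro g hg
    apply Subtype.ext
    funext x
    change (g : Site → ZMod 2) x = 0
    by_cases hx : x ∈ S
    · by_cases hxD : lin_cl S M x ∈ D
      · have h1 : (g : Site → ZMod 2) (rep ⟨lin_cl S M x, hxD⟩) = 0 := congrFun hg ⟨lin_cl S M x, hxD⟩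
        have h2 : x ∈ lin_cl S M (rep ⟨lin_cl S M x, hxD⟩) := by
          rw [hrepC]; exact lin_cl_self hx
        rw [← lin_cst_conn g.2 (lin_mem_cl.1 h2).2]
        exact h1
      · have h1 : ¬ Disjoint (lin_cl S M x) Z := by
          intro hdis
          exact hxD (Finset.mem_filter.2 ⟨lin_mem_clus_iff.2 ⟨x, hx, rfl⟩, hdis⟩)
        rw [Finset.not_disjoint_iff] at h1
        obtain ⟨z, hz1, hz2⟩ := h1
        rw [lin_cst_conn g.2 (lin_mem_cl.1 hz1).2]
        exact g.2.2.2 z hz2
    · exact g.2.1 x hx
  have hsurj : Function.Surjective ρ := by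
    intro h
    let g : Site → ZMod 2 := fun x => if hx : x ∈ S ∧ lin_cl S M x ∈ D then h ⟨lin_cl S M x, hx.2⟩ else 0
    have hgval : ∀ x (hx : x ∈ S) (hxD : lin_cl S M x ∈ D), g x = h ⟨lin_cl S M x, hxD⟩ := by
      intro x hx hxD
      simp only [g]
      rw [dif_pos ⟨hx, hxD⟩]
    have hg : g ∈ cst S Z M := by
      refine ⟨?_, ?_, ?_⟩
      · intro x hx
        simp only [g]
        rw [dif_neg (fun hh => hx hh.1)]
      · intro e he
        have h1 := lin_mem_edIn.1 (hM he)
        have h2 : lin_cl S M (src e) = lin_cl S M (tgt e) := lin_cl_eq_of_conn (lin_conn_edge he)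
        by_cases hD' : lin_cl S M (src e) ∈ D
        · have hD'' : lin_cl S M (tgt e) ∈ D := h2 ▸ hD'
          rw [hgval _ h1.1 hD', hgval _ h1.2 hD'']
          congr 1
          exact Subtype.ext h2
        · have hD'' : lin_cl S M (tgt e) ∉ D := h2 ▸ hD'
          simp only [g]
          rw [dif_neg (fun hh => hD' hh.2), dif_neg (fun hh => hD'' hh.2)]
      · intro z hz
        simp only [g]
        rw [dif_neg]
        rintro ⟨hzS, hzD⟩
        exact Finset.disjoint_left.1 (Finset.mem_filter.1 hzD).2 (lin_cl_self hzS) hz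
    refine ⟨⟨g, hg⟩, ?_⟩
    funext C
    change g (rep C) = h C
    have h1 : lin_cl S M (rep C) ∈ D := by rw [hrepC]; exact C.2
    rw [hgval _ (hrepS C) h1]
    congr 1
    exact Subtype.ext (hrepC C)
  rw [(LinearEquiv.ofBijective ρ ⟨hinj, hsurj⟩).finrank_eq, Module.finrank_fintype_fun_eq_card,
    Fintype.card_coe]

/-- `dim (cycle space) = |M| - |S| + #clusters`: the incidence matrix (rows `S`, columns `M`) and
its transpose have the same rank; the kernel of the transpose is `cst S ∅ M`. -/
theorem finrank_cyc {S : Finset Site} {M : Finset Ed} (hM : M ⊆ edIn S) :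
    Module.finrank (ZMod 2) (cyc M) + S.card = M.card + (clus S M).card := by
  classical
  let A : Matrix S M (ZMod 2) := fun x e =>
    (if src (e : Ed) = x then 1 else 0) + (if tgt (e : Ed) = x then 1 else 0)
  -- kernel of the transpose
  have hAT : ∀ (g : S → ZMod 2) (e : M), A.transpose.mulVec g e =
      linExt S g (src (e : Ed)) + linExt S g (tgt (e : Ed)) := by
    intro g e
    have hs := (lin_mem_edIn.1 (hM e.2)).1
    have ht := (lin_mem_edIn.1 (hM e.2)).2
    rw [linExt_mem g hs, linExt_mem g ht]
    simp only [Matrix.mulVec, dotProduct, Matrix.transpose_apply, A, add_mul, Finset.sum_add_distrib,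
      ite_mul, one_mul, zero_mul]
    congr 1
    · rw [Finset.sum_eq_single (⟨src (e : Ed), hs⟩ : S)]
      · simp
      · intro b _ hb
        rw [if_neg]
        intro h
        exact hb (Subtype.ext h.symm)
      · intro h; exact absurd (Finset.mem_univ _) h
    · rw [Finset.sum_eq_single (⟨tgt (e : Ed), ht⟩ : S)]
      · simp
      · intro b _ hb
        rw [if_neg]
        intro h
        exact hb (Subtype.ext h.symm)
      · intro h; exact absurd (Finset.mem_univ _) h
  have hA : ∀ (C : M → ZMod 2) (x : S), A.mulVec C x =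
      linExt M C ((x : Site), false) + linExt M C ((x : Site) - (1, 0), false)
        + linExt M C ((x : Site), true) + linExt M C ((x : Site) - (0, 1), true) := by
    intro C x
    have hone : ∀ e₀ : Ed, linExt M C e₀ = ∑ e : M, if (e : Ed) = e₀ then C e else 0 := by
      intro e₀
      by_cases h : e₀ ∈ M
      · rw [linExt_mem C h, Finset.sum_eq_single (⟨e₀, h⟩ : M)]
        · simp
        · intro b _ hb
          rw [if_neg]
          intro hh
          exact hb (Subtype.ext hh)
        · intro hh; exact absurd (Finset.mem_univ _) hh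
      · rw [linExt_notMem C h]
        symm
        apply Finset.sum_eq_zero
        intro e _
        rw [if_neg]
        intro hh
        exact h (hh ▸ e.2)
    rw [hone, hone, hone, hone, ← Finset.sum_add_distrib, ← Finset.sum_add_distrib,
      ← Finset.sum_add_distrib]
    simp only [Matrix.mulVec, dotProduct, A]
    apply Finset.sum_congr rfl
    rintro ⟨⟨⟨i, j⟩, c⟩, he⟩ -
    obtain ⟨⟨x1, x2⟩, hx⟩ := x
    cases c
    · simp only [src, tgt, dir, cond_false, cond_true, Prod.mk.injEq, Prod.mk_add_mk, Prod.mk_sub_mk, and_true,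
        Bool.false_eq_true, and_false, if_false, add_zero, eq_sub_iff_add_eq, sub_zero]
      by_cases h1 : i = x1 <;> by_cases h2 : j = x2 <;> by_cases h3 : i + 1 = x1 <;> simp [h1, h2, h3]
    · simp only [src, tgt, dir, cond_false, cond_true, Prod.mk.injEq, Prod.mk_add_mk, Prod.mk_sub_mk, and_true,
        Bool.true_eq_false, and_false, if_false, add_zero, zero_add, eq_sub_iff_add_eq, sub_zero]
      by_cases h1 : i = x1 <;> by_cases h2 : j = x2 <;> by_cases h3 : j + 1 = x2 <;> simp [h1, h2, h3]
  have hker1 : cyc M = (LinearMap.ker A.mulVecLin).map (linExt M) := by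
    ext f
    constructor
    · intro hf
      refine ⟨fun e => f e, ?_, linExt_restrict hf.1⟩
      change A.mulVecLin (fun e : M => f e) = 0
      funext x
      rw [Matrix.mulVecLin_apply, hA, linExt_restrict hf.1]
      exact hf.2 x
    · rintro ⟨C, hC, rfl⟩
      have hC' : A.mulVec C = 0 := hC
      refine ⟨fun e he => linExt_notMem C he, fun x => ?_⟩
      by_cases hx : x ∈ S
      · have := congrFun hC' ⟨x, hx⟩
        rw [hA] at this
        exact this
      · rw [linExt_notMem, linExt_notMem, linExt_notMem, linExt_notMem]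
        · simp
        · intro he
          have := (lin_mem_edIn.1 (hM he)).2
          simp only [tgt, dir, cond_true, sub_add_cancel] at this
          exact hx this
        · intro he
          exact hx (lin_mem_edIn.1 (hM he)).1
        · intro he
          have := (lin_mem_edIn.1 (hM he)).2
          simp only [tgt, dir, cond_false, sub_add_cancel] at this
          exact hx this
        · intro he
          exact hx (lin_mem_edIn.1 (hM he)).1
  have hker2 : cst S ∅ M = (LinearMap.ker A.transpose.mulVecLin).map (linExt S) := by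
    ext f
    constructor
    · intro hf
      refine ⟨fun e => f e, ?_, linExt_restrict hf.1⟩
      change A.transpose.mulVecLin (fun e : S => f e) = 0
      funext e
      rw [Matrix.mulVecLin_apply, hAT, linExt_restrict hf.1, hf.2.1 e e.2]
      exact CharTwo.add_self_eq_zero _
    · rintro ⟨C, hC, rfl⟩
      have hC' : A.transpose.mulVec C = 0 := hC
      refine ⟨fun e he => linExt_notMem C he, fun e he => ?_, by simp⟩
      have := congrFun hC' ⟨e, he⟩
      rw [hAT] at this
      exact CharTwo.add_eq_zero.1 this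
  have hf1 : Module.finrank (ZMod 2) (cyc M) = Module.finrank (ZMod 2) (LinearMap.ker A.mulVecLin) := by
    rw [hker1]
    exact ((Submodule.equivMapOfInjective (linExt M) (linExt_injective M) _).finrank_eq).symm
  have hf2 : Module.finrank (ZMod 2) (cst S ∅ M)
      = Module.finrank (ZMod 2) (LinearMap.ker A.transpose.mulVecLin) := by
    rw [hker2]
    exact ((Submodule.equivMapOfInjective (linExt S) (linExt_injective S) _).finrank_eq).symm
  have hr1 := LinearMap.finrank_range_add_finrank_ker A.mulVecLin
  have hr2 := LinearMap.finrank_range_add_finrank_ker A.transpose.mulVecLin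
  rw [Module.finrank_fintype_fun_eq_card, Fintype.card_coe] at hr1 hr2
  have hrk : Module.finrank (ZMod 2) (LinearMap.range A.transpose.mulVecLin)
      = Module.finrank (ZMod 2) (LinearMap.range A.mulVecLin) := Matrix.rank_transpose A
  have hc := finrank_cst (Z := ∅) hM (Finset.empty_subset _)
  have hfil : ((clus S M).filter fun C => Disjoint C (∅ : Finset Site)) = clus S M :=
    Finset.filter_true_of_mem (fun C _ => Finset.disjoint_empty_right C)
  rw [hfil] at hc
  omega

end P0de
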