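import Pool.Agent.Lib.P0de4a2.H1
import Pool.Agent.Lib.P0de4a2.Lin

set_option autoImplicit false

open Finset

namespace P0de

namespace EulerM

theorem z2 (x : ZMod 2) : x + x = 0 := CharTwo.add_self_eq_zero x

theorem edIn_box {a b : ℤ} : edIn (box a b) = inner a b := rfl

theorem mem_box {a b : ℤ} {x : Site} : x ∈ box a b ↔ (a ≤ x.1 ∧ x.1 < b) ∧ a ≤ x.2 ∧ x.2 < b := by
  simp [box]

theorem mem_inner {a b : ℤ} {e : Ed} : e ∈ inner a b ↔ src e ∈ box a b ∧ tgt e ∈ box a b := by
  simp [inner, src]

theorem cr_false (x : Site) : cr (x, false) = (x + (1, 0), true) := rfl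

theorem cr_true (x : Site) : cr (x, true) = (x + (0, 1), false) := rfl

/-- the passive edge crossing the active edge `e` -/
def crI (e : Ed) : Ed := (e.1 - dir (!e.2), !e.2)

theorem cr_crI (e : Ed) : cr (crI e) = e := by
  obtain ⟨x, c⟩ := e
  cases c <;> simp [cr, crI, dir]

theorem crI_false (x : Site) : crI (x, false) = (x - (0, 1), true) := rfl

theorem crI_true (x : Site) : crI (x, true) = (x - (1, 0), false) := rfl

/-- the gradient of a potential, on the crossing edges -/
def grad : (Site → ZMod 2) →ₗ[ZMod 2] (Ed → ZMod 2) where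
  toFun g e := g (src (crI e)) + g (tgt (crI e))
  map_add' f g := by
    funext e
    simp only [Pi.add_apply]
    ring
  map_smul' c g := by
    funext e
    simp only [Pi.smul_apply, smul_eq_mul, RingHom.id_apply]
    ring

theorem grad_false (g : Site → ZMod 2) (x : Site) :
    grad g (x, false) = g (x - (0, 1)) + g x := by
  simp [grad, crI, src, tgt, dir]

theorem grad_true (g : Site → ZMod 2) (x : Site) :
    grad g (x, true) = g (x - (1, 0)) + g x := by
  simp [grad, crI, src, tgt, dir]

theorem grad_cr (g : Site → ZMod 2) (e : Ed) : grad g (cr e) = g (src e) + g (tgt e) := by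
  obtain ⟨x, c⟩ := e
  cases c
  · rw [cr_false, grad_true]
    simp [src, tgt, dir]
  · rw [cr_true, grad_false]
    simp [src, tgt, dir]

theorem cr_inner {a b : ℤ} {e : Ed} (he : cr e ∈ inner a b) :
    src e ∈ box a (b - 1) ∨ tgt e ∈ box a (b - 1) := by
  obtain ⟨⟨x, y⟩, c⟩ := e
  rw [mem_inner] at he
  cases c
  · simp only [cr, src, tgt, dir, mem_box, cond_true, cond_false, Bool.not_false,
      Prod.mk_add_mk] at he ⊢
    omega
  · simp only [cr, src, tgt, dir, mem_box, cond_true, cond_false, Bool.not_true,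
      Prod.mk_add_mk] at he ⊢
    omega

theorem dualIn_sub {A : Finset Site} {ω : Finset Ed} : dualIn A ω ⊆ edIn A := filter_subset _ _

open Classical in
/-- the sites of the passive square which can be connected to the outside -/
noncomputable def bdZ (a b : ℤ) (ω : Finset Ed) : Finset Site :=
  (box a (b - 1)).filter fun z => ∃ e ∈ stubs a (b - 1), cr e ∉ ω ∧ (src e = z ∨ tgt e = z)

theorem bdZ_sub {a b : ℤ} {ω : Finset Ed} : bdZ a b ω ⊆ box a (b - 1) := by
  intro z hz
  simp only [bdZ, mem_filter] at hz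
  exact hz.1

theorem mem_stubs {a b : ℤ} {e : Ed} : e ∈ stubs a b ↔
    (src e ∈ box a b ∧ tgt e ∉ box a b) ∨ (src e ∉ box a b ∧ tgt e ∈ box a b) := by
  obtain ⟨⟨x, y⟩, c⟩ := e
  simp only [stubs, mem_filter, mem_product, mem_univ, and_true, and_iff_right_iff_imp]
  cases c
  · simp only [src, tgt, dir, mem_box, cond_true, cond_false, Prod.mk_add_mk]
    omega
  · simp only [src, tgt, dir, mem_box, cond_true, cond_false, Prod.mk_add_mk]
    omega

theorem grad_mem {a b : ℤ} {ω : Finset Ed} {g : Site → ZMod 2}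
    (hg : g ∈ cst (box a (b - 1)) (bdZ a b ω) (dualIn (box a (b - 1)) ω)) : grad g ∈ cyc ω := by
  obtain ⟨h1, h2, h3⟩ := hg
  constructor
  · intro e he
    rw [← cr_crI e] at he ⊢
    set p := crI e with hp
    rw [grad_cr]
    by_cases hs : src p ∈ box a (b - 1) <;> by_cases ht : tgt p ∈ box a (b - 1)
    · have : p ∈ dualIn (box a (b - 1)) ω := by
        simp only [dualIn, mem_filter, edIn_box, mem_inner]
        exact ⟨⟨hs, ht⟩, he⟩
      rw [h2 p this]
      exact z2 _
    · have hz : src p ∈ bdZ a b ω := by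
        simp only [bdZ, mem_filter]
        exact ⟨hs, p, mem_stubs.2 (Or.inl ⟨hs, ht⟩), he, Or.inl rfl⟩
      rw [h3 _ hz, h1 _ ht, add_zero]
    · have hz : tgt p ∈ bdZ a b ω := by
        simp only [bdZ, mem_filter]
        exact ⟨ht, p, mem_stubs.2 (Or.inr ⟨hs, ht⟩), he, Or.inr rfl⟩
      rw [h3 _ hz, h1 _ hs, add_zero]
    · rw [h1 _ hs, h1 _ ht, add_zero]
  · intro x
    rw [grad_false, grad_false, grad_true, grad_true]
    have e1 : x - (1, 0) - (0, 1) = x - (0, 1) - (1, 0) := by abel
    rw [e1]
    have := z2 (g x)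
    have h4 := z2 (g (x - (1, 0)))
    have h5 := z2 (g (x - (0, 1)))
    have h6 := z2 (g (x - (0, 1) - (1, 0)))
    linear_combination this + h4 + h5 + h6

theorem grad_surj {a b : ℤ} {ω : Finset Ed} (hω : ω ⊆ inner a b) {C : Ed → ZMod 2}
    (hC : C ∈ cyc ω) :
    ∃ g ∈ cst (box a (b - 1)) (bdZ a b ω) (dualIn (box a (b - 1)) ω), grad g = C := by
  obtain ⟨h1, h2⟩ := hC
  obtain ⟨g, hg⟩ := exists_pot (fun e => C (cr e)) (by
    intro x
    simp only [cr_false, cr_true]
    have := h2 (x + (1, 1))
    have e1 : x + (1, 1) - (1, 0) = x + (0, 1) := by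
      ext <;> simp
    have e2 : x + (1, 1) - (0, 1) = x + (1, 0) := by
      ext <;> simp
    have e3 : x + (1, 0) + (0, 1) = x + (1, 1) := by
      ext <;> simp
    have e4 : x + (0, 1) + (1, 0) = x + (1, 1) := by
      ext <;> simp
    rw [e1, e2] at this
    rw [e3, e4]
    linear_combination this)
  have hout : ∀ e : Ed, src e ∉ box a (b - 1) → tgt e ∉ box a (b - 1) →
      g (src e) = g (tgt e) := by
    intro e hs ht
    have h3 : cr e ∉ ω := fun h => (cr_inner (hω h)).elim hs ht
    have h4 := hg e
    simp only [h1 _ h3] at h4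
    have := z2 (g (tgt e))
    linear_combination (-1 : ZMod 2) * h4 - this
  have hc := const_outside g hout
  have ho : (a - 1, a - 1) ∉ box a (b - 1) := by
    rw [mem_box]
    simp
  set c := g (a - 1, a - 1) with hcdef
  have hz0 : ∀ x, x ∉ box a (b - 1) → g x + c = 0 := by
    intro x hx
    rw [hc x _ hx ho]
    exact z2 _
  have hgr : grad (fun x => g x + c) = C := by
    funext e
    rw [← cr_crI e, grad_cr]
    have := z2 c
    have h4 : C (cr (crI e)) = g (src (crI e)) + g (tgt (crI e)) := hg (crI e)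
    linear_combination this - h4
  refine ⟨fun x => g x + c, ⟨hz0, ?_, ?_⟩, hgr⟩
  · intro e he
    simp only [dualIn, mem_filter] at he
    have h3 := congrFun hgr (cr e)
    rw [grad_cr, h1 _ he.2] at h3
    have := z2 (g (tgt e) + c)
    linear_combination h3 - this
  · intro z hz
    simp only [bdZ, mem_filter] at hz
    obtain ⟨hzb, e, hes, hcr, hez⟩ := hz
    have h3 := congrFun hgr (cr e)
    rw [grad_cr, h1 _ hcr] at h3
    rw [mem_stubs] at hes
    rcases hes with ⟨hs, ht⟩ | ⟨hs, ht⟩
    · rcases hez with rfl | rfl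
      · have := hz0 _ ht
        simp only at h3 ⊢
        rw [this, add_zero] at h3
        exact h3
      · exact absurd hzb ht
    · rcases hez with rfl | rfl
      · exact absurd hzb hs
      · have := hz0 _ hs
        simp only at h3 ⊢
        rw [this, zero_add] at h3
        exact h3

theorem grad_inj {a b : ℤ} {ω : Finset Ed} {g : Site → ZMod 2}
    (hg : g ∈ cst (box a (b - 1)) (bdZ a b ω) (dualIn (box a (b - 1)) ω)) (h : grad g = 0) :
    g = 0 := by
  have hc := const_all g (fun e => by
    have h3 := congrFun h (cr e)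
    rw [grad_cr] at h3
    simp only [Pi.zero_apply] at h3
    have := z2 (g (tgt e))
    linear_combination h3 - this)
  have ho : (a - 1, a - 1) ∉ box a (b - 1) := by
    rw [mem_box]
    simp
  funext x
  rw [hc x (a - 1, a - 1), hg.1 _ ho]
  rfl

theorem finrank_cyc_eq {a b : ℤ} {ω : Finset Ed} (hω : ω ⊆ inner a b) :
    Module.finrank (ZMod 2) (cyc ω) =
      Module.finrank (ZMod 2) (cst (box a (b - 1)) (bdZ a b ω) (dualIn (box a (b - 1)) ω)) := by
  symm
  apply LinearEquiv.finrank_eq
  apply LinearEquiv.ofBijective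
    ((grad.domRestrict (cst (box a (b - 1)) (bdZ a b ω) (dualIn (box a (b - 1)) ω))).codRestrict
      (cyc ω) (fun g => grad_mem g.2))
  constructor
  · rw [injective_iff_map_eq_zero]
    rintro ⟨g, hg⟩ h
    have h' : grad g = 0 := by
      exact congrArg Subtype.val h
    exact Subtype.ext (grad_inj hg h')
  · rintro ⟨C, hC⟩
    obtain ⟨g, hg, h⟩ := grad_surj hω hC
    exact ⟨⟨g, hg⟩, Subtype.ext h⟩

theorem clus_sub {V : Finset Site} {η : Finset Ed} {C : Finset Site} (h : C ∈ clus V η) :
    C ⊆ V := by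
  classical
  simp only [clus, mem_image] at h
  obtain ⟨x, _, rfl⟩ := h
  exact filter_subset _ _

end EulerM

open EulerM

open Classical in
/-- Euler's formula for a configuration on a square: the number of independent cycles is the number
of passive clusters not connected to the outside. The cycle space of `ω` is isomorphic (potential
of `e ↦ C (cr e)`, normalised to vanish outside `box a (b-1)`, see `const_outside`) to
`cst (box a (b-1)) Z (dualIn (box a (b-1)) ω)`, `Z` the sites of `box a (b-1)` which are endpoints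
of a stub `e` of `box a (b-1)` with `cr e ∉ ω`. -/
theorem euler {a b : ℤ} {ω : Finset Ed} (hω : ω ⊆ inner a b) :
    ω.card + (clus (box a b) ω).card = (box a b).card +
      ((clus (box a (b - 1)) (dualIn (box a (b - 1)) ω)).filter fun C =>
        ¬ ∃ e ∈ stubs a (b - 1), cr e ∉ ω ∧ (src e ∈ C ∨ tgt e ∈ C)).card := by
  rw [← finrank_cyc (S := box a b) (M := ω) (by rw [edIn_box]; exact hω), finrank_cyc_eq hω,
    finrank_cst dualIn_sub bdZ_sub, add_comm]
  congr 2
  ext C
  simp only [mem_filter]
  refine and_congr_right fun hC => ?_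
  have hCs := clus_sub hC
  rw [disjoint_left]
  constructor
  · rintro h ⟨e, he, hcr, hsC⟩
    rcases hsC with hs | hs
    · refine h hs ?_
      simp only [bdZ, mem_filter]
      exact ⟨hCs hs, e, he, hcr, Or.inl rfl⟩
    · refine h hs ?_
      simp only [bdZ, mem_filter]
      exact ⟨hCs hs, e, he, hcr, Or.inr rfl⟩
  · intro h z hz hzb
    simp only [bdZ, mem_filter] at hzb
    obtain ⟨_, e, he, hcr, hez⟩ := hzb
    refine h ⟨e, he, hcr, ?_⟩
    rcases hez with rfl | rfl
    · exact Or.inl hz
    · exact Or.inr hz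

end P0de
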