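import Pool.Agent.Lib.P0de4a2.RC
import Pool.Agent.Lib.P0de4a2.Euler
import Pool.Agent.Lib.P0de4a2.ClusLem

set_option autoImplicit false

open Finset

namespace P0de

namespace DualAux

theorem mem_box {a b : ℤ} {x : Site} : x ∈ box a b ↔ (a ≤ x.1 ∧ x.1 < b) ∧ a ≤ x.2 ∧ x.2 < b := by
  simp [box]

theorem mem_inner {a b : ℤ} {e : Ed} : e ∈ inner a b ↔ src e ∈ box a b ∧ tgt e ∈ box a b := by
  simp [inner, src]

theorem mem_stubs {a b : ℤ} {e : Ed} : e ∈ stubs a b ↔
    (src e ∈ box a b ∧ tgt e ∉ box a b) ∨ (src e ∉ box a b ∧ tgt e ∈ box a b) := by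
  obtain ⟨⟨x, y⟩, c⟩ := e
  cases c <;> simp [stubs, src, tgt, dir, mem_box] <;> omega

/-- the crossed edges of the dual edges are the edges of the closed square -/
theorem cr_mem_inner {a b : ℤ} {e : Ed} : cr e ∈ inner a (b + 1) ↔ e ∈ inner a b ∪ stubs a b := by
  rw [mem_union, mem_inner, mem_inner, mem_stubs]
  obtain ⟨⟨x, y⟩, c⟩ := e
  cases c <;> simp [src, tgt, dir, cr, mem_box] <;> omega

theorem cr_injective : Function.Injective cr := by
  rintro ⟨⟨x, y⟩, c⟩ ⟨⟨x', y'⟩, c'⟩ h
  cases c <;> cases c' <;> simp [cr, dir] at h ⊢ <;> omega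

theorem cr_surjective : Function.Surjective cr := by
  rintro ⟨⟨x, y⟩, c⟩
  cases c
  · exact ⟨((x, y - 1), true), by simp [cr, dir]⟩
  · exact ⟨((x - 1, y), false), by simp [cr, dir]⟩

/-- translation of edges by `(1, 1)` -/
theorem cr_cr (e : Ed) : cr (cr e) = (e.1 + (1, 1), e.2) := by
  obtain ⟨⟨x, y⟩, c⟩ := e
  cases c <;> simp [cr, dir]

theorem inner_disj_stubs (a b : ℤ) : Disjoint (inner a b) (stubs a b) := by
  rw [Finset.disjoint_left]
  intro e h1 h2
  rw [mem_inner] at h1
  rw [mem_stubs] at h2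
  tauto

theorem mem_dual' {a b : ℤ} {η : Finset Ed} {e : Ed} :
    e ∈ dual a b η ↔ cr e ∈ inner a (b + 1) ∧ cr e ∉ η := by
  rw [dual, mem_filter, cr_mem_inner]

theorem card_dual {a b : ℤ} {η : Finset Ed} (hη : η ⊆ inner a (b + 1)) :
    η.card + (dual a b η).card = (inner a (b + 1)).card := by
  have h1 : (dual a b η).image cr = inner a (b + 1) \ η := by
    ext e
    rw [mem_image, mem_sdiff]
    constructor
    · rintro ⟨e', he', rfl⟩
      exact mem_dual'.1 he'
    · rintro ⟨h1, h2⟩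
      obtain ⟨e', rfl⟩ := cr_surjective e
      exact ⟨e', mem_dual'.2 ⟨h1, h2⟩, rfl⟩
  have h2 := card_image_of_injective (dual a b η) cr_injective
  rw [← h2, h1, card_sdiff_of_subset hη]
  have := card_le_card hη
  omega

theorem card_inner {a b : ℤ} {n : ℕ} (h : b = a + n) : (inner a (b + 1)).card = 2 * (n * (n + 1)) := by
  have h1 : inner a (b + 1) = ((Ico a b ×ˢ Ico a (b + 1)) ×ˢ {false}) ∪
      ((Ico a (b + 1) ×ˢ Ico a b) ×ˢ {true}) := by
    ext ⟨⟨x, y⟩, c⟩
    rw [mem_inner]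
    cases c <;> simp [src, tgt, dir, mem_box] <;> omega
  rw [h1, card_union_of_disjoint]
  · simp only [card_product, card_singleton, Int.card_Ico, mul_one]
    have h2 : (b - a).toNat = n := by omega
    have h3 : (b + 1 - a).toNat = n + 1 := by omega
    rw [h2, h3]
    ring
  · rw [disjoint_left]
    rintro ⟨⟨x, y⟩, c⟩ h2 h3
    simp at h2 h3
    have h4 := h2.2
    have h5 := h3.2
    rw [h4] at h5
    exact absurd h5 (by simp)

theorem card_inner_zero (a : ℤ) : (inner a a).card = 0 := by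
  rw [card_eq_zero, eq_empty_iff_forall_notMem]
  intro e he
  rw [mem_inner, mem_box] at he
  omega

theorem card_inner_stubs {a b : ℤ} {n : ℕ} (h : b = a + n) :
    (inner a b).card + (stubs a b).card = 2 * (n * (n + 1)) := by
  have h1 : (inner a b ∪ stubs a b).image cr = inner a (b + 1) := by
    ext e
    obtain ⟨e', rfl⟩ := cr_surjective e
    rw [cr_injective.mem_finset_image, cr_mem_inner]
  rw [← card_union_of_disjoint (inner_disj_stubs a b), ← card_inner h, ← h1,
    card_image_of_injective _ cr_injective]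

theorem card_stubs {a b : ℤ} {n : ℕ} (hn : 0 < n) (h : b = a + n) : (stubs a b).card = 4 * n := by
  have h1 := card_inner_stubs h
  obtain ⟨m, rfl⟩ : ∃ m, n = m + 1 := ⟨n - 1, by omega⟩
  have h2 : (inner a b).card = 2 * (m * (m + 1)) := by
    have := card_inner (a := a) (b := a + m) (n := m) rfl
    have h3 : b = a + m + 1 := by push_cast at h; omega
    rw [h3]
    exact this
  rw [h2] at h1
  have : 2 * ((m + 1) * (m + 1 + 1)) = 2 * (m * (m + 1)) + 4 * (m + 1) := by ring
  omega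

theorem card_box {a b : ℤ} {n : ℕ} (h : b = a + n) : (box a b).card = n * n := by
  have h2 : (b - a).toNat = n := by omega
  rw [box, card_product, Int.card_Ico, h2]

/-- translation of sites by `(1, 1)` -/
def sh (q : Site) : Site := q + (1, 1)

theorem sh_injective : Function.Injective sh := fun _ _ h => add_right_cancel h

theorem src_sh (e : Ed) : src (e.1 + (1, 1), e.2) = sh (src e) := rfl

theorem tgt_sh (e : Ed) : tgt (e.1 + (1, 1), e.2) = sh (tgt e) := by
  simp only [tgt, sh]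
  abel

theorem exists_sh (e : Ed) : ∃ e' : Ed, e = (e'.1 + (1, 1), e'.2) :=
  ⟨(e.1 - (1, 1), e.2), by simp⟩

theorem sh_mem_box {a b : ℤ} {q : Site} : sh q ∈ box (a + 1) b ↔ q ∈ box a (b - 1) := by
  obtain ⟨x, y⟩ := q
  simp [mem_box, sh]
  omega

/-- the edges of the twice dual configuration -/
theorem mem_dd {a b : ℤ} {η : Finset Ed} {e : Ed} (he : e ∈ inner a (b - 1) ∪ stubs a (b - 1)) :
    cr e ∉ dual a b η ∩ inner a b ↔ ((e.1 + (1, 1), e.2) : Ed) ∈ η := by
  have h1 : cr e ∈ inner a b := by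
    have := (cr_mem_inner (a := a) (b := b - 1) (e := e)).2 he
    rwa [sub_add_cancel] at this
  rw [mem_inter, and_iff_left h1, mem_dual', cr_cr]
  have h2 : cr (cr e) ∈ inner a (b + 1) := cr_mem_inner.2 (mem_union_left _ h1)
  rw [cr_cr] at h2
  tauto

theorem mem_edIn {A : Finset Site} {e : Ed} : e ∈ edIn A ↔ src e ∈ A ∧ tgt e ∈ A := by
  simp [edIn, src]

theorem edIn_box (a b : ℤ) : edIn (box a b) = inner a b := rfl

theorem mem_dualIn_dd {a b : ℤ} {η : Finset Ed} {e : Ed} :
    e ∈ dualIn (box a (b - 1)) (dual a b η ∩ inner a b) ↔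
      e ∈ inner a (b - 1) ∧ ((e.1 + (1, 1), e.2) : Ed) ∈ η := by
  rw [dualIn, mem_filter, edIn_box]
  constructor
  · rintro ⟨h1, h2⟩
    exact ⟨h1, (mem_dd (mem_union_left _ h1)).1 h2⟩
  · rintro ⟨h1, h2⟩
    exact ⟨h1, (mem_dd (mem_union_left _ h1)).2 h2⟩

/-- the twice dual configuration -/
noncomputable abbrev dd (a b : ℤ) (η : Finset Ed) : Finset Ed :=
  dualIn (box a (b - 1)) (dual a b η ∩ inner a b)

theorem adj_dd {a b : ℤ} {η : Finset Ed} {q q' : Site} :
    Adj (dd a b η) q q' ↔ q ∈ box a (b - 1) ∧ q' ∈ box a (b - 1) ∧ Adj η (sh q) (sh q') := by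
  constructor
  · rintro ⟨e, he, h⟩
    obtain ⟨h1, h2⟩ := mem_dualIn_dd.1 he
    rw [mem_inner] at h1
    rcases h with ⟨rfl, rfl⟩ | ⟨rfl, rfl⟩
    · exact ⟨h1.1, h1.2, _, h2, Or.inl ⟨src_sh e, tgt_sh e⟩⟩
    · exact ⟨h1.2, h1.1, _, h2, Or.inr ⟨src_sh e, tgt_sh e⟩⟩
  · rintro ⟨hq, hq', e, he, h⟩
    obtain ⟨e, rfl⟩ := exists_sh e
    rw [src_sh, tgt_sh] at h
    rcases h with ⟨h1, h2⟩ | ⟨h1, h2⟩
    · have h3 := sh_injective h1
      have h4 := sh_injective h2
      subst h3
      subst h4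
      exact ⟨e, mem_dualIn_dd.2 ⟨mem_inner.2 ⟨hq, hq'⟩, he⟩, Or.inl ⟨rfl, rfl⟩⟩
    · have h3 := sh_injective h1
      have h4 := sh_injective h2
      subst h3
      subst h4
      exact ⟨e, mem_dualIn_dd.2 ⟨mem_inner.2 ⟨hq', hq⟩, he⟩, Or.inr ⟨rfl, rfl⟩⟩

theorem conn_sh {a b : ℤ} {η : Finset Ed} {q q' : Site} (h : Conn (dd a b η) q q') :
    Conn η (sh q) (sh q') := by
  induction h with
  | refl => exact Relation.ReflTransGen.refl
  | tail _ h1 ih => exact ih.tail (adj_dd.1 h1).2.2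

open Classical in
/-- cluster of `q` in the twice dual configuration -/
noncomputable abbrev cl' (a b : ℤ) (η : Finset Ed) (q : Site) : Finset Site :=
  (box a (b - 1)).filter fun y => Conn (dd a b η) q y

open Classical in
/-- touching the outside -/
def Touch (a b : ℤ) (η : Finset Ed) (C : Finset Site) : Prop :=
  ∃ e ∈ stubs a (b - 1), cr e ∉ dual a b η ∩ inner a b ∧ (src e ∈ C ∨ tgt e ∈ C)

theorem touch_iff {a b : ℤ} {η : Finset Ed} (hη : η ⊆ inner a (b + 1)) {C : Finset Site}
    (hC : C ⊆ box a (b - 1)) :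
    Touch a b η C ↔ ∃ q ∈ C, ∃ y ∈ bdry a b, Adj η (sh q) y := by
  have key : ∀ q y, q ∈ box a (b - 1) → sh y ∉ box (a + 1) b → Adj η (sh q) (sh y) →
      sh y ∈ bdry a b := by
    rintro q y _ hy ⟨e, he, h⟩
    rw [bdry, mem_sdiff]
    refine ⟨?_, hy⟩
    have := mem_inner.1 (hη he)
    rcases h with ⟨h1, h2⟩ | ⟨h1, h2⟩
    · rw [← h2]
      exact this.2
    · rw [← h1]
      exact this.1
  constructor
  · rintro ⟨e, he, h1, h2⟩
    have h3 := (mem_dd (mem_union_right _ he)).1 h1
    rw [mem_stubs] at he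
    rcases h2 with h2 | h2
    · have h4 : tgt e ∉ box a (b - 1) := by
        have := hC h2
        tauto
      have h5 : Adj η (sh (src e)) (sh (tgt e)) := ⟨_, h3, Or.inl ⟨src_sh e, tgt_sh e⟩⟩
      exact ⟨src e, h2, sh (tgt e), key _ _ (hC h2) (by rwa [sh_mem_box]) h5, h5⟩
    · have h4 : src e ∉ box a (b - 1) := by
        have := hC h2
        tauto
      have h5 : Adj η (sh (tgt e)) (sh (src e)) := ⟨_, h3, Or.inr ⟨src_sh e, tgt_sh e⟩⟩
      exact ⟨tgt e, h2, sh (src e), key _ _ (hC h2) (by rwa [sh_mem_box]) h5, h5⟩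
  · rintro ⟨q, hq, y, hy, e, he, h⟩
    obtain ⟨e, rfl⟩ := exists_sh e
    rw [src_sh, tgt_sh] at h
    have hq' := hC hq
    rw [bdry, mem_sdiff] at hy
    rcases h with ⟨h1, h2⟩ | ⟨h1, h2⟩
    · have h3 := sh_injective h1
      subst h3
      have h4 : tgt e ∉ box a (b - 1) := by
        rw [← sh_mem_box, h2]
        exact hy.2
      have h5 : e ∈ stubs a (b - 1) := mem_stubs.2 (Or.inl ⟨hq', h4⟩)
      exact ⟨e, h5, (mem_dd (mem_union_right _ h5)).2 he, Or.inl hq⟩
    · have h3 := sh_injective h2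
      subst h3
      have h4 : src e ∉ box a (b - 1) := by
        rw [← sh_mem_box, h1]
        exact hy.2
      have h5 : e ∈ stubs a (b - 1) := mem_stubs.2 (Or.inr ⟨h4, hq'⟩)
      exact ⟨e, h5, (mem_dd (mem_union_right _ h5)).2 he, Or.inr hq⟩

theorem exists_sh_site (y : Site) : ∃ q, y = sh q := ⟨y - (1, 1), by simp [sh]⟩

/-- forward analysis: an untouched cluster stays a cluster -/
theorem image_cl' {a b : ℤ} {η : Finset Ed} (hη : η ⊆ inner a (b + 1)) {q : Site}
    (hq : q ∈ box a (b - 1)) (ht : ¬ Touch a b η (cl' a b η q)) {y : Site}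
    (hy : Conn η (sh q) y) : ∃ q' ∈ cl' a b η q, y = sh q' := by
  classical
  induction hy with
  | refl => exact ⟨q, mem_filter.2 ⟨hq, Relation.ReflTransGen.refl⟩, rfl⟩
  | @tail y z _ h2 ih =>
    obtain ⟨q', hq', rfl⟩ := ih
    obtain ⟨z, rfl⟩ := exists_sh_site z
    have h3 := mem_filter.1 hq'
    by_cases hz : z ∈ box a (b - 1)
    · exact ⟨z, mem_filter.2 ⟨hz, h3.2.tail (adj_dd.2 ⟨h3.1, hz, h2⟩)⟩, rfl⟩
    · exfalso
      apply ht
      rw [touch_iff hη (filter_subset _ _)]
      refine ⟨q', hq', sh z, ?_, h2⟩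
      rw [bdry, mem_sdiff]
      refine ⟨?_, by rwa [sh_mem_box]⟩
      obtain ⟨e, he, h⟩ := h2
      have := mem_inner.1 (hη he)
      rcases h with ⟨h1, h2⟩ | ⟨h1, h2⟩
      · rw [← h2]
        exact this.2
      · rw [← h1]
        exact this.1

theorem box_sub {a b : ℤ} {q : Site} (hq : q ∈ box a (b - 1)) : sh q ∈ box a (b + 1) := by
  have := sh_mem_box.2 hq
  rw [mem_box] at this ⊢
  omega

theorem kI_eq {a b : ℤ} {η : Finset Ed} (hη : η ⊆ inner a (b + 1)) [DecidablePred (Touch a b η)] :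
    kI a b η = ((clus (box a (b - 1)) (dd a b η)).filter fun C => ¬ Touch a b η C).card := by
  classical
  symm
  rw [kI]
  refine card_bij (fun C _ => C.image sh) ?_ ?_ ?_
  · intro C hC
    rw [mem_filter, clus, mem_image] at hC
    obtain ⟨⟨q, hq, rfl⟩, ht⟩ := hC
    rw [mem_filter, clus, mem_image]
    refine ⟨⟨sh q, box_sub hq, ?_⟩, ?_⟩
    · ext y
      rw [mem_filter, mem_image]
      constructor
      · rintro ⟨_, hy⟩
        obtain ⟨q', h1, h2⟩ := image_cl' hη hq (by convert ht) hy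
        exact ⟨q', by convert h1, h2.symm⟩
      · rintro ⟨q', h1, rfl⟩
        have h2 := mem_filter.1 h1
        exact ⟨box_sub h2.1, conn_sh h2.2⟩
    · rw [disjoint_left]
      intro y hy hy2
      rw [mem_image] at hy
      obtain ⟨q', h1, rfl⟩ := hy
      rw [bdry, mem_sdiff, sh_mem_box] at hy2
      exact hy2.2 (mem_filter.1 h1).1
  · intro C _ C' _ h
    exact image_injective sh_injective h
  · intro C hC
    rw [mem_filter, clus, mem_image] at hC
    obtain ⟨⟨x, hx, rfl⟩, hd⟩ := hC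
    have hint : ∀ y ∈ box a (b + 1), Conn η x y → y ∈ box (a + 1) b := by
      intro y hy hxy
      by_contra hcon
      exact disjoint_left.1 hd (mem_filter.2 ⟨hy, hxy⟩) (mem_sdiff.2 ⟨hy, hcon⟩)
    have hx' := hint x hx Relation.ReflTransGen.refl
    obtain ⟨q, rfl⟩ := exists_sh_site x
    have hq : q ∈ box a (b - 1) := sh_mem_box.1 hx'
    have ht : ¬ Touch a b η (cl' a b η q) := by
      rw [touch_iff hη (filter_subset _ _)]
      rintro ⟨q', hq', y, hy, hadj⟩
      have h1 := mem_filter.1 hq'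
      have h2 : Conn η (sh q) y := (conn_sh h1.2).tail hadj
      rw [bdry, mem_sdiff] at hy
      exact hy.2 (hint y hy.1 h2)
    refine ⟨cl' a b η q, ?_, ?_⟩
    · rw [mem_filter, clus, mem_image]
      exact ⟨⟨q, hq, by congr⟩, ht⟩
    · ext y
      rw [mem_filter, mem_image]
      constructor
      · rintro ⟨q', h1, rfl⟩
        have h2 := mem_filter.1 h1
        exact ⟨box_sub h2.1, conn_sh h2.2⟩
      · rintro ⟨_, hy⟩
        obtain ⟨q', h1, h2⟩ := image_cl' hη hq ht hy
        exact ⟨q', h1, h2.symm⟩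

theorem filter_dual (a b : ℤ) (η : Finset Ed) : dualIn (box a b) η = dual a b η ∩ inner a b := by
  ext e
  rw [dualIn, mem_filter, edIn_box, mem_inter, dual, mem_filter, mem_union]
  tauto

open Classical in
theorem filter_stubby {a b : ℤ} {η : Finset Ed} (C : Finset Site) :
    (∃ e ∈ stubs a b, cr e ∉ η ∧ (src e ∈ C ∨ tgt e ∈ C)) ↔ Stubby a b (dual a b η) C := by
  constructor
  · rintro ⟨e, he, h1, h2⟩
    exact ⟨e, mem_filter.2 ⟨mem_union_right _ he, h1⟩, he, h2⟩
  · rintro ⟨e, he, h1, h2⟩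
    exact ⟨e, h1, (mem_filter.1 he).2, h2⟩

/-- the two Euler formulas -/
theorem euler_one {a b : ℤ} {n : ℕ} (h : b = a + n) {η : Finset Ed} (hη : η ⊆ inner a (b + 1)) :
    η.card + (kI a b η + kB a b η) = (n + 1) * (n + 1) + kInt a b (dual a b η) := by
  classical
  have h1 := euler hη
  have h2 : (clus (box a (b + 1)) η).card = kI a b η + kB a b η := by
    rw [kI, kB, card_filter_add_card_filter_not]
  rw [h2, card_box (n := n + 1) (by push_cast; omega), add_sub_cancel_right, filter_dual] at h1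
  rw [h1, kInt]
  congr 1
  apply congrArg Finset.card
  ext C
  simp only [mem_filter, filter_stubby]

theorem euler_two {a b : ℤ} {n : ℕ} (h : b = a + n) {η : Finset Ed} (hη : η ⊆ inner a (b + 1)) :
    (dual a b η ∩ inner a b).card + (kInt a b (dual a b η) + kStub a b (dual a b η))
      = n * n + kI a b η := by
  classical
  have h1 := euler (a := a) (b := b) (ω := dual a b η ∩ inner a b) inter_subset_right
  have h2 : (clus (box a b) (dual a b η ∩ inner a b)).card
      = kInt a b (dual a b η) + kStub a b (dual a b η) := by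
    rw [kInt, kStub, add_comm, card_filter_add_card_filter_not]
  rw [h2, card_box h] at h1
  rw [h1, kI_eq hη]
  congr 2

theorem card_dual_split {a b : ℤ} (η : Finset Ed) : (dual a b η).card
    = (dual a b η ∩ inner a b).card + (dual a b η ∩ stubs a b).card := by
  classical
  rw [← card_union_of_disjoint]
  · rw [← inter_union_distrib_left]
    congr 1
    symm
    rw [inter_eq_left]
    exact filter_subset _ _
  · exact disjoint_of_subset_left inter_subset_right
      (disjoint_of_subset_right inter_subset_right (inner_disj_stubs a b))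

theorem card_closed {a b : ℤ} (η : Finset Ed) : (stubs a b \ dual a b η).card
    + (dual a b η ∩ stubs a b).card = (stubs a b).card := by
  rw [inter_comm]
  exact card_sdiff_add_card_inter _ _

theorem pc_eq {u : ℝ} (hu : 1 ≤ u) : pc (u ^ 16) = u ^ 8 * (1 - pc (u ^ 16)) ∧
    0 < 1 - pc (u ^ 16) := by
  have h1 : √(u ^ 16) = u ^ 8 := by
    rw [show u ^ 16 = (u ^ 8) ^ 2 by ring]
    exact Real.sqrt_sq (by positivity)
  have h2 : 0 < u ^ 8 := by positivity
  rw [pc, h1]
  constructor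
  · field_simp
    ring
  · have : 1 - u ^ 8 / (u ^ 8 + 1) = 1 / (u ^ 8 + 1) := by
      field_simp
      ring
    rw [this]
    positivity

/-- the weight in exponential form -/
theorem rcW_eq {u qb : ℝ} (hu : 1 ≤ u) {a b : ℤ} {η : Finset Ed} (hη : η ⊆ inner a (b + 1)) :
    rcW (u ^ 16) qb (pc (u ^ 16)) a b η = (1 - pc (u ^ 16)) ^ (inner a (b + 1)).card *
      (u ^ (16 * kI a b η + 8 * η.card) * qb ^ kB a b η) := by
  have h1 := (pc_eq hu).1
  have h2 : (inner a (b + 1)).card = η.card + (inner a (b + 1) \ η).card := by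
    rw [card_sdiff_of_subset hη]
    have := card_le_card hη
    omega
  rw [rcW, h2]
  set r := 1 - pc (u ^ 16) with hr
  have h3 : pc (u ^ 16) ^ η.card = u ^ (8 * η.card) * r ^ η.card := by
    rw [h1, mul_pow, ← pow_mul]
  rw [h3, pow_add r, pow_add u, ← pow_mul]
  ring

end DualAux

open DualAux

theorem mem_dual {a b : ℤ} {η : Finset Ed} {e : Ed} (he : e ∈ inner a b) :
    e ∈ dual a b η ↔ cr e ∉ η := by
  rw [mem_dual']
  have : cr e ∈ inner a (b + 1) := cr_mem_inner.2 (mem_union_left _ he)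
  tauto

/-- `η ↦ dual a b η` is a bijection between the configurations -/
theorem dual_bij {a b : ℤ} (hab : a < b) :
    Set.BijOn (dual a b) ((inner a (b + 1)).powerset : Set (Finset Ed))
      ((inner a b ∪ stubs a b).powerset : Set (Finset Ed)) := by
  refine ⟨?_, ?_, ?_⟩
  · intro η _
    simp only [coe_powerset, Set.mem_preimage, Set.mem_powerset_iff]
    rw [coe_subset]
    exact filter_subset _ _
  · intro η hη η' hη' h
    simp only [coe_powerset, Set.mem_preimage, Set.mem_powerset_iff, coe_subset] at hη hη'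
    ext e
    obtain ⟨e, rfl⟩ := cr_surjective e
    have h1 : e ∈ dual a b η ↔ e ∈ dual a b η' := by rw [h]
    rw [mem_dual', mem_dual'] at h1
    by_cases h2 : cr e ∈ inner a (b + 1)
    · tauto
    · have h3 : cr e ∉ η := fun h => h2 (hη h)
      have h4 : cr e ∉ η' := fun h => h2 (hη' h)
      tauto
  · intro ω hω
    simp only [coe_powerset, Set.mem_preimage, Set.mem_powerset_iff, coe_subset] at hω
    refine ⟨(inner a (b + 1)) \ ω.image cr, ?_, ?_⟩
    · simp only [coe_powerset, Set.mem_preimage, Set.mem_powerset_iff, coe_subset]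
      exact sdiff_subset
    · ext e
      rw [mem_dual', mem_sdiff, cr_injective.mem_finset_image]
      constructor
      · tauto
      · intro h
        have := cr_mem_inner.2 (hω h)
        tauto

/-- Duality of the weights. -/
theorem rcW_dual {u qb : ℝ} (hu : 1 ≤ u) (hqb : 0 < qb) {a b : ℤ} (hab : a < b) :
    ∃ C : ℝ, 0 < C ∧ ∀ η ⊆ inner a (b + 1), rcW (u ^ 16) qb (pc (u ^ 16)) a b η =
      C * gw u (u ^ 16 / qb) a b (stubs a b) (dual a b η) := by
  obtain ⟨n, hn⟩ : ∃ n : ℕ, b = a + n := ⟨(b - a).toNat, by omega⟩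
  have hn0 : 0 < n := by omega
  have hu0 : 0 < u := by linarith
  have hpc := (pc_eq hu).2
  refine ⟨(1 - pc (u ^ 16)) ^ (inner a (b + 1)).card * (qb ^ (1 + 4 * n) / u ^ (48 * n)), by positivity, ?_⟩
  intro η hη
  rw [rcW_eq hu hη, mul_assoc]
  congr 1
  have e1 := euler_one hn hη
  have e2 := euler_two hn hη
  have e3 := card_dual_split (a := a) (b := b) η
  have e4 := card_closed (a := a) (b := b) η
  have e5 := card_dual hη
  have e6 := card_inner (a := a) (b := b) hn
  rw [card_stubs hn0 hn] at e4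
  rw [e6] at e5
  rw [gw]
  set D := (dual a b η).card
  set Di := (dual a b η ∩ inner a b).card
  set Ds := (dual a b η ∩ stubs a b).card
  set Dc := (stubs a b \ dual a b η).card
  set ki := kI a b η
  set kb := kB a b η
  set kt := kInt a b (dual a b η)
  set ks := kStub a b (dual a b η)
  set m := η.card
  have r1 : (n + 1) * (n + 1) = n * n + 2 * n + 1 := by ring
  have r2 : 2 * (n * (n + 1)) = 2 * (n * n) + 2 * n := by ring
  rw [r1] at e1
  rw [r2] at e5
  set nn := n * n
  have f1 : kb + (ks + Dc) = 1 + 4 * n := by omega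
  have f2 : 16 * ki + 8 * m + 48 * n = 8 * D + 16 * kt + 16 * (ks + Dc) := by omega
  rw [div_pow, ← pow_mul, ← f1, pow_add qb]
  have hq1 : qb ^ (ks + Dc) ≠ 0 := by positivity
  have hu1 : u ^ (48 * n) ≠ 0 := by positivity
  have f3 : u ^ (16 * ki + 8 * m) * u ^ (48 * n) = u ^ (8 * D) * u ^ (16 * kt) * u ^ (16 * (ks + Dc)) := by
    rw [← pow_add, ← pow_add, ← pow_add, f2]
  field_simp
  linear_combination f3

/-- Free boundary conditions: `kI + kB` is the number of all clusters. -/
theorem rcW_free {u : ℝ} (hu : 1 ≤ u) {a b : ℤ} (hab : a < b) (w : ℝ) :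
    ∃ C : ℝ, 0 < C ∧ ∀ η ⊆ inner a (b + 1), rcW (u ^ 16) (u ^ 16) (pc (u ^ 16)) a b η =
      C * gw u w a (b + 1) ∅ η := by
  classical
  have hpc := (pc_eq hu).2
  refine ⟨(1 - pc (u ^ 16)) ^ (inner a (b + 1)).card, by positivity, ?_⟩
  intro η hη
  rw [rcW_eq hu hη]
  congr 1
  have h0 : ∀ C : Finset Site, ¬ Stubby a (b + 1) η C := by
    rintro C ⟨e, he, h1, -⟩
    exact disjoint_left.1 (inner_disj_stubs a (b + 1)) (hη he) h1
  have h1 : η ∩ inner a (b + 1) = η := inter_eq_left.2 hη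
  have h2 : kStub a (b + 1) η = 0 := by
    rw [kStub, card_eq_zero, filter_eq_empty_iff]
    exact fun C _ => h0 C
  have h3 : kInt a (b + 1) η = kI a b η + kB a b η := by
    rw [kInt, h1, filter_true_of_mem (fun C _ => h0 C), kI, kB, card_filter_add_card_filter_not]
  rw [gw, h2, h3]
  simp only [empty_sdiff, card_empty, add_zero, pow_zero, mul_one]
  rw [← pow_mul, ← pow_add, ← pow_add]
  congr 1
  ring

end P0de
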