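import Pool.Agent.Lib.P0de4a2.Region
import Pool.Agent.Lib.P0de4a2.Lin

set_option autoImplicit false

open Finset

namespace P0de

variable {a b : ℤ} {K J Q : Finset Site} {ω : Finset Ed}

theorem Ineq_mem_edIn {A : Finset Site} {e : Ed} : e ∈ edIn A ↔ src e ∈ A ∧ tgt e ∈ A := by
  simp [edIn, src]

/-- the passive edge crossing `e` -/
def Ineq_pe (e : Ed) : Ed := (pl e, !e.2)

theorem Ineq_cr_pe (e : Ed) : cr (Ineq_pe e) = e := by
  rcases e with ⟨⟨i, j⟩, c⟩
  cases c <;> simp [cr, Ineq_pe, pl, dir]

theorem Ineq_src_pe (e : Ed) : src (Ineq_pe e) = pl e := rfl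

theorem Ineq_tgt_pe (e : Ed) : tgt (Ineq_pe e) = pu e := by
  rcases e with ⟨⟨i, j⟩, c⟩
  cases c <;> simp [pu, Ineq_pe, pl, dir, tgt]

theorem Ineq_pl_cr (e : Ed) : pl (cr e) = src e := by
  rcases e with ⟨⟨i, j⟩, c⟩
  cases c <;> simp [cr, pl, dir, src]

theorem Ineq_pu_cr (e : Ed) : pu (cr e) = tgt e := by
  rcases e with ⟨⟨i, j⟩, c⟩
  cases c <;> simp [cr, pu, dir, tgt]

theorem Ineq_pu_src (e : Ed) : pu e ∈ nbP (src e) := by
  simp [pu, nbP, src]

theorem Ineq_pl_src (e : Ed) : pl e ∈ nbP (src e) := by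
  rcases e with ⟨x, c⟩
  cases c <;> simp [pl, nbP, src, dir]

theorem Ineq_pu_tgt (e : Ed) : pu e ∈ nbP (tgt e) := by
  rcases e with ⟨x, c⟩
  cases c <;> simp [pu, nbP, tgt, dir]

theorem Ineq_pl_tgt (e : Ed) : pl e ∈ nbP (tgt e) := by
  rcases e with ⟨⟨i, j⟩, c⟩
  cases c <;> simp [pl, nbP, tgt, dir]

/-- differences over the passive corners of active edges -/
def Ineq_D : (Site → ZMod 2) →ₗ[ZMod 2] (Ed → ZMod 2) where
  toFun g e := g (pl e) + g (pu e)
  map_add' g g' := by funext e; simp only [Pi.add_apply]; ring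
  map_smul' c g := by funext e; simp only [Pi.smul_apply, smul_eq_mul, RingHom.id_apply]; ring

/-- differences over the active endpoints of the edges crossed by passive edges -/
def Ineq_D' : (Site → ZMod 2) →ₗ[ZMod 2] (Ed → ZMod 2) where
  toFun g e := g (src (cr e)) + g (tgt (cr e))
  map_add' g g' := by funext e; simp only [Pi.add_apply]; ring
  map_smul' c g := by funext e; simp only [Pi.smul_apply, smul_eq_mul, RingHom.id_apply]; ring

theorem Ineq_two (z : ZMod 2) : z + z = 0 := by revert z; decide

theorem Ineq_eq {x y : ZMod 2} : x + y = 0 ↔ x = y := by revert x y; decide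

theorem ineqA (h : Region a b K J Q) :
    (ω ∩ edIn J).card + (clus J (ω ∩ edIn J)).card ≤ J.card + (clus Q (dualIn Q ω)).card := by
  classical
  have hM : ω ∩ edIn J ⊆ edIn J := inter_subset_right
  have hd : dualIn Q ω ⊆ edIn Q := filter_subset _ _
  have h1 := finrank_cyc hM
  have h2 := finrank_cst hd (Finset.empty_subset Q)
  have h3 : ((clus Q (dualIn Q ω)).filter fun C => Disjoint C (∅ : Finset Site)) =
      clus Q (dualIn Q ω) := by
    rw [filter_eq_self]
    intro C _
    exact disjoint_empty_right C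
  have h4 : Module.finrank (ZMod 2) (cyc (ω ∩ edIn J)) ≤
      Module.finrank (ZMod 2) (cst Q ∅ (dualIn Q ω)) := by
    have := finite_cst Q ∅ (dualIn Q ω)
    have hle : cyc (ω ∩ edIn J) ≤ (cst Q ∅ (dualIn Q ω)).map Ineq_D := by
      rintro C ⟨hC1, hC2⟩
      obtain ⟨g₀, hg₀⟩ := exists_pot (fun e => C (cr e)) (by
        rintro ⟨i, j⟩
        have := hC2 (i + 1, j + 1)
        simp only [cr, dir, cond_true, cond_false, Prod.mk_add_mk, Prod.mk_sub_mk, add_zero,
          sub_zero, add_sub_cancel_right, Bool.not_true, Bool.not_false] at this ⊢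
        linear_combination this)
      have hg1 : ∀ e, C e = g₀ (pl e) + g₀ (pu e) := by
        intro e
        have := hg₀ (Ineq_pe e)
        rw [Ineq_cr_pe, Ineq_src_pe, Ineq_tgt_pe] at this
        exact this
      -- `g₀` is constant around the sites outside `J`
      have hloc : ∀ x, x ∉ J → ∀ q ∈ nbP x, g₀ q = g₀ x := by
        intro x hx
        have hz : ∀ e, (src e = x ∨ tgt e = x) → g₀ (pl e) = g₀ (pu e) := by
          intro e he
          rw [← Ineq_eq, ← hg1]
          apply hC1
          intro h5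
          have h6 := Ineq_mem_edIn.1 (mem_inter.1 h5).2
          rcases he with rfl | rfl
          · exact hx h6.1
          · exact hx h6.2
        rcases x with ⟨i, j⟩
        have z1 := hz ((i, j), true) (Or.inl rfl)
        have z2 := hz ((i, j), false) (Or.inl rfl)
        have z3 := hz ((i, j - 1), true) (Or.inr (by simp [tgt, dir]))
        simp only [pl, pu, dir, cond_true, cond_false, Prod.mk_sub_mk, sub_zero, Bool.not_true,
          Bool.not_false] at z1 z2 z3
        intro q hq
        simp only [nbP, mem_insert, mem_singleton, Prod.mk_sub_mk, sub_zero] at hq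
        rcases hq with rfl | rfl | rfl | rfl
        · rfl
        · exact z1
        · exact z2
        · exact z3.trans z2
      have hout : ∀ q, q ∉ Q → g₀ q = g₀ (a - 1, a - 1) := by
        have key : ∀ q, Relation.ReflTransGen (Pstep K) q (a - 1, a - 1) → q ∉ Q →
            g₀ q = g₀ (a - 1, a - 1) := by
          intro q hq
          induction hq using Relation.ReflTransGen.head_induction_on with
          | refl => intro _; rfl
          | @head q q₁ h1 _ ih =>
            obtain ⟨x, hxK, hqx, hq₁x⟩ := h1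
            intro hq
            have hxJ : x ∉ J := fun hxJ => hq (h.JQ x hxJ hxK hqx)
            have hq₁ : q₁ ∉ Q := fun h2 => hxJ (h.QJ q₁ h2 (mem_nbP.1 hq₁x))
            rw [← ih hq₁, hloc x hxJ q hqx, hloc x hxJ q₁ hq₁x]
        exact fun q hq => key q (h.out q hq) hq
      refine ⟨fun q => g₀ q + g₀ (a - 1, a - 1), ⟨?_, ?_, ?_⟩, ?_⟩
      · intro q hq
        change g₀ q + g₀ (a - 1, a - 1) = 0
        rw [hout q hq]
        exact Ineq_two _
      · intro e he
        have h5 : C (cr e) = 0 := by
          apply hC1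
          intro h6
          exact (mem_filter.1 he).2 (mem_inter.1 h6).1
        have h6 := hg₀ e
        rw [h5] at h6
        change g₀ (src e) + g₀ (a - 1, a - 1) = g₀ (tgt e) + g₀ (a - 1, a - 1)
        rw [Ineq_eq.1 h6.symm]
      · intro z hz
        exact absurd hz (Finset.notMem_empty z)
      · funext e
        change (g₀ (pl e) + g₀ (a - 1, a - 1)) + (g₀ (pu e) + g₀ (a - 1, a - 1)) = C e
        rw [hg1 e]
        linear_combination Ineq_two (g₀ (a - 1, a - 1))
    exact (Submodule.finrank_mono hle).trans (Submodule.finrank_map_le _ _)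
  rw [h3] at h2
  omega

theorem ineqB (h : Region a b K J Q) (hK : ∀ x ∈ K, ∀ y ∈ K, Conn (ω ∩ edIn K) x y) :
    Q.card + (clus J (ω ∩ edIn J)).card ≤
      (dualIn Q ω).card + (clus Q (dualIn Q ω)).card + 1 := by
  classical
  have hM : ω ∩ edIn J ⊆ edIn J := inter_subset_right
  have hd : dualIn Q ω ⊆ edIn Q := filter_subset _ _
  have h1 := finrank_cyc hd
  have h2 := finrank_cst hM h.KJ
  have h3 : (clus J (ω ∩ edIn J)).card ≤
      ((clus J (ω ∩ edIn J)).filter fun C => Disjoint C K).card + 1 := by
    have h4 := Finset.card_filter_add_card_filter_not (s := clus J (ω ∩ edIn J))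
      (fun C => Disjoint C K)
    have h5 : ((clus J (ω ∩ edIn J)).filter fun C => ¬ Disjoint C K).card ≤ 1 := by
      rw [card_le_one]
      intro C hC C' hC'
      rw [mem_filter] at hC hC'
      obtain ⟨hC1, hC2⟩ := hC
      obtain ⟨hC1', hC2'⟩ := hC'
      rw [Finset.not_disjoint_iff] at hC2 hC2'
      obtain ⟨x, hx, hxK⟩ := hC2
      obtain ⟨y, hy, hyK⟩ := hC2'
      have hxy : Conn (ω ∩ edIn J) x y := by
        have := hK x hxK y hyK
        unfold Conn at *
        refine Relation.ReflTransGen.mono (r := Adj (ω ∩ edIn K)) (p := Adj (ω ∩ edIn J)) ?_ x y this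
        rintro x y ⟨e, he, h1⟩
        refine ⟨e, ?_, h1⟩
        rw [mem_inter, Ineq_mem_edIn] at *
        exact ⟨he.1, h.KJ he.2.1, h.KJ he.2.2⟩
      have hsymm : ∀ {x y : Site}, Conn (ω ∩ edIn J) x y → Conn (ω ∩ edIn J) y x := by
        intro x y hxy
        unfold Conn at *
        induction hxy with
        | refl => exact Relation.ReflTransGen.refl
        | tail _ h2 ih =>
          obtain ⟨e, he, h3⟩ := h2
          exact Relation.ReflTransGen.head ⟨e, he, h3.symm⟩ ih
      rw [clus, mem_image] at hC1 hC1'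
      obtain ⟨u, hu, rfl⟩ := hC1
      obtain ⟨v, hv, rfl⟩ := hC1'
      rw [mem_filter] at hx hy
      have huv : Conn (ω ∩ edIn J) u v :=
        Relation.ReflTransGen.trans hx.2 (Relation.ReflTransGen.trans hxy (hsymm hy.2))
      ext z
      simp only [mem_filter]
      exact ⟨fun ⟨h6, h7⟩ => ⟨h6, Relation.ReflTransGen.trans (hsymm huv) h7⟩,
        fun ⟨h6, h7⟩ => ⟨h6, Relation.ReflTransGen.trans huv h7⟩⟩
    omega
  have h4 : Module.finrank (ZMod 2) (cst J K (ω ∩ edIn J)) ≤
      Module.finrank (ZMod 2) (cyc (dualIn Q ω)) := by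
    have := finite_cst J K (ω ∩ edIn J)
    have := finite_cyc (dualIn Q ω)
    have hmap : ∀ g ∈ cst J K (ω ∩ edIn J), Ineq_D' g ∈ cyc (dualIn Q ω) := by
      rintro g ⟨hg1, hg2, hg3⟩
      refine ⟨?_, ?_⟩
      · intro e he
        change g (src (cr e)) + g (tgt (cr e)) = 0
        by_contra hne
        -- one of the endpoints is in `J \ K`
        have hnz : g (src (cr e)) ≠ 0 ∨ g (tgt (cr e)) ≠ 0 := by
          by_contra hcon
          push Not at hcon
          rw [hcon.1, hcon.2] at hne
          exact hne (by simp)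
        have hin : ∀ x, g x ≠ 0 → x ∈ J ∧ x ∉ K := by
          intro x hx
          constructor
          · by_contra h5
            exact hx (hg1 x h5)
          · intro h5
            exact hx (hg3 x h5)
        have hcor : pl (cr e) ∈ Q ∧ pu (cr e) ∈ Q := by
          rcases hnz with h5 | h5
          · obtain ⟨h6, h7⟩ := hin _ h5
            exact ⟨h.JQ _ h6 h7 (Ineq_pl_src _), h.JQ _ h6 h7 (Ineq_pu_src _)⟩
          · obtain ⟨h6, h7⟩ := hin _ h5
            exact ⟨h.JQ _ h6 h7 (Ineq_pl_tgt _), h.JQ _ h6 h7 (Ineq_pu_tgt _)⟩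
        rw [Ineq_pl_cr, Ineq_pu_cr] at hcor
        have hcr : cr e ∈ ω := by
          by_contra h5
          exact he (mem_filter.2 ⟨Ineq_mem_edIn.2 hcor, h5⟩)
        have hJ1 : src (cr e) ∈ J := by
          have := h.QJ _ hcor.1
          rw [← Ineq_pl_cr] at this
          exact this (mem_nbP.1 (Ineq_pl_src _))
        have hJ2 : tgt (cr e) ∈ J := by
          have := h.QJ _ hcor.1
          rw [← Ineq_pl_cr] at this
          exact this (mem_nbP.1 (Ineq_pl_tgt _))
        exact hne (Ineq_eq.2 (hg2 _ (mem_inter.2 ⟨hcr, Ineq_mem_edIn.2 ⟨hJ1, hJ2⟩⟩)))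
      · rintro ⟨i, j⟩
        change (g (src (cr ((i, j), false))) + g (tgt (cr ((i, j), false)))) +
          (g (src (cr ((i, j) - (1, 0), false))) + g (tgt (cr ((i, j) - (1, 0), false)))) +
          (g (src (cr ((i, j), true))) + g (tgt (cr ((i, j), true)))) +
          (g (src (cr ((i, j) - (0, 1), true))) + g (tgt (cr ((i, j) - (0, 1), true)))) = 0
        simp only [cr, src, tgt, dir, cond_true, cond_false, Prod.mk_add_mk, Prod.mk_sub_mk,
          add_zero, sub_zero, sub_add_cancel, Bool.not_true, Bool.not_false]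
        linear_combination Ineq_two (g (i, j)) + Ineq_two (g (i + 1, j)) + Ineq_two (g (i, j + 1)) +
          Ineq_two (g (i + 1, j + 1))
    refine LinearMap.finrank_le_finrank_of_injective (f := Ineq_D'.restrict hmap) ?_
    rw [injective_iff_map_eq_zero]
    rintro ⟨g, hg⟩ hg0
    have hg0' : ∀ e, g (src (cr e)) + g (tgt (cr e)) = 0 := by
      intro e
      have := congrArg (fun z => (z : Ed → ZMod 2) e) (congrArg Subtype.val hg0)
      exact this
    have hc : ∀ e, g (src e) = g (tgt e) := by
      intro e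
      have := hg0' (Ineq_pe e)
      rw [Ineq_cr_pe] at this
      exact Ineq_eq.1 this
    have h5 : ∀ x, g x = 0 := by
      intro x
      rw [const_all g hc x (a - 1, a - 1)]
      apply hg.1
      intro h6
      have := mem_box.1 (h.Jbox h6)
      simp only at this
      omega
    apply Subtype.ext
    funext x
    exact h5 x
  omega

end P0de
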