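import Pool.Agent.Lib.P0de4a2.Geo
import Pool.Agent.Lib.P0de4a2.Ineq
import Pool.Agent.Lib.P0de4a2.ClusLem

set_option autoImplicit false
set_option linter.unusedVariables false

open Finset

namespace P0de

variable {a b : ℤ} {K J Q : Finset Site} {ω St : Finset Ed}

/-! ### coordinates -/

theorem flip_pu_src (e : Ed) : pu e ∈ nbP (src e) := by
  simp [pu, nbP, src]

theorem flip_pl_src (e : Ed) : pl e ∈ nbP (src e) := by
  rcases e with ⟨x, c⟩
  cases c <;> simp [pl, nbP, src, dir]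

theorem flip_pu_tgt (e : Ed) : pu e ∈ nbP (tgt e) := by
  rcases e with ⟨x, c⟩
  cases c <;> simp [pu, nbP, tgt, dir]

theorem flip_pl_tgt (e : Ed) : pl e ∈ nbP (tgt e) := by
  rcases e with ⟨⟨i, j⟩, c⟩
  cases c <;> simp [pl, nbP, tgt, dir]

/-- the passive edge crossing `e` -/
def pe (e : Ed) : Ed := (pl e, !e.2)

theorem cr_pe (e : Ed) : cr (pe e) = e := by
  rcases e with ⟨⟨i, j⟩, c⟩
  cases c <;> simp [cr, pe, pl, dir]

theorem src_pe (e : Ed) : src (pe e) = pl e := rfl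

theorem tgt_pe (e : Ed) : tgt (pe e) = pu e := by
  rcases e with ⟨⟨i, j⟩, c⟩
  cases c <;> simp [pu, pe, pl, dir, tgt]

theorem mem_edIn {A : Finset Site} {e : Ed} : e ∈ edIn A ↔ src e ∈ A ∧ tgt e ∈ A := by
  simp [edIn, src]

theorem mem_inner {e : Ed} : e ∈ inner a b ↔ src e ∈ box a b ∧ tgt e ∈ box a b := by
  simp [inner, src]

theorem stub_not_inner {e : Ed} (he : e ∈ stubs a b) : e ∉ inner a b := by
  rw [mem_inner]
  simp only [stubs, mem_filter] at he
  rintro ⟨h1, h2⟩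
  rcases he.2 with h | h
  · exact h.2 h2
  · exact h.1 h1

theorem stub_iff {e : Ed} (he : e ∈ stubs a b) :
    (src e ∈ box a b ∧ tgt e ∉ box a b) ∨ (src e ∉ box a b ∧ tgt e ∈ box a b) := by
  simp only [stubs, mem_filter] at he
  exact he.2

theorem mem_dualIn {e : Ed} : e ∈ dualIn Q ω ↔ (src e ∈ Q ∧ tgt e ∈ Q) ∧ cr e ∉ ω := by
  simp [dualIn, mem_edIn]

theorem self_mem_nbA (q : Site) : q ∈ nbA q := by simp [nbA]

theorem Region.QsubJ (h : Region a b K J Q) : Q ⊆ J := fun q hq => h.QJ q hq (self_mem_nbA q)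

/-- if a passive corner of `e` is in `Q` then both endpoints are in `J` -/
theorem Region.of_corner (h : Region a b K J Q) {e : Ed} (he : pu e ∈ Q ∨ pl e ∈ Q) :
    src e ∈ J ∧ tgt e ∈ J := by
  rcases he with he | he
  · exact ⟨h.QJ _ he (mem_nbP.1 (flip_pu_src e)), h.QJ _ he (mem_nbP.1 (flip_pu_tgt e))⟩
  · exact ⟨h.QJ _ he (mem_nbP.1 (flip_pl_src e)), h.QJ _ he (mem_nbP.1 (flip_pl_tgt e))⟩

theorem Region.src_of (h : Region a b K J Q) {e : Ed} (h1 : src e ∈ J) (h2 : src e ∉ K) :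
    tgt e ∈ J := (h.of_corner (Or.inl (h.JQ _ h1 h2 (flip_pu_src e)))).2

theorem Region.tgt_of (h : Region a b K J Q) {e : Ed} (h1 : tgt e ∈ J) (h2 : tgt e ∉ K) :
    src e ∈ J := (h.of_corner (Or.inl (h.JQ _ h1 h2 (flip_pu_tgt e)))).1

/-- inner edges of `ω` do not cross the boundary of `J` -/
theorem Region.inner_iff (h : Region a b K J Q)
    (hcl : ∀ e ∈ ω ∩ inner a b, (src e ∈ K ↔ tgt e ∈ K)) {e : Ed} (he : e ∈ ω)
    (hei : e ∈ inner a b) : src e ∈ J ↔ tgt e ∈ J := by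
  have hk := hcl e (mem_inter.2 ⟨he, hei⟩)
  constructor
  · intro h1
    by_cases h2 : src e ∈ K
    · exact h.KJ (hk.1 h2)
    · exact h.src_of h1 h2
  · intro h1
    by_cases h2 : tgt e ∈ K
    · exact h.KJ (hk.2 h2)
    · exact h.tgt_of h1 h2

theorem edIn_sub_inner {A : Finset Site} (hA : A ⊆ box a b) : edIn A ⊆ inner a b := by
  intro e he
  rw [mem_edIn] at he
  exact mem_inner.2 ⟨hA he.1, hA he.2⟩

theorem dualIn_sub (h : Region a b K J Q) : dualIn Q ω ⊆ edIn J := by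
  intro e he
  rw [mem_dualIn] at he
  exact mem_edIn.2 ⟨h.QsubJ he.1.1, h.QsubJ he.1.2⟩

theorem flip_subset (h : Region a b K J Q) (hω : ω ⊆ inner a b ∪ St) :
    flip J Q ω ⊆ inner a b ∪ St := by
  intro e he
  rw [flip, mem_union] at he
  rcases he with he | he
  · exact hω (mem_filter.1 he).1
  · exact mem_union_left _ (edIn_sub_inner h.Jbox (dualIn_sub h he))

/-! ### the gain -/

theorem flip_union_disj (h : Region a b K J Q) :
    Disjoint (ω.filter fun e => src e ∉ J ∧ tgt e ∉ J) (dualIn Q ω) := by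
  rw [Finset.disjoint_left]
  intro e he he'
  exact (mem_filter.1 he).2.1 (mem_edIn.1 (dualIn_sub h he')).1

/-- the stubs of `ω` attached to `J` -/
def stJ (J : Finset Site) (ω : Finset Ed) : Finset Ed :=
  ω.filter fun e => (src e ∈ J ∧ tgt e ∉ J) ∨ (src e ∉ J ∧ tgt e ∈ J)

theorem stJ_sub (h : Region a b K J Q) (hω : ω ⊆ inner a b ∪ St)
    (hcl : ∀ e ∈ ω ∩ inner a b, (src e ∈ K ↔ tgt e ∈ K)) : stJ J ω ⊆ St := by
  intro e he
  rw [stJ, mem_filter] at he
  rcases mem_union.1 (hω he.1) with hi | hs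
  · have := h.inner_iff hcl he.1 hi
    tauto
  · exact hs

theorem card_split : ω.card = (ω ∩ edIn J).card + (stJ J ω).card +
    (ω.filter fun e => src e ∉ J ∧ tgt e ∉ J).card := by
  classical
  have h1 : ω = ((ω ∩ edIn J) ∪ stJ J ω) ∪ (ω.filter fun e => src e ∉ J ∧ tgt e ∉ J) := by
    ext e
    simp only [mem_union, mem_inter, mem_edIn, stJ, mem_filter]
    tauto
  conv_lhs => rw [h1]
  rw [card_union_of_disjoint, card_union_of_disjoint]
  · rw [Finset.disjoint_left]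
    intro e he he'
    simp only [mem_inter, mem_edIn, stJ, mem_filter] at he he'
    tauto
  · rw [Finset.disjoint_left]
    intro e he he'
    simp only [mem_union, mem_inter, mem_edIn, stJ, mem_filter] at he he'
    tauto

theorem card_St (h : Region a b K J Q) (hSt : St ⊆ stubs a b) (hω : ω ⊆ inner a b ∪ St)
    (hcl : ∀ e ∈ ω ∩ inner a b, (src e ∈ K ↔ tgt e ∈ K)) :
    (St \ flip J Q ω).card = (St \ ω).card + (stJ J ω).card := by
  classical
  have h1 : St \ flip J Q ω = (St \ ω) ∪ stJ J ω := by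
    ext e
    have h2 := stJ_sub h hω hcl
    constructor
    · intro he
      rw [mem_sdiff] at he
      by_cases heω : e ∈ ω
      · apply mem_union_right
        have h3 : ¬ (src e ∉ J ∧ tgt e ∉ J) := by
          intro h3
          exact he.2 (by rw [flip, mem_union]; exact Or.inl (mem_filter.2 ⟨heω, h3⟩))
        have h4 : ¬ (src e ∈ J ∧ tgt e ∈ J) := by
          rintro ⟨h4, h5⟩
          exact stub_not_inner (hSt he.1) (mem_inner.2 ⟨h.Jbox h4, h.Jbox h5⟩)
        rw [stJ, mem_filter]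
        exact ⟨heω, by tauto⟩
      · exact mem_union_left _ (mem_sdiff.2 ⟨he.1, heω⟩)
    · intro he
      rw [mem_sdiff]
      rcases mem_union.1 he with he | he
      · rw [mem_sdiff] at he
        refine ⟨he.1, ?_⟩
        rw [flip, mem_union]
        rintro (h3 | h3)
        · exact he.2 (mem_filter.1 h3).1
        · exact stub_not_inner (hSt he.1) (edIn_sub_inner h.Jbox (dualIn_sub h h3))
      · refine ⟨h2 he, ?_⟩
        rw [flip, mem_union]
        rintro (h3 | h3)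
        · rw [stJ, mem_filter] at he
          have := (mem_filter.1 h3).2
          tauto
        · exact stub_not_inner (hSt (h2 he)) (edIn_sub_inner h.Jbox (dualIn_sub h h3))
  rw [h1, card_union_of_disjoint]
  rw [Finset.disjoint_left]
  intro e he he'
  exact (mem_sdiff.1 he).2 (mem_filter.1 he').1

/-- clusters inside `J` attached to open stubs -/
theorem stubby_in (h : Region a b K J Q) {C : Finset Site} (hC : C ⊆ J)
    (hs : Stubby a b ω C) : ∃ e ∈ stJ J ω, (src e ∈ C ∧ src e ∈ K) ∨ (tgt e ∈ C ∧ tgt e ∈ K) := by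
  obtain ⟨e, he, hst, hCe⟩ := hs
  have hb := stub_iff hst
  rcases hCe with h1 | h1
  · have h2 := hC h1
    have h3 := h.Jbox h2
    have h4 : tgt e ∉ box a b := by tauto
    have h5 : tgt e ∉ J := fun h6 => h4 (h.Jbox h6)
    have h6 : src e ∈ K := by
      by_contra h7
      exact h5 (h.src_of h2 h7)
    exact ⟨e, mem_filter.2 ⟨he, Or.inl ⟨h2, h5⟩⟩, Or.inl ⟨h1, h6⟩⟩
  · have h2 := hC h1
    have h3 := h.Jbox h2
    have h4 : src e ∉ box a b := by tauto
    have h5 : src e ∉ J := fun h6 => h4 (h.Jbox h6)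
    have h6 : tgt e ∈ K := by
      by_contra h7
      exact h5 (h.tgt_of h2 h7)
    exact ⟨e, mem_filter.2 ⟨he, Or.inr ⟨h5, h2⟩⟩, Or.inr ⟨h1, h6⟩⟩

theorem stubby_flip_in (h : Region a b K J Q) (hSt : St ⊆ stubs a b) (hω : ω ⊆ inner a b ∪ St)
    {C : Finset Site} (hC : C ⊆ J) : ¬ Stubby a b (flip J Q ω) C := by
  rintro ⟨e, he, hst, hCe⟩
  rw [flip, mem_union] at he
  rcases he with he | he
  · have := (mem_filter.1 he).2
    rcases hCe with h1 | h1
    · exact this.1 (hC h1)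
    · exact this.2 (hC h1)
  · exact stub_not_inner hst (edIn_sub_inner h.Jbox (dualIn_sub h he))

theorem stubby_flip_out (h : Region a b K J Q) {C : Finset Site} (hC : C ⊆ box a b \ J) :
    Stubby a b (flip J Q ω) C ↔ Stubby a b ω C := by
  constructor
  · rintro ⟨e, he, hst, hCe⟩
    rw [flip, mem_union] at he
    rcases he with he | he
    · exact ⟨e, (mem_filter.1 he).1, hst, hCe⟩
    · exact absurd (edIn_sub_inner h.Jbox (dualIn_sub h he)) (stub_not_inner hst)
  · rintro ⟨e, he, hst, hCe⟩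
    have hb := stub_iff hst
    refine ⟨e, ?_, hst, hCe⟩
    rw [flip, mem_union, mem_filter]
    left
    refine ⟨he, ?_⟩
    rcases hCe with h1 | h1
    · have h2 := mem_sdiff.1 (hC h1)
      have h4 : tgt e ∉ box a b := by tauto
      exact ⟨h2.2, fun h6 => h4 (h.Jbox h6)⟩
    · have h2 := mem_sdiff.1 (hC h1)
      have h4 : src e ∉ box a b := by tauto
      exact ⟨fun h6 => h4 (h.Jbox h6), h2.2⟩

open Classical in
/-- the number of clusters in `J` attached to stubs is at most one, and it is one iff there is a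
stub -/
theorem card_stubby_in (h : Region a b K J Q)
    (hSt : St ⊆ stubs a b) (hω : ω ⊆ inner a b ∪ St)
    (hK : ∀ x ∈ K, ∀ y ∈ K, Conn (ω ∩ edIn K) x y) (hKne : K.Nonempty)
    (hcl : ∀ e ∈ ω ∩ inner a b, (src e ∈ K ↔ tgt e ∈ K)) :
    ((clus J (ω ∩ edIn J)).filter fun C => Stubby a b ω C).card =
      if stJ J ω = ∅ then 0 else 1 := by
  split_ifs with hs
  · rw [card_eq_zero, filter_eq_empty_iff]
    intro C hC hSC
    obtain ⟨e, he, -⟩ := stubby_in h (mem_clus hC).1 hSC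
    rw [hs] at he
    exact absurd he (Finset.notMem_empty e)
  · obtain ⟨e, he⟩ := Finset.nonempty_iff_ne_empty.2 hs
    have heSt := hSt (stJ_sub h hω hcl he)
    rw [stJ, mem_filter] at he
    -- an endpoint in `K`
    obtain ⟨x, hxK, hxe⟩ : ∃ x ∈ K, src e = x ∨ tgt e = x := by
      rcases he.2 with ⟨h1, h2⟩ | ⟨h1, h2⟩
      · refine ⟨src e, ?_, Or.inl rfl⟩
        by_contra h7
        exact h2 (h.src_of h1 h7)
      · refine ⟨tgt e, ?_, Or.inr rfl⟩
        by_contra h7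
        exact h1 (h.tgt_of h2 h7)
    have hsubK : edIn K ⊆ edIn J := by
      intro f hf
      rw [mem_edIn] at hf ⊢
      exact ⟨h.KJ hf.1, h.KJ hf.2⟩
    rw [card_eq_one]
    refine ⟨J.filter fun y => Conn (ω ∩ edIn J) x y, ?_⟩
    ext C
    rw [mem_filter, mem_singleton]
    constructor
    · rintro ⟨hC, hSC⟩
      obtain ⟨hCJ, -, hCc, hCcl⟩ := mem_clus hC
      obtain ⟨e', -, he'⟩ := stubby_in h hCJ hSC
      obtain ⟨y, hyC, hyK⟩ : ∃ y ∈ C, y ∈ K := by
        rcases he' with ⟨h1, h2⟩ | ⟨h1, h2⟩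
        · exact ⟨_, h1, h2⟩
        · exact ⟨_, h1, h2⟩
      have hxC : x ∈ C := hCcl y hyC x (h.KJ hxK)
        (Conn.mono (inter_subset_inter_left hsubK) (hK y hyK x hxK))
      ext z
      rw [mem_filter]
      constructor
      · intro hz
        exact ⟨hCJ hz, hCc x hxC z hz⟩
      · rintro ⟨h1, h2⟩
        exact hCcl x hxC z h1 h2
    · rintro rfl
      refine ⟨mem_image.2 ⟨x, h.KJ hxK, rfl⟩, e, he.1, heSt, ?_⟩
      have hx0 : x ∈ J.filter fun y => Conn (ω ∩ edIn J) x y :=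
        mem_filter.2 ⟨h.KJ hxK, Relation.ReflTransGen.refl⟩
      rcases hxe with h1 | h1
      · left; rw [h1]; exact hx0
      · right; rw [h1]; exact hx0

open Classical in
theorem counts (h : Region a b K J Q)
    (hSt : St ⊆ stubs a b) (hω : ω ⊆ inner a b ∪ St)
    (hK : ∀ x ∈ K, ∀ y ∈ K, Conn (ω ∩ edIn K) x y) (hKne : K.Nonempty)
    (hcl : ∀ e ∈ ω ∩ inner a b, (src e ∈ K ↔ tgt e ∈ K)) :
    (kStub a b ω = kStub a b (flip J Q ω) + if stJ J ω = ∅ then 0 else 1) ∧
    (kInt a b ω + (if stJ J ω = ∅ then 0 else 1) + (clus J (dualIn Q ω)).card =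
      kInt a b (flip J Q ω) + (clus J (ω ∩ edIn J)).card) := by
  set V := box a b with hV
  have hηV : ω ∩ inner a b ⊆ edIn V := by
    intro e he
    exact mem_edIn.2 (mem_inner.1 (mem_inter.1 he).2)
  have hη'V : flip J Q ω ∩ inner a b ⊆ edIn V := by
    intro e he
    exact mem_edIn.2 (mem_inner.1 (mem_inter.1 he).2)
  have hc1 : ∀ e ∈ ω ∩ inner a b, (src e ∈ J ↔ tgt e ∈ J) := fun e he =>
    h.inner_iff hcl (mem_inter.1 he).1 (mem_inter.1 he).2
  have hc2 : ∀ e ∈ flip J Q ω ∩ inner a b, (src e ∈ J ↔ tgt e ∈ J) := by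
    intro e he
    rw [mem_inter, flip, mem_union] at he
    rcases he.1 with h1 | h1
    · have := (mem_filter.1 h1).2
      tauto
    · have := mem_edIn.1 (dualIn_sub h h1)
      tauto
  obtain ⟨u1, d1⟩ := clus_union h.Jbox hηV hc1
  obtain ⟨u2, d2⟩ := clus_union h.Jbox hη'V hc2
  have e1 : (ω ∩ inner a b) ∩ edIn J = ω ∩ edIn J := by
    ext e
    have := @edIn_sub_inner a b J h.Jbox e
    simp only [mem_inter]
    tauto
  have e2 : (flip J Q ω ∩ inner a b) ∩ edIn J = dualIn Q ω := by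
    ext e
    simp only [mem_inter]
    constructor
    · rintro ⟨⟨h1, -⟩, h2⟩
      rw [flip, mem_union] at h1
      rcases h1 with h1 | h1
      · exact absurd (mem_edIn.1 h2).1 (mem_filter.1 h1).2.1
      · exact h1
    · intro h1
      have h2 := dualIn_sub h h1
      exact ⟨⟨by rw [flip, mem_union]; exact Or.inr h1, edIn_sub_inner h.Jbox h2⟩, h2⟩
  have e3 : (flip J Q ω ∩ inner a b) ∩ edIn (V \ J) = (ω ∩ inner a b) ∩ edIn (V \ J) := by
    ext e
    simp only [mem_inter]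
    constructor
    · rintro ⟨⟨h1, h3⟩, h2⟩
      rw [flip, mem_union] at h1
      rcases h1 with h1 | h1
      · exact ⟨⟨(mem_filter.1 h1).1, h3⟩, h2⟩
      · exact absurd (mem_edIn.1 (dualIn_sub h h1)).1 (mem_sdiff.1 (mem_edIn.1 h2).1).2
    · rintro ⟨⟨h1, h3⟩, h2⟩
      refine ⟨⟨?_, h3⟩, h2⟩
      rw [flip, mem_union]
      left
      exact mem_filter.2 ⟨h1, (mem_sdiff.1 (mem_edIn.1 h2).1).2, (mem_sdiff.1 (mem_edIn.1 h2).2).2⟩
  rw [e1] at u1 d1
  rw [e2, e3] at u2 d2
  set O := clus (V \ J) ((ω ∩ inner a b) ∩ edIn (V \ J)) with hO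
  have hOs : ∀ C ∈ O, (Stubby a b (flip J Q ω) C ↔ Stubby a b ω C) := fun C hC =>
    stubby_flip_out h (mem_clus hC).1
  have hS := card_stubby_in h hSt hω hK hKne hcl
  have hA := Finset.card_filter_add_card_filter_not (s := clus J (ω ∩ edIn J))
    (fun C => Stubby a b ω C)
  have k1 : kStub a b ω = ((clus J (ω ∩ edIn J)).filter fun C => Stubby a b ω C).card +
      (O.filter fun C => Stubby a b ω C).card := by
    rw [kStub, u1, filter_union, card_union_of_disjoint (disjoint_filter_filter d1)]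
  have k2 : kInt a b ω = ((clus J (ω ∩ edIn J)).filter fun C => ¬ Stubby a b ω C).card +
      (O.filter fun C => ¬ Stubby a b ω C).card := by
    rw [kInt, u1, filter_union, card_union_of_disjoint (disjoint_filter_filter d1)]
  have f1 : ((clus J (dualIn Q ω)).filter fun C => Stubby a b (flip J Q ω) C) = ∅ := by
    rw [filter_eq_empty_iff]
    intro C hC
    exact stubby_flip_in h hSt hω (mem_clus hC).1
  have f2 : ((clus J (dualIn Q ω)).filter fun C => ¬ Stubby a b (flip J Q ω) C) =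
      clus J (dualIn Q ω) := by
    rw [filter_eq_self]
    intro C hC
    exact stubby_flip_in h hSt hω (mem_clus hC).1
  have k3 : kStub a b (flip J Q ω) = (O.filter fun C => Stubby a b ω C).card := by
    rw [kStub, u2, filter_union, card_union_of_disjoint (disjoint_filter_filter d2), f1,
      card_empty, zero_add, filter_congr hOs]
  have k4 : kInt a b (flip J Q ω) = (clus J (dualIn Q ω)).card +
      (O.filter fun C => ¬ Stubby a b ω C).card := by
    rw [kInt, u2, filter_union, card_union_of_disjoint (disjoint_filter_filter d2), f2]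
    congr 2
    apply filter_congr
    intro C hC
    rw [hOs C hC]
  rw [hS] at k1 hA
  constructor
  · rw [k1, k3, add_comm]
  · omega

theorem gw_flip {u w : ℝ} (hu : 1 ≤ u) (hw : u ^ 7 ≤ w) (hSt : St ⊆ stubs a b)
    (hω : ω ⊆ inner a b ∪ St) (h : Region a b K J Q)
    (hK : ∀ x ∈ K, ∀ y ∈ K, Conn (ω ∩ edIn K) x y) (hKne : K.Nonempty)
    (hcl : ∀ e ∈ ω ∩ inner a b, (src e ∈ K ↔ tgt e ∈ K)) (h8 : 8 ≤ (Gam J Q).card) :
    u ^ (Gam J Q).card * gw u w a b St ω ≤ gw u w a b St (flip J Q ω) := by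
  classical
  have c1 := card_split (ω := ω) (J := J)
  have c2 := card_St h hSt hω hcl
  obtain ⟨c3, c4⟩ := counts h hSt hω hK hKne hcl
  have c5 : (flip J Q ω).card = (ω.filter fun e => src e ∉ J ∧ tgt e ∉ J).card +
      (dualIn Q ω).card := by
    rw [flip, card_union_of_disjoint (flip_union_disj h)]
  have hdQ : dualIn Q ω ⊆ edIn Q := fun e he => mem_edIn.2 (mem_dualIn.1 he).1
  have c6 := card_clus_add h.QsubJ hdQ
  have c7 := card_gam h
  have c8 := ineqA (ω := ω) h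
  have c9 := ineqB (ω := ω) h hK
  have c10 := card_stubs_le h (T := stJ J ω) ((stJ_sub h hω hcl).trans hSt) (by
    intro e he
    have := (mem_filter.1 he).2
    tauto)
  have hs0 : stJ J ω = ∅ ↔ (stJ J ω).card = 0 := card_eq_zero.symm
  set s := (stJ J ω).card with hs
  set t : ℕ := if stJ J ω = ∅ then 0 else 1 with ht
  have ht' : (s = 0 ∧ t = 0) ∨ (1 ≤ s ∧ t = 1) := by
    by_cases hh : stJ J ω = ∅
    · left; exact ⟨hs0.1 hh, if_pos hh⟩
    · right
      exact ⟨Nat.one_le_iff_ne_zero.2 fun h0 => hh (hs0.2 h0), if_neg hh⟩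
  have hexp : 8 * ω.card + 16 * kInt a b ω + (Gam J Q).card ≤
      8 * (flip J Q ω).card + 16 * kInt a b (flip J Q ω) + 7 * (s - t) := by
    rcases ht' with ⟨h1, h2⟩ | ⟨h1, h2⟩ <;> omega
  have hB : kStub a b (flip J Q ω) + (St \ flip J Q ω).card =
      kStub a b ω + (St \ ω).card + (s - t) := by
    rcases ht' with ⟨h1, h2⟩ | ⟨h1, h2⟩ <;> omega
  have hu0 : 0 < u := by linarith
  have hw0 : 0 < w := lt_of_lt_of_le (pow_pos hu0 7) hw
  rw [gw, gw, hB]
  calc u ^ (Gam J Q).card * (u ^ (8 * ω.card) * u ^ (16 * kInt a b ω) *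
        w ^ (kStub a b ω + (St \ ω).card))
      = u ^ (8 * ω.card + 16 * kInt a b ω + (Gam J Q).card) *
        w ^ (kStub a b ω + (St \ ω).card) := by ring
    _ ≤ u ^ (8 * (flip J Q ω).card + 16 * kInt a b (flip J Q ω) + 7 * (s - t)) *
        w ^ (kStub a b ω + (St \ ω).card) :=
        mul_le_mul_of_nonneg_right (pow_le_pow_right₀ hu hexp) (pow_pos hw0 _).le
    _ = u ^ (8 * (flip J Q ω).card) * u ^ (16 * kInt a b (flip J Q ω)) *
        (w ^ (kStub a b ω + (St \ ω).card) * (u ^ 7) ^ (s - t)) := by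
        rw [pow_add, pow_add, ← pow_mul]; ring
    _ ≤ u ^ (8 * (flip J Q ω).card) * u ^ (16 * kInt a b (flip J Q ω)) *
        (w ^ (kStub a b ω + (St \ ω).card) * w ^ (s - t)) := by
        apply mul_le_mul_of_nonneg_left _ (by positivity)
        apply mul_le_mul_of_nonneg_left _ (by positivity)
        exact pow_le_pow_left₀ (by positivity) hw _
    _ = u ^ (8 * (flip J Q ω).card) * u ^ (16 * kInt a b (flip J Q ω)) *
        w ^ (kStub a b ω + (St \ ω).card + (s - t)) := by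
        rw [pow_add w (kStub a b ω + (St \ ω).card)]

/-! ### recovery -/

theorem mem_gam {x q : Site} : (x, q) ∈ Gam J Q ↔ x ∈ J ∧ q ∈ nbP x ∧ q ∉ Q := by
  simp only [Gam, mem_biUnion, mem_image, mem_sdiff, Prod.mk.injEq]
  constructor
  · rintro ⟨x', h1, q', ⟨h2, h3⟩, rfl, rfl⟩
    exact ⟨h1, h2, h3⟩
  · rintro ⟨h1, h2, h3⟩
    exact ⟨x, h1, q, ⟨h2, h3⟩, rfl, rfl⟩

theorem flip_mem_iff (h : Region a b K J Q) (e : Ed)
    (hX : ¬ ∃ γ ∈ Gam J Q, γ.1 = src e ∨ γ.1 = tgt e) :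
    (src e ∈ J → (e ∈ ω ↔ pe e ∉ flip J Q ω)) ∧ (src e ∉ J → (e ∈ ω ↔ e ∈ flip J Q ω)) := by
  have hs : src e ∈ J → nbP (src e) ⊆ Q := by
    intro h1 q hq
    by_contra h2
    exact hX ⟨(src e, q), mem_gam.2 ⟨h1, hq, h2⟩, Or.inl rfl⟩
  have ht : tgt e ∈ J → nbP (tgt e) ⊆ Q := by
    intro h1 q hq
    by_contra h2
    exact hX ⟨(tgt e, q), mem_gam.2 ⟨h1, hq, h2⟩, Or.inr rfl⟩
  constructor
  · intro h1
    have hpu := hs h1 (flip_pu_src e)
    have hpl := hs h1 (flip_pl_src e)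
    have h3 : pe e ∈ flip J Q ω ↔ e ∉ ω := by
      rw [flip, mem_union, mem_filter, mem_dualIn, src_pe, tgt_pe, cr_pe]
      constructor
      · rintro (h4 | h4)
        · exact absurd (h.QsubJ hpl) h4.2.1
        · exact h4.2
      · intro h4
        exact Or.inr ⟨⟨hpl, hpu⟩, h4⟩
    tauto
  · intro h1
    have h2 : tgt e ∉ J := by
      intro h2
      exact h1 (h.QJ _ (ht h2 (flip_pu_tgt e)) (mem_nbP.1 (flip_pu_src e)))
    rw [flip, mem_union, mem_filter]
    constructor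
    · intro h3
      exact Or.inl ⟨h3, h1, h2⟩
    · rintro (h3 | h3)
      · exact h3.1
      · exact absurd (mem_edIn.1 (dualIn_sub h h3)).1 h1

theorem flip_inj {ω' : Finset Ed} (h : Region a b K J Q) (hω : ω ⊆ inner a b ∪ St)
    (hω' : ω' ⊆ inner a b ∪ St) (hfl : flip J Q ω = flip J Q ω')
    (hX : ∀ e : Ed, (∃ γ ∈ Gam J Q, γ.1 = src e ∨ γ.1 = tgt e) → (e ∈ ω ↔ e ∈ ω')) : ω = ω' := by
  ext e
  by_cases hXe : ∃ γ ∈ Gam J Q, γ.1 = src e ∨ γ.1 = tgt e
  · exact hX e hXe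
  · have h1 := flip_mem_iff (ω := ω) h e hXe
    have h2 := flip_mem_iff (ω := ω') h e hXe
    by_cases h3 : src e ∈ J
    · rw [h1.1 h3, h2.1 h3, hfl]
    · rw [h1.2 h3, h2.2 h3, hfl]

end P0de
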