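import Pool.Agent.Lib.P0de4a2.Region

set_option autoImplicit false

open Finset

namespace P0de

variable {a b : ℤ} {K J Q : Finset Site}

theorem Geo_card_nbP (x : Site) : (nbP x).card = 4 := by
  have : nbP x = ({(0, 0), (1, 0), (0, 1), (1, 1)} : Finset Site).image fun d => x - d := by
    rcases x with ⟨i, j⟩
    simp [nbP, image_insert]
  rw [this, card_image_of_injective _ (fun d d' h => by simpa using h)]
  rfl

theorem Geo_card_nbA (x : Site) : (nbA x).card = 4 := by
  have : nbA x = ({(0, 0), (1, 0), (0, 1), (1, 1)} : Finset Site).image fun d => x + d := by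
    rcases x with ⟨i, j⟩
    simp [nbA, image_insert]
  rw [this, card_image_of_injective _ (fun d d' h => by simpa using h)]
  rfl

/-- count the pairs `(x, q)`, `x ∈ J`, `q ∈ nbP x`, in two ways -/
theorem card_gam (h : Region a b K J Q) : 4 * J.card = 4 * Q.card + (Gam J Q).card := by
  classical
  have h1 : (Gam J Q).card = ∑ x ∈ J, (nbP x \ Q).card := by
    rw [Gam, card_biUnion]
    · apply sum_congr rfl
      intro x _
      exact card_image_of_injective _ (fun q q' h => by simpa using h)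
    · intro x _ y _ hxy
      rw [Function.onFun, Finset.disjoint_left]
      intro γ h1 h2
      rw [mem_image] at h1 h2
      obtain ⟨q, _, rfl⟩ := h1
      obtain ⟨q', _, h3⟩ := h2
      exact hxy (Prod.mk.inj h3).1.symm
  have h2 : ∑ x ∈ J, (Q.bipartiteAbove (fun x q => q ∈ nbP x) x).card =
      ∑ q ∈ Q, (J.bipartiteBelow (fun x q => q ∈ nbP x) q).card :=
    sum_card_bipartiteAbove_eq_sum_card_bipartiteBelow _
  have h3 : ∀ q ∈ Q, (J.bipartiteBelow (fun x q => q ∈ nbP x) q).card = 4 := by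
    intro q hq
    have : J.bipartiteBelow (fun x q => q ∈ nbP x) q = nbA q := by
      ext x
      simp only [bipartiteBelow, mem_filter, mem_nbP]
      exact ⟨fun h' => h'.2, fun h' => ⟨h.QJ q hq h', h'⟩⟩
    rw [this, Geo_card_nbA]
  have h4 : ∀ x ∈ J, (Q.bipartiteAbove (fun x q => q ∈ nbP x) x).card + (nbP x \ Q).card = 4 := by
    intro x _
    have : Q.bipartiteAbove (fun x q => q ∈ nbP x) x = nbP x ∩ Q := by
      ext q
      simp only [bipartiteAbove, mem_filter, mem_inter]
      tauto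
    rw [this, ← Geo_card_nbP x]
    exact card_inter_add_card_sdiff _ _
  have h5 : ∑ x ∈ J, 4 = ∑ x ∈ J, ((Q.bipartiteAbove (fun x q => q ∈ nbP x) x).card +
      (nbP x \ Q).card) := sum_congr rfl fun x hx => (h4 x hx).symm
  rw [sum_add_distrib, h2, sum_congr rfl h3, ← h1, sum_const, sum_const] at h5
  simp only [smul_eq_mul] at h5
  omega

theorem Geo_notQ (h : Region a b K J Q) {x q : Site} (hx : x ∉ J) (hq : q ∈ nbP x) : q ∉ Q :=
  fun hqQ => hx (h.QJ q hqQ (mem_nbP.1 hq))

/-- the last element of an interval of integers in a bounded set -/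
theorem Geo_last (p : ℤ → Prop) (i b : ℤ) (hi : p i) (hb : ∀ j, p j → j < b) :
    ∃ j, p j ∧ ¬ p (j + 1) := by
  by_contra hcon
  push Not at hcon
  have h1 : ∀ n : ℕ, p (i + n) := by
    intro n
    induction n with
    | zero => simpa using hi
    | succ n ih =>
      have := hcon _ ih
      push_cast
      rwa [← add_assoc]
  have h2 := hb _ (h1 (b - i).toNat)
  have h3 := hb i hi
  omega

theorem Geo_first (p : ℤ → Prop) (i a : ℤ) (hi : p i) (ha : ∀ j, p j → a ≤ j) :
    ∃ j, j ≤ i ∧ p j ∧ ∀ k, p k → j ≤ k := by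
  classical
  obtain ⟨j, hj1, hj2⟩ := Int.exists_least_of_bdd (P := p) ⟨a, ha⟩ ⟨i, hi⟩
  exact ⟨j, hj2 i hi, hj1, hj2⟩

theorem Geo_greatest (p : ℤ → Prop) (i b : ℤ) (hi : p i) (hb : ∀ j, p j → j < b) :
    ∃ j, i ≤ j ∧ p j ∧ ∀ k, p k → k ≤ j := by
  classical
  obtain ⟨j, hj1, hj2⟩ := Int.exists_greatest_of_bdd (P := p) ⟨b, fun z hz => (hb z hz).le⟩ ⟨i, hi⟩
  exact ⟨j, hj2 i hi, hj1, hj2⟩

/-- every column meeting `J` contributes four interface pairs -/
theorem Geo_col (h : Region a b K J Q) {x : Site} (hx : x ∈ J) :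
    4 ≤ ((Gam J Q).filter fun γ => γ.1.1 = x.1).card := by
  have hbd : ∀ j, (x.1, j) ∈ J → a ≤ j ∧ j < b := fun j hj => (mem_box.1 (h.Jbox hj)).2
  obtain ⟨t, ht0, ht1, ht2⟩ := Geo_greatest (fun j => (x.1, j) ∈ J) x.2 b hx fun j hj => (hbd j hj).2
  obtain ⟨s, hs0, hs1, hs2⟩ := Geo_first (fun j => (x.1, j) ∈ J) x.2 a hx fun j hj => (hbd j hj).1
  have h1 : (x.1, t + 1) ∉ J := fun h' => by have := ht2 _ h'; omega
  have h2 : (x.1, s - 1) ∉ J := fun h' => by have := hs2 _ h'; omega
  have hsub : ({((x.1, t), (x.1, t)), ((x.1, t), (x.1 - 1, t)), ((x.1, s), (x.1, s - 1)),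
      ((x.1, s), (x.1 - 1, s - 1))} : Finset (Site × Site)) ⊆
      (Gam J Q).filter fun γ => γ.1.1 = x.1 := by
    intro γ hγ
    simp only [mem_insert, mem_singleton] at hγ
    rw [mem_filter]
    rcases hγ with rfl | rfl | rfl | rfl
    · exact ⟨mem_gam'.2 ⟨ht1, mem_nbP_iff.2 (by simp),
        Geo_notQ h h1 (mem_nbP_iff.2 (by simp))⟩, rfl⟩
    · exact ⟨mem_gam'.2 ⟨ht1, mem_nbP_iff.2 (by simp),
        Geo_notQ h h1 (mem_nbP_iff.2 (by simp))⟩, rfl⟩
    · exact ⟨mem_gam'.2 ⟨hs1, mem_nbP_iff.2 (by simp),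
        Geo_notQ h h2 (mem_nbP_iff.2 (by simp))⟩, rfl⟩
    · exact ⟨mem_gam'.2 ⟨hs1, mem_nbP_iff.2 (by simp),
        Geo_notQ h h2 (mem_nbP_iff.2 (by simp))⟩, rfl⟩
  refine le_trans ?_ (card_le_card hsub)
  rw [card_insert_of_notMem, card_insert_of_notMem, card_insert_of_notMem, card_singleton]
  · simp only [mem_singleton, Prod.mk.injEq]; omega
  · simp only [mem_insert, mem_singleton, Prod.mk.injEq]; omega
  · simp only [mem_insert, mem_singleton, Prod.mk.injEq]; omega

/-- every row meeting `J` contributes four interface pairs -/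
theorem Geo_row (h : Region a b K J Q) {x : Site} (hx : x ∈ J) :
    4 ≤ ((Gam J Q).filter fun γ => γ.1.2 = x.2).card := by
  have hbd : ∀ j, (j, x.2) ∈ J → a ≤ j ∧ j < b := fun j hj => (mem_box.1 (h.Jbox hj)).1
  obtain ⟨t, ht0, ht1, ht2⟩ := Geo_greatest (fun j => (j, x.2) ∈ J) x.1 b hx fun j hj => (hbd j hj).2
  obtain ⟨s, hs0, hs1, hs2⟩ := Geo_first (fun j => (j, x.2) ∈ J) x.1 a hx fun j hj => (hbd j hj).1
  have h1 : (t + 1, x.2) ∉ J := fun h' => by have := ht2 _ h'; omega
  have h2 : (s - 1, x.2) ∉ J := fun h' => by have := hs2 _ h'; omega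
  have hsub : ({((t, x.2), (t, x.2)), ((t, x.2), (t, x.2 - 1)), ((s, x.2), (s - 1, x.2)),
      ((s, x.2), (s - 1, x.2 - 1))} : Finset (Site × Site)) ⊆
      (Gam J Q).filter fun γ => γ.1.2 = x.2 := by
    intro γ hγ
    simp only [mem_insert, mem_singleton] at hγ
    rw [mem_filter]
    rcases hγ with rfl | rfl | rfl | rfl
    · exact ⟨mem_gam'.2 ⟨ht1, mem_nbP_iff.2 (by simp),
        Geo_notQ h h1 (mem_nbP_iff.2 (by simp))⟩, rfl⟩
    · exact ⟨mem_gam'.2 ⟨ht1, mem_nbP_iff.2 (by simp),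
        Geo_notQ h h1 (mem_nbP_iff.2 (by simp))⟩, rfl⟩
    · exact ⟨mem_gam'.2 ⟨hs1, mem_nbP_iff.2 (by simp),
        Geo_notQ h h2 (mem_nbP_iff.2 (by simp))⟩, rfl⟩
    · exact ⟨mem_gam'.2 ⟨hs1, mem_nbP_iff.2 (by simp),
        Geo_notQ h h2 (mem_nbP_iff.2 (by simp))⟩, rfl⟩
  refine le_trans ?_ (card_le_card hsub)
  rw [card_insert_of_notMem, card_insert_of_notMem, card_insert_of_notMem, card_singleton]
  · simp only [mem_singleton, Prod.mk.injEq]; omega
  · simp only [mem_insert, mem_singleton, Prod.mk.injEq]; omega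
  · simp only [mem_insert, mem_singleton, Prod.mk.injEq]; omega

/-- two adjacent sites -/
theorem eight_le (h : Region a b K J Q) {e : Ed} (h1 : src e ∈ J) (h2 : tgt e ∈ J) :
    8 ≤ (Gam J Q).card := by
  rcases e with ⟨⟨i, j⟩, c⟩
  cases c
  · simp only [src, tgt, dir, cond_false, Prod.mk_add_mk] at h1 h2
    have c1 : 4 ≤ ((Gam J Q).filter fun γ => γ.1.1 = i).card := Geo_col h h1
    have c2 : 4 ≤ ((Gam J Q).filter fun γ => γ.1.1 = i + 1).card := Geo_col h h2
    have hd : Disjoint ((Gam J Q).filter fun γ => γ.1.1 = i)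
        ((Gam J Q).filter fun γ => γ.1.1 = i + 1) := by
      rw [Finset.disjoint_left]
      intro γ h3 h4
      have h5 := (mem_filter.1 h3).2
      have h6 := (mem_filter.1 h4).2
      omega
    have := card_le_card (union_subset (filter_subset (fun γ : Site × Site => γ.1.1 = i) (Gam J Q))
      (filter_subset (fun γ : Site × Site => γ.1.1 = i + 1) (Gam J Q)))
    rw [card_union_of_disjoint hd] at this
    omega
  · simp only [src, tgt, dir, cond_true, Prod.mk_add_mk] at h1 h2
    have c1 : 4 ≤ ((Gam J Q).filter fun γ => γ.1.2 = j).card := Geo_row h h1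
    have c2 : 4 ≤ ((Gam J Q).filter fun γ => γ.1.2 = j + 1).card := Geo_row h h2
    have hd : Disjoint ((Gam J Q).filter fun γ => γ.1.2 = j)
        ((Gam J Q).filter fun γ => γ.1.2 = j + 1) := by
      rw [Finset.disjoint_left]
      intro γ h3 h4
      have h5 := (mem_filter.1 h3).2
      have h6 := (mem_filter.1 h4).2
      omega
    have := card_le_card (union_subset (filter_subset (fun γ : Site × Site => γ.1.2 = j) (Gam J Q))
      (filter_subset (fun γ : Site × Site => γ.1.2 = j + 1) (Gam J Q)))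
    rw [card_union_of_disjoint hd] at this
    omega

/-- go to the right from `x₀` to the last site of the segment in `J`; every column contributes -/
theorem exists_root (h : Region a b K J Q) {x₀ : Site} (h0 : x₀ ∈ J) :
    ∃ t : ℕ, t < (Gam J Q).card ∧ ((x₀.1 + t, x₀.2), (x₀.1 + t, x₀.2)) ∈ Gam J Q := by
  classical
  have hex : ∃ t : ℕ, (x₀.1 + (t + 1 : ℕ), x₀.2) ∉ J := by
    refine ⟨(b - x₀.1).toNat, fun h' => ?_⟩
    have h1 := mem_box.1 (h.Jbox h')
    simp only at h1
    push_cast at h1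
    omega
  set t := Nat.find hex with ht
  have ht1 := Nat.find_spec hex
  have hall : ∀ s : ℕ, s ≤ t → (x₀.1 + s, x₀.2) ∈ J := by
    intro s hs
    rcases Nat.eq_zero_or_pos s with rfl | hs0
    · simpa using h0
    · obtain ⟨r, rfl⟩ : ∃ r, s = r + 1 := ⟨s - 1, by omega⟩
      have := Nat.find_min hex (m := r) (by omega)
      rwa [not_not] at this
  refine ⟨t, ?_, ?_⟩
  · have hsub : (range (t + 1)).image (fun s : ℕ => x₀.1 + (s : ℤ)) ⊆
        (Gam J Q).image fun γ => γ.1.1 := by
      intro c hc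
      obtain ⟨s, hs, rfl⟩ := mem_image.1 hc
      have h4 := Geo_col h (hall s (by have := mem_range.1 hs; omega))
      have h5 : 0 < ((Gam J Q).filter fun γ => γ.1.1 = x₀.1 + (s : ℤ)).card := by
        simp only at h4
        omega
      obtain ⟨γ, hγ⟩ := card_pos.1 h5
      exact mem_image.2 ⟨γ, (mem_filter.1 hγ).1, (mem_filter.1 hγ).2⟩
    have h6 := card_le_card hsub
    rw [card_image_of_injective _ (fun s s' hss => by simpa using hss), card_range] at h6
    have h7 := card_image_le (s := Gam J Q) (f := fun γ : Site × Site => γ.1.1)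
    omega
  · rw [mem_gam']
    refine ⟨hall t le_rfl, mem_nbP_iff.2 (by simp), Geo_notQ h ht1 (mem_nbP_iff.2 ?_)⟩
    push_cast
    constructor
    · right; ring
    · left; rfl

/-- stubs attached to `J` inject to interface pairs (turn clockwise) -/
theorem card_stubs_le (h : Region a b K J Q) {T : Finset Ed} (hT : T ⊆ stubs a b)
    (hTJ : ∀ e ∈ T, src e ∈ J ∨ tgt e ∈ J) : T.card ≤ (Gam J Q).card := by
  classical
  set m : Ed → Site × Site := fun e => if src e ∈ box a b then (src e, bif e.2 then pl e else pu e)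
    else (tgt e, bif e.2 then pu e else pl e) with hm
  apply card_le_card_of_injOn m
  · intro e he
    have h1 := hTJ e he
    have h2 : (src e ∈ box a b ∧ tgt e ∉ box a b) ∨ (src e ∉ box a b ∧ tgt e ∈ box a b) := by
      have := hT he
      simp only [stubs, mem_filter] at this
      exact this.2
    simp only [hm]
    rw [mem_coe]
    split_ifs with h3
    · have h4 : tgt e ∉ J := by
        intro h5
        have := h.Jbox h5
        tauto
      have h5 : src e ∈ J := by tauto
      rcases e with ⟨⟨i, j⟩, c⟩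
      cases c
      · simp only [src, tgt, pu, dir, cond_false, Prod.mk_add_mk] at h4 h5 ⊢
        exact mem_gam'.2 ⟨h5, mem_nbP_iff.2 (by simp), Geo_notQ h h4 (mem_nbP_iff.2 (by simp))⟩
      · simp only [src, tgt, pl, dir, cond_true, Prod.mk_add_mk, Bool.not_true, cond_false,
          Prod.mk_sub_mk] at h4 h5 ⊢
        exact mem_gam'.2 ⟨h5, mem_nbP_iff.2 (by simp), Geo_notQ h h4 (mem_nbP_iff.2 (by simp))⟩
    · have h4 : src e ∉ J := by
        intro h5
        exact h3 (h.Jbox h5)
      have h5 : tgt e ∈ J := by tauto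
      rcases e with ⟨⟨i, j⟩, c⟩
      cases c
      · simp only [src, tgt, pl, dir, cond_true, cond_false, Prod.mk_add_mk, Bool.not_false,
          Prod.mk_sub_mk] at h4 h5 ⊢
        exact mem_gam'.2 ⟨h5, mem_nbP_iff.2 (by simp), Geo_notQ h h4 (mem_nbP_iff.2 (by simp))⟩
      · simp only [src, tgt, pu, dir, cond_true, Prod.mk_add_mk] at h4 h5 ⊢
        exact mem_gam'.2 ⟨h5, mem_nbP_iff.2 (by simp), Geo_notQ h h4 (mem_nbP_iff.2 (by simp))⟩
  · rintro ⟨⟨i, j⟩, c⟩ _ ⟨⟨k, l⟩, c'⟩ _ hee
    simp only [hm] at hee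
    cases c <;> cases c' <;> split_ifs at hee <;>
      simp only [src, tgt, pu, pl, dir, cond_true, cond_false, Prod.mk_add_mk, Bool.not_true,
        Bool.not_false, Prod.mk_sub_mk, Prod.mk.injEq, reduceCtorEq, and_false, and_true] at hee ⊢ <;>
      omega

end P0de
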