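import Pool.Agent.Lib.P0de4a2.Defs

set_option autoImplicit false

open Finset

namespace P0de

theorem H1_two : (2 : ZMod 2) = 0 := rfl

theorem H1_anti (φ : ℤ → ZMod 2) : ∃ F : ℤ → ZMod 2, F 0 = 0 ∧ ∀ n, φ n = F n + F (n + 1) := by
  refine ⟨fun n => ∑ k ∈ Ico 0 n, φ k + ∑ k ∈ Ico n 0, φ k, by simp, ?_⟩
  intro n
  dsimp only
  rcases lt_or_ge n 0 with hn | hn
  · have e1 : Ico 0 n = ∅ := Finset.Ico_eq_empty (by omega)
    have e2 : Ico 0 (n + 1) = ∅ := Finset.Ico_eq_empty (by omega)
    have e3 : Ico n 0 = insert n (Ico (n + 1) 0) := by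
      ext k; simp only [mem_Ico, mem_insert]; omega
    have e4 : n ∉ Ico (n + 1) 0 := by simp
    rw [e1, e2, e3, sum_insert e4, sum_empty]
    linear_combination (-(∑ k ∈ Ico (n + 1) 0, φ k)) * H1_two
  · have e1 : Ico n 0 = ∅ := Finset.Ico_eq_empty (by omega)
    have e2 : Ico (n + 1) 0 = ∅ := Finset.Ico_eq_empty (by omega)
    have e3 : Ico 0 (n + 1) = insert n (Ico 0 n) := by
      ext k; simp only [mem_Ico, mem_insert]; omega
    have e4 : n ∉ Ico 0 n := by simp
    rw [e1, e2, e3, sum_insert e4, sum_empty]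
    linear_combination (-(∑ k ∈ Ico 0 n, φ k)) * H1_two

/-- closed `𝔽₂`-valued functions on the edges of `ℤ²` are gradients. -/
theorem exists_pot (f : Ed → ZMod 2)
    (hf : ∀ x : Site, f (x, false) + f (x + (1, 0), true) + f (x + (0, 1), false) + f (x, true) = 0) :
    ∃ g : Site → ZMod 2, ∀ e, f e = g (src e) + g (tgt e) := by
  obtain ⟨F, hF0, hF⟩ := H1_anti fun i => f ((i, 0), false)
  choose G hG0 hG using fun i : ℤ => H1_anti fun j => f ((i, j), true)
  have hf' : ∀ i j : ℤ, f ((i, j), false) + f ((i + 1, j), true) + f ((i, j + 1), false) +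
      f ((i, j), true) = 0 := by
    intro i j
    have := hf (i, j)
    simpa using this
  refine ⟨fun x => F x.1 + G x.1 x.2, ?_⟩
  have hor : ∀ i j : ℤ, f ((i, j), false) = (F i + G i j) + (F (i + 1) + G (i + 1) j) := by
    intro i j
    induction j using Int.induction_on with
    | zero => rw [hG0, hG0, add_zero, add_zero]; exact hF i
    | succ j ih =>
      have h1 := hf' i j
      have h2 := hG i j
      have h3 := hG (i + 1) j
      linear_combination h1 - ih - h2 - h3 - (F i + G i j + F (i + 1) + G (i + 1) j +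
        G i (j + 1) + G (i + 1) (j + 1)) * H1_two
    | pred j ih =>
      have h1 := hf' i (-(j : ℤ) - 1)
      have h2 := hG i (-(j : ℤ) - 1)
      have h3 := hG (i + 1) (-(j : ℤ) - 1)
      simp only [sub_add_cancel] at h1 h2 h3
      linear_combination h1 - ih - h2 - h3 - (F i + G i (-(j : ℤ)) + F (i + 1) +
        G (i + 1) (-(j : ℤ)) + G i (-(j : ℤ) - 1) + G (i + 1) (-(j : ℤ) - 1)) * H1_two
  rintro ⟨⟨i, j⟩, c⟩
  cases c
  · simpa [src, tgt, dir] using hor i j
  · have := hG i j
    simp only [src, tgt, dir, cond_true, Prod.mk_add_mk, add_zero]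
    linear_combination this - F i * H1_two

theorem H1_const {α : Type*} (φ : ℤ → α) (h : ∀ n, φ n = φ (n + 1)) : ∀ m n, φ m = φ n := by
  have h0 : ∀ n, φ n = φ 0 := by
    intro n
    induction n using Int.induction_on with
    | zero => rfl
    | succ j ih => rw [← h, ih]
    | pred j ih =>
      rw [← ih, h (-(j : ℤ) - 1)]
      congr 1
      ring
  intro m n
  rw [h0 m, h0 n]

/-- version for the lattice formed by the active and passive sites. -/
theorem exists_pot_L (f : Site → Site → ZMod 2)
    (hf : ∀ e : Ed, f (src e) (pu e) + f (tgt e) (pu e) + f (src e) (pl e) + f (tgt e) (pl e) = 0) :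
    ∃ gA gP : Site → ZMod 2, ∀ x, ∀ q ∈ nbP x, f x q = gA x + gP q := by
  have hp : ∀ e : Ed, f (src e) (pu e) + f (tgt e) (pu e) =
      f (src e) (pl e) + f (tgt e) (pl e) := by
    intro e
    have := hf e
    linear_combination this - (f (src e) (pl e) + f (tgt e) (pl e)) * H1_two
  obtain ⟨gA, hg⟩ := exists_pot (fun e => f (src e) (pu e) + f (tgt e) (pu e)) (by
    rintro ⟨i, j⟩
    have h1 := hp ((i + 1, j), true)
    have h2 := hp ((i, j + 1), false)
    simp only [src, tgt, pu, pl, dir, cond_true, cond_false, Prod.mk_add_mk, Prod.mk_sub_mk,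
      add_zero, sub_zero, add_sub_cancel_right, Bool.not_true, Bool.not_false] at h1 h2 ⊢
    rw [h1, h2]
    linear_combination (f (i, j) (i, j) + f (i + 1, j) (i, j) + f (i + 1, j + 1) (i, j) +
      f (i, j + 1) (i, j)) * H1_two)
  refine ⟨gA, fun q => gA q + f q q, ?_⟩
  rintro ⟨i, j⟩ q hq
  simp only [nbP, mem_insert, mem_singleton, Prod.mk_sub_mk, sub_zero] at hq
  rcases hq with rfl | rfl | rfl | rfl
  · linear_combination (-(gA (i, j))) * H1_two
  · have h1 := hg ((i - 1, j), false)
    simp only [src, tgt, pu, dir, cond_false, Prod.mk_add_mk, add_zero, sub_add_cancel] at h1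
    linear_combination h1 - f (i - 1, j) (i - 1, j) * H1_two
  · have h1 := hg ((i, j - 1), true)
    simp only [src, tgt, pu, dir, cond_true, Prod.mk_add_mk, add_zero, sub_add_cancel] at h1
    linear_combination h1 - f (i, j - 1) (i, j - 1) * H1_two
  · have h1 := hg ((i, j - 1), true)
    have h2 := hg ((i - 1, j - 1), false)
    have h3 := hp ((i, j - 1), true)
    simp only [src, tgt, pu, pl, dir, cond_true, cond_false, Prod.mk_add_mk, Prod.mk_sub_mk,
      add_zero, sub_zero, sub_add_cancel, Bool.not_true] at h1 h2 h3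
    rw [h3] at h1
    linear_combination h1 + h2 - (f (i - 1, j - 1) (i - 1, j - 1) + f (i, j - 1) (i - 1, j - 1)
      - gA (i, j - 1)) * H1_two

/-- the complement of a square is connected -/
theorem const_outside {a b : ℤ} {α : Type*} (g : Site → α)
    (h : ∀ e : Ed, src e ∉ box a b → tgt e ∉ box a b → g (src e) = g (tgt e)) :
    ∀ x y, x ∉ box a b → y ∉ box a b → g x = g y := by
  have hv : ∀ i : ℤ, ¬ (a ≤ i ∧ i < b) → ∀ j j', g (i, j) = g (i, j') := by
    intro i hi
    apply H1_const
    intro n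
    have := h ((i, n), true) (by simp only [src, box, mem_product, mem_Ico]; tauto)
      (by simp only [tgt, dir, cond_true, Prod.mk_add_mk, add_zero, box, mem_product, mem_Ico]; tauto)
    simpa [src, tgt, dir] using this
  have hh : ∀ j : ℤ, ¬ (a ≤ j ∧ j < b) → ∀ i i', g (i, j) = g (i', j) := by
    intro j hj
    apply H1_const
    intro n
    have := h ((n, j), false) (by simp only [src, box, mem_product, mem_Ico]; tauto)
      (by simp only [tgt, dir, cond_false, Prod.mk_add_mk, add_zero, box, mem_product, mem_Ico]; tauto)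
    simpa [src, tgt, dir] using this
  have key : ∀ x : Site, x ∉ box a b → g x = g (a - 1, a - 1) := by
    rintro ⟨i, j⟩ hx
    by_cases hi : a ≤ i ∧ i < b
    · have hj : ¬ (a ≤ j ∧ j < b) := by
        intro hj
        apply hx
        simp only [box, mem_product, mem_Ico]
        exact ⟨hi, hj⟩
      rw [hh j hj i (a - 1), hv (a - 1) (by omega) j (a - 1)]
    · rw [hv i hi j (a - 1), hh (a - 1) (by omega) i (a - 1)]
  intro x y hx hy
  rw [key x hx, key y hy]

/-- `ℤ²` is connected -/
theorem const_all {α : Type*} (g : Site → α) (h : ∀ e : Ed, g (src e) = g (tgt e)) :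
    ∀ x y, g x = g y := by
  have hb : box 0 0 = ∅ := by simp [box]
  intro x y
  exact const_outside (a := 0) (b := 0) g (fun e _ _ => h e) x y (by simp [hb]) (by simp [hb])

end P0de
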