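import Pool.Agent.Lib.P0de4a2.Peierls
import Pool.Agent.Lib.P0de4a2.Dual

set_option autoImplicit false

open Finset MeasureTheory Filter Topology

namespace P0de

open Classical in
/-- probability of an event under the random-cluster measure `RC^{qb}_{q,p}` on `[a, b]²` -/
noncomputable def rcP (q qb p : ℝ) (a b : ℤ) (A : Finset Ed → Prop) : ℝ :=
  (∑ η ∈ (inner a (b + 1)).powerset with A η, rcW q qb p a b η) /
    ∑ η ∈ (inner a (b + 1)).powerset, rcW q qb p a b η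

theorem rcP_mem (q qb p : ℝ) (a b : ℤ) (e : Ed) : rcP q qb p a b (fun η => e ∈ η) =
    (∑ η ∈ (inner a (b + 1)).powerset with e ∈ η, rcW q qb p a b η) /
    ∑ η ∈ (inner a (b + 1)).powerset, rcW q qb p a b η := by
  unfold rcP
  congr!

theorem pc_mem {q : ℝ} (hq : 0 < q) : 0 < pc q ∧ pc q < 1 := by
  have h : 0 < √q := Real.sqrt_pos.2 hq
  unfold pc
  constructor
  · positivity
  · rw [div_lt_one (by positivity)]
    linarith

theorem rcW_pos {q qb : ℝ} (hq : 0 < q) (hqb : 0 < qb) (a b : ℤ) (η : Finset Ed) :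
    0 < rcW q qb (pc q) a b η := by
  obtain ⟨h1, h2⟩ := pc_mem hq
  have h3 : 0 < 1 - pc q := by linarith
  unfold rcW
  positivity

theorem Z_pos {q qb : ℝ} (hq : 0 < q) (hqb : 0 < qb) (a b : ℤ) :
    0 < ∑ η ∈ (inner a (b + 1)).powerset, rcW q qb (pc q) a b η :=
  sum_pos (fun η _ => rcW_pos hq hqb a b η) (powerset_nonempty _)

theorem exists_u {u₀ q : ℝ} (hu₀ : 1 ≤ u₀) (hq : u₀ ^ 16 ≤ q) :
    ∃ u : ℝ, u₀ ≤ u ∧ q = u ^ 16 ∧ q ^ (9 / 16 : ℝ) = u ^ 9 := by
  have hq0 : 0 < q := lt_of_lt_of_le (by positivity) hq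
  refine ⟨q ^ (1 / 16 : ℝ), ?_, ?_, ?_⟩
  · have h1 : u₀ = (u₀ ^ 16) ^ (1 / 16 : ℝ) := by
      rw [← Real.rpow_natCast, ← Real.rpow_mul (by linarith)]
      norm_num
    rw [h1]
    exact Real.rpow_le_rpow (by positivity) hq (by norm_num)
  · rw [← Real.rpow_natCast, ← Real.rpow_mul hq0.le]
    norm_num
  · rw [← Real.rpow_natCast, ← Real.rpow_mul hq0.le]
    norm_num

/-- In the measure with boundary-cluster weight `qb ≤ q^(9/16)` interior edges are open with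
probability at least `3/4`. -/
theorem main_wired : ∃ q₀ : ℝ, 4 < q₀ ∧ ∀ q ≥ q₀, ∀ qb : ℝ, 0 < qb → qb ≤ q ^ (9 / 16 : ℝ) →
    ∀ n : ℕ, 1 ≤ n → ∀ e ∈ inner (-(n : ℤ)) (n + 1),
    (src e ∉ bdry (-n) n ∨ tgt e ∉ bdry (-n) n) →
    3 / 4 ≤ rcP q qb (pc q) (-n) n (fun η => e ∈ η) := by
  obtain ⟨u₀, hu₀, hmain⟩ := peierls
  refine ⟨(max u₀ 2) ^ 16, ?_, ?_⟩
  · calc (4 : ℝ) < 2 ^ 16 := by norm_num
      _ ≤ (max u₀ 2) ^ 16 := pow_le_pow_left₀ (by norm_num) (le_max_right _ _) _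
  intro q hq qb hqb hqb9 n hn e he hint
  obtain ⟨u, hu, hqu, hq9⟩ := exists_u (le_trans hu₀ (le_max_left _ _)) hq
  have huu : u₀ ≤ u := (le_max_left _ _).trans hu
  have hu1 : 1 ≤ u := hu₀.trans huu
  have hu0 : 0 < u := by linarith
  rw [hq9] at hqb9
  have hw : u ^ 7 ≤ u ^ 16 / qb := by
    rw [le_div_iff₀ hqb]
    calc u ^ 7 * qb ≤ u ^ 7 * u ^ 9 := mul_le_mul_of_nonneg_left hqb9 (by positivity)
      _ = u ^ 16 := by ring
  set a : ℤ := -(n : ℤ) with ha
  set b : ℤ := (n : ℤ) with hb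
  have hab : a < b := by omega
  -- the dual edge
  set e' : Ed := (pl e, !e.2) with he'
  have hcr : cr e' = e := cr_pe e
  have hin : e' ∈ inner a b := by
    rw [mem_inner] at he ⊢
    rcases e with ⟨⟨i, j⟩, c⟩
    have hb' : ∀ x : Site, x ∈ box a (b + 1) → x ∉ bdry a b → x ∈ box (a + 1) b := by
      intro x hx hxb
      by_contra hcon
      exact hxb (mem_sdiff.2 ⟨hx, hcon⟩)
    have h1 := hint.imp (fun h => hb' _ he.1 h) (fun h => hb' _ he.2 h)
    cases c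
    · simp only [he', src, tgt, pl, dir, cond_true, cond_false, Bool.not_false, Prod.mk_add_mk,
        Prod.mk_sub_mk, box, mem_product, mem_Ico, add_zero, sub_zero, sub_add_cancel] at he h1 ⊢
      omega
    · simp only [he', src, tgt, pl, dir, cond_true, cond_false, Bool.not_true, Prod.mk_add_mk,
        Prod.mk_sub_mk, box, mem_product, mem_Ico, add_zero, sub_zero, sub_add_cancel] at he h1 ⊢
      omega
  obtain ⟨C, hC, hdual⟩ := rcW_dual hu1 hqb hab
  have hp := hmain u huu (u ^ 16 / qb) hw a b (stubs a b) (Finset.Subset.refl _) e' hin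
  have hbij := dual_bij hab
  set E := (inner a (b + 1)).powerset with hE
  have hsum : ∀ (A : Finset Ed → Prop) [DecidablePred A],
      ∑ η ∈ E with A (dual a b η), rcW q qb (pc q) a b η =
      C * ∑ ω ∈ (inner a b ∪ stubs a b).powerset with A ω, gw u (u ^ 16 / qb) a b (stubs a b) ω := by
    intro A _
    rw [mul_sum]
    refine sum_bij (fun η _ => dual a b η) ?_ ?_ ?_ ?_
    · intro η hη
      rw [mem_filter] at hη ⊢
      exact ⟨hbij.mapsTo hη.1, hη.2⟩
    · intro η hη η' hη' h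
      exact hbij.injOn (mem_filter.1 hη).1 (mem_filter.1 hη').1 h
    · intro ω hω
      obtain ⟨η, hη, rfl⟩ := hbij.surjOn (mem_filter.1 hω).1
      exact ⟨η, mem_filter.2 ⟨hη, (mem_filter.1 hω).2⟩, rfl⟩
    · intro η hη
      rw [hqu]
      exact hdual η (mem_powerset.1 (mem_filter.1 hη).1)
  have hall := hsum (fun _ => True)
  simp only [filter_true] at hall
  have hiff : ∀ η : Finset Ed, e' ∈ dual a b η ↔ ¬ e ∈ η := by
    intro η
    rw [mem_dual hin, hcr]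
  have hev : ∑ η ∈ E with ¬ e ∈ η, rcW q qb (pc q) a b η = C *
      ∑ ω ∈ (inner a b ∪ stubs a b).powerset with e' ∈ ω, gw u (u ^ 16 / qb) a b (stubs a b) ω := by
    rw [← hsum (fun ω => e' ∈ ω)]
    refine sum_congr ?_ fun _ _ => rfl
    apply filter_congr
    intro η _
    exact (hiff η).symm
  have hq0 : 0 < q := by rw [hqu]; positivity
  have hZ := Z_pos hq0 hqb a b
  have hsplit := sum_filter_add_sum_filter_not E (fun η => e ∈ η) (rcW q qb (pc q) a b)
  rw [rcP_mem, le_div_iff₀ hZ]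
  rw [← hE] at hZ ⊢
  have h4 : 4 * ∑ η ∈ E with ¬ e ∈ η, rcW q qb (pc q) a b η ≤ ∑ η ∈ E, rcW q qb (pc q) a b η := by
    rw [hev, hall]
    have := mul_le_mul_of_nonneg_left hp hC.le
    linarith
  linarith

/-- In the free measure edges are open with probability at most `1/4`. -/
theorem main_free : ∃ q₀ : ℝ, ∀ q ≥ q₀, ∀ n : ℕ, 1 ≤ n → ∀ e ∈ inner (-(n : ℤ)) (n + 1),
    rcP q q (pc q) (-n) n (fun η => e ∈ η) ≤ 1 / 4 := by
  obtain ⟨u₀, hu₀, hmain⟩ := peierls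
  refine ⟨u₀ ^ 16, ?_⟩
  intro q hq n hn e he
  obtain ⟨u, hu, hqu, -⟩ := exists_u hu₀ hq
  have hu1 : 1 ≤ u := hu₀.trans hu
  have hu0 : 0 < u := by linarith
  set a : ℤ := -(n : ℤ) with ha
  set b : ℤ := (n : ℤ) with hb
  have hab : a < b := by omega
  obtain ⟨C, hC, hfree⟩ := rcW_free hu1 hab (u ^ 7)
  have hp := hmain u hu (u ^ 7) le_rfl a (b + 1) ∅ (Finset.empty_subset _) e he
  rw [union_empty] at hp
  have hq0 : 0 < q := by rw [hqu]; positivity
  have hZ := Z_pos hq0 hq0 a b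
  rw [rcP_mem, div_le_iff₀ hZ]
  have h1 : ∑ η ∈ (inner a (b + 1)).powerset, rcW q q (pc q) a b η =
      C * ∑ η ∈ (inner a (b + 1)).powerset, gw u (u ^ 7) a (b + 1) ∅ η := by
    rw [mul_sum, hqu]
    exact sum_congr rfl fun η hη => hfree η (mem_powerset.1 hη)
  have h2 : ∑ η ∈ (inner a (b + 1)).powerset with e ∈ η, rcW q q (pc q) a b η =
      C * ∑ η ∈ (inner a (b + 1)).powerset with e ∈ η, gw u (u ^ 7) a (b + 1) ∅ η := by
    rw [mul_sum, hqu]
    exact sum_congr rfl fun η hη => hfree η (mem_powerset.1 (mem_filter.1 hη).1)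
  rw [h1, h2]
  have := mul_le_mul_of_nonneg_left hp hC.le
  linarith

end P0de
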