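import Pool.Agent.Lib.P0de4a2.Region

set_option autoImplicit false

open Finset

namespace P0de

theorem Timar_pu_src (e : Ed) : pu e ∈ nbP (src e) := by
  simp [pu, nbP, src]

theorem Timar_pl_src (e : Ed) : pl e ∈ nbP (src e) := by
  rcases e with ⟨x, c⟩
  cases c <;> simp [pl, nbP, src, dir]

theorem Timar_pu_tgt (e : Ed) : pu e ∈ nbP (tgt e) := by
  rcases e with ⟨x, c⟩
  cases c <;> simp [pu, nbP, tgt, dir]

theorem Timar_pl_tgt (e : Ed) : pl e ∈ nbP (tgt e) := by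
  rcases e with ⟨⟨i, j⟩, c⟩
  cases c <;> simp [pl, nbP, tgt, dir]

/-- The interface is connected through tiles. -/
theorem timar {a b : ℤ} {K J Q : Finset Site} (h : Region a b K J Q)
    (hK : ∀ x ∈ K, ∀ y ∈ K, Conn (edIn K) x y) {A : Finset (Site × Site)} (hA : A ⊆ Gam J Q)
    (hne : A.Nonempty) (hcl : ∀ γ ∈ A, ∀ γ' ∈ Gam J Q, SameTile γ γ' → γ' ∈ A) :
    A = Gam J Q := by
  classical
  set f : Site → Site → ZMod 2 := fun x q => if (x, q) ∈ A then 1 else 0 with hf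
  have hnA : ∀ x q, (x, q) ∉ Gam J Q → f x q = 0 := fun x q hx => if_neg fun h' => hx (hA h')
  -- the sides of a tile
  have hside : ∀ e : Ed, ∀ x q x' q', (x = src e ∨ x = tgt e) → (q = pu e ∨ q = pl e) →
      (x' = src e ∨ x' = tgt e) → (q' = pu e ∨ q' = pl e) → (x, q) ∈ Gam J Q →
      (x', q') ∈ Gam J Q → f x q = f x' q' := by
    intro e x q x' q' h1 h2 h3 h4 h5 h6
    have : (x, q) ∈ A ↔ (x', q') ∈ A :=
      ⟨fun h7 => hcl _ h7 _ h6 ⟨e, h1, h2, h3, h4⟩, fun h7 => hcl _ h7 _ h5 ⟨e, h3, h4, h1, h2⟩⟩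
    simp only [hf, this]
  have htwo : ∀ z : ZMod 2, z + z = 0 := by decide
  have hclosed : ∀ e : Ed,
      f (src e) (pu e) + f (tgt e) (pu e) + f (src e) (pl e) + f (tgt e) (pl e) = 0 := by
    intro e
    by_cases hs : src e ∈ J
    · by_cases ht : tgt e ∈ J
      · -- both in `J`
        have e1 : f (src e) (pu e) = f (tgt e) (pu e) := by
          by_cases hq : pu e ∈ Q
          · rw [hnA _ _ fun h' => (mem_gam'.1 h').2.2 hq, hnA _ _ fun h' => (mem_gam'.1 h').2.2 hq]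
          · exact hside e _ _ _ _ (Or.inl rfl) (Or.inl rfl) (Or.inr rfl) (Or.inl rfl)
              (mem_gam'.2 ⟨hs, Timar_pu_src e, hq⟩) (mem_gam'.2 ⟨ht, Timar_pu_tgt e, hq⟩)
        have e2 : f (src e) (pl e) = f (tgt e) (pl e) := by
          by_cases hq : pl e ∈ Q
          · rw [hnA _ _ fun h' => (mem_gam'.1 h').2.2 hq, hnA _ _ fun h' => (mem_gam'.1 h').2.2 hq]
          · exact hside e _ _ _ _ (Or.inl rfl) (Or.inr rfl) (Or.inr rfl) (Or.inr rfl)
              (mem_gam'.2 ⟨hs, Timar_pl_src e, hq⟩) (mem_gam'.2 ⟨ht, Timar_pl_tgt e, hq⟩)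
        rw [e1, e2, htwo, zero_add, htwo]
      · have hpu : pu e ∉ Q := fun hq => ht (h.QJ _ hq (mem_nbP.1 (Timar_pu_tgt e)))
        have hpl : pl e ∉ Q := fun hq => ht (h.QJ _ hq (mem_nbP.1 (Timar_pl_tgt e)))
        rw [hnA (tgt e) (pu e) fun h' => ht (mem_gam'.1 h').1,
          hnA (tgt e) (pl e) fun h' => ht (mem_gam'.1 h').1, add_zero, add_zero,
          hside e _ _ _ _ (Or.inl rfl) (Or.inl rfl) (Or.inl rfl) (Or.inr rfl)
              (mem_gam'.2 ⟨hs, Timar_pu_src e, hpu⟩) (mem_gam'.2 ⟨hs, Timar_pl_src e, hpl⟩), htwo]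
    · by_cases ht : tgt e ∈ J
      · have hpu : pu e ∉ Q := fun hq => hs (h.QJ _ hq (mem_nbP.1 (Timar_pu_src e)))
        have hpl : pl e ∉ Q := fun hq => hs (h.QJ _ hq (mem_nbP.1 (Timar_pl_src e)))
        rw [hnA (src e) (pu e) fun h' => hs (mem_gam'.1 h').1,
          hnA (src e) (pl e) fun h' => hs (mem_gam'.1 h').1, add_zero, zero_add,
          hside e _ _ _ _ (Or.inr rfl) (Or.inl rfl) (Or.inr rfl) (Or.inr rfl)
              (mem_gam'.2 ⟨ht, Timar_pu_tgt e, hpu⟩) (mem_gam'.2 ⟨ht, Timar_pl_tgt e, hpl⟩), htwo]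
      · rw [hnA (src e) (pu e) fun h' => hs (mem_gam'.1 h').1,
          hnA (src e) (pl e) fun h' => hs (mem_gam'.1 h').1,
          hnA (tgt e) (pu e) fun h' => ht (mem_gam'.1 h').1,
          hnA (tgt e) (pl e) fun h' => ht (mem_gam'.1 h').1]
        simp
  obtain ⟨gA, gP, hg⟩ := exists_pot_L f hclosed
  have heq : ∀ x, ∀ q ∈ nbP x, f x q = 0 → gA x = gP q := by
    intro x q hq h0
    have h1 := hg x q hq
    rw [h0] at h1
    exact eq_of_sub_eq_zero (by rw [sub_eq_add_neg, ZMod.neg_eq_self_mod_two]; exact h1.symm)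
  -- `gP` is constant outside `Q`
  have hout : ∀ q, q ∉ Q → gP q = gP (a - 1, a - 1) := by
    have key : ∀ q, Relation.ReflTransGen (Pstep K) q (a - 1, a - 1) → q ∉ Q →
        gP q = gP (a - 1, a - 1) := by
      intro q hq
      induction hq using Relation.ReflTransGen.head_induction_on with
      | refl => intro _; rfl
      | @head q q₁ h1 _ ih =>
        obtain ⟨x, hxK, hqx, hq₁x⟩ := h1
        intro hq
        have hxJ : x ∉ J := fun hxJ => hq (h.JQ x hxJ hxK hqx)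
        have hq₁ : q₁ ∉ Q := fun h2 => hxJ (h.QJ q₁ h2 (mem_nbP.1 hq₁x))
        rw [← ih hq₁, ← heq x q hqx (hnA _ _ fun h' => hxJ (mem_gam'.1 h').1),
          ← heq x q₁ hq₁x (hnA _ _ fun h' => hxJ (mem_gam'.1 h').1)]
    exact fun q hq => key q (h.out q hq) hq
  -- `gA` is constant on `K`
  have hstep : ∀ e : Ed, src e ∈ K → tgt e ∈ K → gA (src e) = gA (tgt e) := by
    intro e h1 h2
    have hj1 := h.KJ h1
    have hj2 := h.KJ h2
    by_cases hq : pu e ∈ Q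
    · rw [heq _ _ (Timar_pu_src e) (hnA _ _ fun h' => (mem_gam'.1 h').2.2 hq),
        heq _ _ (Timar_pu_tgt e) (hnA _ _ fun h' => (mem_gam'.1 h').2.2 hq)]
    · have h3 := hside e _ _ _ _ (Or.inl rfl) (Or.inl rfl) (Or.inr rfl) (Or.inl rfl)
              (mem_gam'.2 ⟨hj1, Timar_pu_src e, hq⟩) (mem_gam'.2 ⟨hj2, Timar_pu_tgt e, hq⟩)
      rw [hg _ _ (Timar_pu_src e), hg _ _ (Timar_pu_tgt e)] at h3
      exact add_right_cancel h3
  have hKc : ∀ x ∈ K, ∀ y ∈ K, gA x = gA y := by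
    intro x hx y hy
    have hc := hK x hx y hy
    unfold Conn at hc
    induction hc with
    | refl => rfl
    | tail _ h2 ih =>
      obtain ⟨e, he, h3⟩ := h2
      have he' : src e ∈ K ∧ tgt e ∈ K := by
        simpa [edIn, src] using he
      rcases h3 with ⟨rfl, rfl⟩ | ⟨rfl, rfl⟩
      · rw [ih he'.1, hstep e he'.1 he'.2]
      · rw [ih he'.2, hstep e he'.1 he'.2]
  obtain ⟨⟨x₁, q₁⟩, h1⟩ := hne
  have hG1 := h.gam_fst (hA h1)
  apply Subset.antisymm hA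
  rintro ⟨x, q⟩ hγ
  have hG := h.gam_fst hγ
  have h2 : f x q = f x₁ q₁ := by
    rw [hg x q hG.2.1, hg x₁ q₁ hG1.2.1, hout q hG.2.2, hout q₁ hG1.2.2,
      hKc x hG.1 x₁ hG1.1]
  have h3 : f x₁ q₁ = 1 := if_pos h1
  by_contra h4
  have h5 : f x q = 0 := if_neg h4
  rw [h5, h3] at h2
  exact absurd h2 (by decide)

end P0de
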