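import Pool.Agent.Lib.P0de4a2.Flip
import Pool.Agent.Lib.P0de4a2.Timar
import Pool.Agent.Lib.P0de4a2.Animals

set_option autoImplicit false

open Finset

namespace P0de

/-- the edges at the site `x` -/
def incE (x : Site) : Finset Ed :=
  {(x, false), (x, true), (x - (1, 0), false), (x - (0, 1), true)}

theorem mem_incE {x : Site} {e : Ed} (h : x = src e ∨ x = tgt e) : e ∈ incE x := by
  rcases e with ⟨⟨i, j⟩, c⟩
  rcases h with rfl | rfl <;> cases c <;> simp [incE, src, tgt, dir]

theorem card_incE (x : Site) : (incE x).card ≤ 4 := card_le_four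

/-- the edges at the interface -/
def ambE (G : Finset (Site × Site)) : Finset Ed := G.biUnion fun γ => incE γ.1

theorem card_ambE (G : Finset (Site × Site)) : (ambE G).card ≤ 4 * G.card := by
  rw [ambE, mul_comm]
  exact card_biUnion_le_card_mul _ _ _ fun γ _ => card_incE γ.1

theorem gw_nonneg {u w : ℝ} (hu : 0 ≤ u) (hw : 0 ≤ w) (a b : ℤ) (St ω : Finset Ed) :
    0 ≤ gw u w a b St ω := by
  unfold gw
  positivity

open Classical in
/-- Peierls estimate in the stub model -/
theorem peierls : ∃ u₀ : ℝ, 1 ≤ u₀ ∧ ∀ u ≥ u₀, ∀ w ≥ u ^ 7, ∀ a b : ℤ, ∀ St ⊆ stubs a b,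
    ∀ e₀ ∈ inner a b,
    4 * ∑ ω ∈ (inner a b ∪ St).powerset with e₀ ∈ ω, gw u w a b St ω ≤
      ∑ ω ∈ (inner a b ∪ St).powerset, gw u w a b St ω := by
  refine ⟨3000000, by norm_num, ?_⟩
  intro u hu w hw a b St hSt e₀ he₀
  have hu1 : 1 ≤ u := le_trans (by norm_num) hu
  have hu0 : 0 < u := by linarith
  have hw0 : 0 < w := lt_of_lt_of_le (pow_pos hu0 7) hw
  have he₀' := mem_inner.1 he₀
  -- the region of a configuration
  have hex : ∀ ω : Finset Ed, ∃ K J Q : Finset Site, src e₀ ∈ K ∧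
      (∀ x ∈ K, ∀ y ∈ K, Conn (ω ∩ edIn K) x y) ∧
      (∀ e ∈ ω ∩ inner a b, (src e ∈ K ↔ tgt e ∈ K)) ∧ Region a b K J Q := by
    intro ω
    obtain ⟨K, hKc, hK0, hKconn, hKcl⟩ := exists_cluster (ω := ω) he₀'.1
    obtain ⟨J, Q, hR⟩ := exists_region (mem_clus hKc).1
    exact ⟨K, J, Q, hK0, hKconn, hKcl, hR⟩
  choose Kf Jf Qf hK0 hKconn hKcl hR using hex
  set P := (inner a b ∪ St).powerset with hP
  set A := P.filter (fun ω => e₀ ∈ ω) with hA
  set Z := ∑ ω ∈ P, gw u w a b St ω with hZ
  have hZ0 : 0 ≤ Z := sum_nonneg fun ω _ => gw_nonneg hu0.le hw0.le a b St ω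
  set G : Finset Ed → Finset (Site × Site) := fun ω => Gam (Jf ω) (Qf ω) with hG
  have hsub : ∀ ω ∈ A, ω ⊆ inner a b ∪ St := fun ω hω => mem_powerset.1 (mem_filter.1 hω).1
  have h8 : ∀ ω ∈ A, 8 ≤ (G ω).card := by
    intro ω hω
    have h1 : e₀ ∈ ω := (mem_filter.1 hω).2
    have h2 := (hKcl ω e₀ (mem_inter.2 ⟨h1, he₀⟩)).1 (hK0 ω)
    exact eight_le (hR ω) ((hR ω).KJ (hK0 ω)) ((hR ω).KJ h2)
  -- step 1
  have step1 : ∀ ω ∈ A, gw u w a b St ω ≤
      (u⁻¹) ^ (G ω).card * gw u w a b St (flip (Jf ω) (Qf ω) ω) := by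
    intro ω hω
    have h1 := gw_flip hu1 hw hSt (hsub ω hω) (hR ω) (hKconn ω) ⟨_, hK0 ω⟩ (hKcl ω) (h8 ω hω)
    have h2 : 0 < u ^ (G ω).card := pow_pos hu0 _
    rw [inv_pow, ← div_eq_inv_mul, le_div_iff₀ h2, mul_comm]
    exact h1
  -- step 3
  have step3 : ∀ g ∈ A.image G, ∑ ω ∈ A with G ω = g, gw u w a b St ω ≤
      (16 / u) ^ g.card * Z := by
    intro g hg
    set B := A.filter (fun ω => G ω = g) with hB
    have h1 : ∑ ω ∈ B, gw u w a b St ω ≤
        ∑ ω ∈ B, (u⁻¹) ^ g.card * gw u w a b St (flip (Jf ω) (Qf ω) ω) := by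
      apply sum_le_sum
      intro ω hω
      rw [hB, mem_filter] at hω
      have := step1 ω hω.1
      rw [hω.2] at this
      exact this
    -- the map
    set Φ : Finset Ed → Finset Ed × Finset Ed := fun ω =>
      (ω ∩ ambE g, flip (Jf ω) (Qf ω) ω) with hΦ
    have hinj : Set.InjOn Φ (B : Set (Finset Ed)) := by
      intro ω hω ω' hω' hh
      rw [mem_coe, hB, mem_filter] at hω hω'
      simp only [hΦ, Prod.mk.injEq] at hh
      obtain ⟨hJ, hQ⟩ := region_unique (hR ω) (hR ω') (hω.2.trans hω'.2.symm)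
      rw [← hJ, ← hQ] at hh
      refine flip_inj (hR ω) (hsub ω hω.1) (hsub ω' hω'.1) hh.2 ?_
      rintro e ⟨γ, hγ, hγe⟩
      have hγg : γ ∈ g := by rw [← hω.2]; exact hγ
      have heA : e ∈ ambE g := mem_biUnion.2 ⟨γ, hγg, mem_incE hγe⟩
      have := Finset.ext_iff.1 hh.1 e
      simp only [mem_inter, heA, and_true] at this
      exact this
    have hmaps : B.image Φ ⊆ (ambE g).powerset ×ˢ P := by
      intro p hp
      obtain ⟨ω, hω, rfl⟩ := mem_image.1 hp
      rw [hB, mem_filter] at hω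
      rw [mem_product]
      exact ⟨mem_powerset.2 inter_subset_right,
        mem_powerset.2 (flip_subset (hR ω) (hsub ω hω.1))⟩
    have h2 : ∑ ω ∈ B, gw u w a b St (flip (Jf ω) (Qf ω) ω) ≤ 16 ^ g.card * Z := by
      calc ∑ ω ∈ B, gw u w a b St (flip (Jf ω) (Qf ω) ω)
          = ∑ p ∈ B.image Φ, gw u w a b St p.2 := by
            rw [sum_image hinj]
        _ ≤ ∑ p ∈ (ambE g).powerset ×ˢ P, gw u w a b St p.2 :=
            sum_le_sum_of_subset_of_nonneg hmaps fun p _ _ => gw_nonneg hu0.le hw0.le a b St _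
        _ = 2 ^ (ambE g).card * Z := by
            rw [sum_product]
            change ∑ _x ∈ (ambE g).powerset, Z = _
            rw [sum_const, card_powerset, nsmul_eq_mul]
            push_cast
            rfl
        _ ≤ 16 ^ g.card * Z := by
            apply mul_le_mul_of_nonneg_right _ hZ0
            calc (2 : ℝ) ^ (ambE g).card ≤ 2 ^ (4 * g.card) :=
                  pow_le_pow_right₀ (by norm_num) (card_ambE g)
              _ = 16 ^ g.card := by rw [pow_mul]; norm_num
    calc ∑ ω ∈ B, gw u w a b St ω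
        ≤ ∑ ω ∈ B, (u⁻¹) ^ g.card * gw u w a b St (flip (Jf ω) (Qf ω) ω) := h1
      _ = (u⁻¹) ^ g.card * ∑ ω ∈ B, gw u w a b St (flip (Jf ω) (Qf ω) ω) := by
          rw [← mul_sum]
      _ ≤ (u⁻¹) ^ g.card * (16 ^ g.card * Z) := mul_le_mul_of_nonneg_left h2 (by positivity)
      _ = (16 / u) ^ g.card * Z := by
          rw [div_eq_inv_mul, mul_pow]; ring
  -- step 4
  have step4 : ∑ g ∈ A.image G, (16 / u) ^ g.card ≤ 1 / 4 := by
    set 𝒢 := A.image G with h𝒢
    have hcount : ∀ n : ℕ, (𝒢.filter fun g => g.card = n).card ≤ 20000 ^ n := by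
      intro n
      apply card_animals (src e₀)
      intro g hg
      rw [mem_filter, h𝒢, mem_image] at hg
      obtain ⟨⟨ω, hω, rfl⟩, hn⟩ := hg
      refine ⟨hn, ?_, ?_⟩
      · rw [← hn]
        exact exists_root (hR ω) ((hR ω).KJ (hK0 ω))
      · intro S hS hSne hScl
        refine timar (hR ω) ?_ hS hSne hScl
        intro x hx y hy
        exact Conn.mono inter_subset_right (hKconn ω x hx y hy)
    set M := 𝒢.sup card with hM
    have hmem : ∀ g ∈ 𝒢, g.card ∈ range (M + 1) := fun g hg =>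
      mem_range.2 (Nat.lt_succ_of_le (le_sup (f := card) hg))
    rw [← sum_fiberwise_of_maps_to hmem]
    calc ∑ n ∈ range (M + 1), ∑ g ∈ 𝒢 with g.card = n, (16 / u) ^ g.card
        ≤ ∑ n ∈ range (M + 1), (1 / 8) * (1 / 2 : ℝ) ^ n := by
          apply sum_le_sum
          intro n _
          rcases lt_or_ge n 8 with hn | hn
          · have : (𝒢.filter fun g => g.card = n) = ∅ := by
              rw [filter_eq_empty_iff]
              intro g hg hgn
              rw [h𝒢, mem_image] at hg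
              obtain ⟨ω, hω, rfl⟩ := hg
              have := h8 ω hω
              omega
            rw [this, sum_empty]
            positivity
          · calc ∑ g ∈ 𝒢 with g.card = n, (16 / u) ^ g.card
                = ∑ g ∈ 𝒢 with g.card = n, (16 / u) ^ n := by
                  apply sum_congr rfl
                  intro g hg
                  rw [(mem_filter.1 hg).2]
              _ = (𝒢.filter fun g => g.card = n).card * (16 / u) ^ n := by
                  rw [sum_const, nsmul_eq_mul]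
              _ ≤ 20000 ^ n * (16 / u) ^ n := by
                  apply mul_le_mul_of_nonneg_right _ (by positivity)
                  exact_mod_cast hcount n
              _ = (320000 / u) ^ n := by
                  rw [← mul_pow]; congr 1; ring
              _ ≤ (1 / 8) ^ n := by
                  apply pow_le_pow_left₀ (by positivity)
                  rw [div_le_div_iff₀ hu0 (by norm_num)]
                  linarith
              _ = (1 / 4) ^ n * (1 / 2) ^ n := by
                  rw [← mul_pow]; norm_num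
              _ ≤ (1 / 8) * (1 / 2) ^ n := by
                  apply mul_le_mul_of_nonneg_right _ (by positivity)
                  calc (1 / 4 : ℝ) ^ n ≤ (1 / 4) ^ 8 :=
                        pow_le_pow_of_le_one (by norm_num) (by norm_num) hn
                    _ ≤ 1 / 8 := by norm_num
      _ = (1 / 8) * ∑ n ∈ range (M + 1), (1 / 2 : ℝ) ^ n := by rw [mul_sum]
      _ ≤ (1 / 8) * 2 := mul_le_mul_of_nonneg_left (sum_geometric_two_le _) (by norm_num)
      _ = 1 / 4 := by norm_num
  have total : ∑ ω ∈ A, gw u w a b St ω ≤ (1 / 4) * Z := by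
    rw [← sum_fiberwise_of_maps_to (g := G) (t := A.image G) fun ω hω => mem_image_of_mem G hω]
    calc ∑ g ∈ A.image G, ∑ ω ∈ A with G ω = g, gw u w a b St ω
        ≤ ∑ g ∈ A.image G, (16 / u) ^ g.card * Z := sum_le_sum step3
      _ = (∑ g ∈ A.image G, (16 / u) ^ g.card) * Z := by rw [sum_mul]
      _ ≤ (1 / 4) * Z := mul_le_mul_of_nonneg_right step4 hZ0
  linarith

end P0de
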