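import Pool.Agent.Lib.P0de4a2.Defs

/-!
# The random-cluster measure with boundary-cluster weight `qb` on a square
-/

set_option autoImplicit false

open Finset

namespace P0de

/-- the boundary vertices of the square `[a, b]²` (the vertices of its boundary cycle) -/
noncomputable def bdry (a b : ℤ) : Finset Site := box a (b + 1) \ box (a + 1) b

open Classical in
/-- number of interior clusters of `η` on the square `[a, b]²` -/
noncomputable def kI (a b : ℤ) (η : Finset Ed) : ℕ :=
  ((clus (box a (b + 1)) η).filter fun C => Disjoint C (bdry a b)).card

open Classical in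
/-- number of boundary clusters of `η` on the square `[a, b]²` -/
noncomputable def kB (a b : ℤ) (η : Finset Ed) : ℕ :=
  ((clus (box a (b + 1)) η).filter fun C => ¬ Disjoint C (bdry a b)).card

/-- the weight of the configuration `η ⊆ inner a (b + 1)` (set of open edges of the domain
`[a, b]²`) in the measure `RC^{qb}_{q,p}` -/
noncomputable def rcW (q qb p : ℝ) (a b : ℤ) (η : Finset Ed) : ℝ :=
  q ^ kI a b η * qb ^ kB a b η * p ^ η.card * (1 - p) ^ (inner a (b + 1) \ η).card

/-- the critical point -/
noncomputable def pc (q : ℝ) : ℝ := √q / (√q + 1)

/-- the dual configuration (on the faces of `[a, b]²`, with stubs to the outer faces) -/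
noncomputable def dual (a b : ℤ) (η : Finset Ed) : Finset Ed :=
  (inner a b ∪ stubs a b).filter fun e => cr e ∉ η

end P0de
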