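import Pool.Agent.Lib.P0de4a2.H1

set_option autoImplicit false

open Finset

namespace P0de

theorem mem_nbP {x q : Site} : q ∈ nbP x ↔ x ∈ nbA q := by
  rcases x with ⟨i, j⟩
  rcases q with ⟨k, l⟩
  simp only [nbP, nbA, mem_insert, mem_singleton, Prod.mk_sub_mk, Prod.mk_add_mk, Prod.mk.injEq]
  omega

theorem mem_nbP_iff {x q : Site} : q ∈ nbP x ↔
    (q.1 = x.1 ∨ q.1 = x.1 - 1) ∧ (q.2 = x.2 ∨ q.2 = x.2 - 1) := by
  rcases x with ⟨i, j⟩
  rcases q with ⟨k, l⟩
  simp only [nbP, mem_insert, mem_singleton, Prod.mk_sub_mk, Prod.mk.injEq]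
  omega

theorem mem_box {a b : ℤ} {x : Site} : x ∈ box a b ↔ (a ≤ x.1 ∧ x.1 < b) ∧ (a ≤ x.2 ∧ x.2 < b) := by
  simp [box]

open Classical in
/-- Every `K ⊆ box a b` encloses a region. -/
theorem exists_region {a b : ℤ} {K : Finset Site} (hK : K ⊆ box a b) :
    ∃ J Q, Region a b K J Q := by
  -- passive sites with an active neighbour outside the square are connected to the base point
  have hext : ∀ q : Site, (∃ x, q ∈ nbP x ∧ x ∉ box a b) →
      Relation.ReflTransGen (Pstep K) q (a - 1, a - 1) := by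
    have hstep : ∀ x, x ∉ box a b → ∀ q ∈ nbP x, ∀ q' ∈ nbP x,
        Relation.ReflTransGen (Pstep K) q q' := fun x hx q hq q' hq' =>
      Relation.ReflTransGen.single ⟨x, fun h => hx (hK h), hq, hq'⟩
    -- `x` reaches the base point
    set g : Site → Prop := fun x => Relation.ReflTransGen (Pstep K) x (a - 1, a - 1) with hg
    have hsymm : ∀ q q', Relation.ReflTransGen (Pstep K) q q' →
        Relation.ReflTransGen (Pstep K) q' q := by
      intro q q' h
      induction h with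
      | refl => exact Relation.ReflTransGen.refl
      | tail _ h2 ih =>
        obtain ⟨x, hx, h3, h4⟩ := h2
        exact Relation.ReflTransGen.head ⟨x, hx, h4, h3⟩ ih
    have hconst := const_outside (a := a) (b := b) g (by
      intro e h1 h2
      have hpu1 : pu e ∈ nbP (src e) := by simp [pu, src, nbP]
      have hpu2 : pu e ∈ nbP (tgt e) := by
        rcases e with ⟨x, c⟩
        cases c <;> simp [pu, tgt, nbP, dir]
      have hs : ∀ x : Site, x ∈ nbP x := fun x => by simp [nbP]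
      have hc1 : Relation.ReflTransGen (Pstep K) (src e) (tgt e) :=
        (hstep _ h1 _ (hs _) _ hpu1).trans (hstep _ h2 _ hpu2 _ (hs _))
      simp only [hg, eq_iff_iff]
      exact ⟨fun h => (hsymm _ _ hc1).trans h, fun h => hc1.trans h⟩)
    have hbase : g (a - 1, a - 1) := Relation.ReflTransGen.refl
    rintro q ⟨x, hq, hx⟩
    have hgx : g x := by
      rw [hconst x (a - 1, a - 1) hx (by rw [mem_box]; simp only; omega)]
    have hs : x ∈ nbP x := by simp [nbP]
    exact (hstep x hx q hq x hs).trans hgx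
  have hbox : ∀ q, q ∉ box a (b - 1) → Relation.ReflTransGen (Pstep K) q (a - 1, a - 1) := by
    intro q hq
    apply hext
    by_cases h1 : q ∈ box a b
    · refine ⟨q + (1, 1), ?_, ?_⟩
      · rw [mem_nbP]; simp [nbA]
      · rw [mem_box] at *
        simp only [Prod.fst_add, Prod.snd_add]
        omega
    · exact ⟨q, by simp [nbP], h1⟩
  set Q := (box a (b - 1)).filter
    fun q => ¬ Relation.ReflTransGen (Pstep K) q (a - 1, a - 1) with hQ
  have hnQ : ∀ q, q ∉ Q ↔ Relation.ReflTransGen (Pstep K) q (a - 1, a - 1) := by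
    intro q
    rw [hQ, mem_filter, not_and, not_not]
    constructor
    · intro h
      by_cases h1 : q ∈ box a (b - 1)
      · exact h h1
      · exact hbox q h1
    · intro h _
      exact h
  set J := (box a b).filter fun x => x ∈ K ∨ nbP x ⊆ Q with hJ
  refine ⟨J, Q, ?_, filter_subset _ _, filter_subset _ _, ?_, ?_, ?_⟩
  · intro x hx
    exact mem_filter.2 ⟨hK hx, Or.inl hx⟩
  · intro q hq x hx
    have hqx := mem_nbP.2 hx
    have hqb : q ∈ box a (b - 1) := (mem_filter.1 hq).1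
    have hxb : x ∈ box a b := by
      rw [mem_nbP_iff] at hqx
      rw [mem_box] at *
      omega
    rw [hJ, mem_filter]
    refine ⟨hxb, ?_⟩
    by_cases hxK : x ∈ K
    · exact Or.inl hxK
    · right
      intro q' hq'
      by_contra hq'Q
      rw [hnQ] at hq'Q
      have : Relation.ReflTransGen (Pstep K) q (a - 1, a - 1) :=
        Relation.ReflTransGen.head ⟨x, hxK, hqx, hq'⟩ hq'Q
      exact (hnQ q).2 this hq
  · intro x hx hxK
    rcases (mem_filter.1 hx).2 with h | h
    · exact absurd h hxK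
    · exact h
  · intro q hq
    exact (hnQ q).1 hq

theorem mem_gam' {J Q : Finset Site} {x q : Site} :
    (x, q) ∈ Gam J Q ↔ x ∈ J ∧ q ∈ nbP x ∧ q ∉ Q := by
  simp only [Gam, mem_biUnion, mem_image, mem_sdiff, Prod.mk.injEq]
  constructor
  · rintro ⟨x', h1, q', ⟨h2, h3⟩, rfl, rfl⟩
    exact ⟨h1, h2, h3⟩
  · rintro ⟨h1, h2, h3⟩
    exact ⟨x, h1, q, ⟨h2, h3⟩, rfl, rfl⟩

theorem Region.q_sub {a b : ℤ} {K J Q K' J' Q' : Finset Site} (h : Region a b K J Q)
    (h' : Region a b K' J' Q') (hG : Gam J Q = Gam J' Q') : Q' ⊆ Q := by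
  have key : ∀ q, Relation.ReflTransGen (Pstep K) q (a - 1, a - 1) → q ∉ Q → q ∉ Q' := by
    intro q hq
    induction hq using Relation.ReflTransGen.head_induction_on with
    | refl =>
      intro _ h2
      have := mem_box.1 (h'.Qbox h2)
      simp only at this
      omega
    | @head q q₁ h1 _ ih =>
      obtain ⟨x, hxK, hqx, hq₁x⟩ := h1
      intro hq hqQ'
      have hxJ : x ∉ J := fun hxJ => hq (h.JQ x hxJ hxK hqx)
      have hq₁ : q₁ ∉ Q := fun h2 => hxJ (h.QJ q₁ h2 (mem_nbP.1 hq₁x))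
      have hq₁' := ih hq₁
      have hxJ' : x ∈ J' := h'.QJ q hqQ' (mem_nbP.1 hqx)
      have : (x, q₁) ∈ Gam J Q := by
        rw [hG]
        exact mem_gam'.2 ⟨hxJ', hq₁x, hq₁'⟩
      exact hxJ (mem_gam'.1 this).1
  intro q hq
  by_contra hq'
  exact key q (h.out q hq') hq' hq

/-- The interface determines the region (`K` and `K'` may differ). -/
theorem region_unique {a b : ℤ} {K J Q K' J' Q' : Finset Site} (h : Region a b K J Q)
    (h' : Region a b K' J' Q') (hG : Gam J Q = Gam J' Q') : J = J' ∧ Q = Q' := by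
  have hQ : Q = Q' := Subset.antisymm (h'.q_sub h hG.symm) (h.q_sub h' hG)
  have hsub : ∀ {K₁ J₁ J₂ Q₁ K₂ : Finset Site}, Region a b K₁ J₁ Q₁ → Region a b K₂ J₂ Q₁ →
      Gam J₁ Q₁ = Gam J₂ Q₁ → J₁ ⊆ J₂ := by
    intro K₁ J₁ J₂ Q₁ K₂ h1 h2 hG x hx
    by_cases hx2 : x ∈ Q₁
    · exact h2.QJ x hx2 (by simp [nbA])
    · have : (x, x) ∈ Gam J₂ Q₁ := by
        rw [← hG]
        exact mem_gam'.2 ⟨hx, by simp [nbP], hx2⟩
      exact (mem_gam'.1 this).1
  subst hQ
  exact ⟨Subset.antisymm (hsub h h' hG) (hsub h' h hG.symm), rfl⟩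

/-- The sites at the interface are in `K`. -/
theorem Region.gam_fst {a b : ℤ} {K J Q : Finset Site} (h : Region a b K J Q) {γ : Site × Site}
    (hγ : γ ∈ Gam J Q) : γ.1 ∈ K ∧ γ.2 ∈ nbP γ.1 ∧ γ.2 ∉ Q := by
  rcases γ with ⟨x, q⟩
  obtain ⟨h1, h2, h3⟩ := mem_gam'.1 hγ
  refine ⟨?_, h2, h3⟩
  by_contra hK
  exact h3 (h.JQ x h1 hK h2)

end P0de
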